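import Pool.Agent.helper76.DP.MO2
import Pool.Agent.helper67.FR.EXC

/-!
# Row dp:MOD (MP_bf63dc_nt), spec Pool/Agent/helper76/DP/Spec.lean
-/

set_option autoImplicit false

namespace Pool.Agent.DP

open Finset
open Pool.Agent.FR (mean Eig PRJ_add PRJ_sub PRJ_mul PRJ_sum PRJ_mono PRJ_nonneg PRJ_const PRJ_abs PRJ_le_const EXC_cop EXC_dvd)
open Pool.Agent.AT (Qk Pair)
open Pool.Agent.HF (Om TC NoTC)
open Pool.Agent.IT (Ad)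

theorem MO_q (Q₀ k : ℕ) : ∃ q : ℕ, 1 ≤ q ∧ Nat.Coprime Q₀ q ∧ (∀ p : ℕ, p.Prime → p ∣ q → ¬ p ∣ Q₀) ∧ ∀ p : ℕ, p.Prime → p ≤ k → p ∣ Q₀ * q := by
  classical
  obtain ⟨S, hS⟩ : ∃ S : Finset ℕ, S = (range (k + 1)).filter (fun p => p.Prime ∧ ¬ p ∣ Q₀) := ⟨_, rfl⟩
  have hSp : ∀ p ∈ S, p.Prime ∧ ¬ p ∣ Q₀ := by
    intro p hp
    rw [hS] at hp
    exact (mem_filter.1 hp).2
  have hcop : Nat.Coprime Q₀ (∏ p ∈ S, p) := Nat.Coprime.prod_right fun p hp => ((Nat.Prime.coprime_iff_not_dvd (hSp p hp).1).2 (hSp p hp).2).symm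
  refine ⟨∏ p ∈ S, p, Finset.prod_pos fun p hp => (hSp p hp).1.pos, hcop, ?_, ?_⟩
  · intro p hp hpd hpQ
    have h1 := Nat.Coprime.eq_one_of_dvd (Nat.Coprime.coprime_dvd_left hpQ hcop) hpd
    exact hp.one_lt.ne' h1
  · intro p hp hpk
    by_cases h : p ∣ Q₀
    · exact h.mul_right _
    · refine (Finset.dvd_prod_of_mem (fun p : ℕ => p) ?_).mul_left _
      rw [hS]
      exact mem_filter.2 ⟨mem_range.2 (by omega), hp, h⟩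

theorem MO_dense (hADC : ADC_stmt) (r : ℕ × ℕ) (ε : ℝ) (hε : 0 < ε) (ha : 1 ≤ r.1) (hb : 1 ≤ r.2) (hab : Nat.Coprime r.1 r.2) (hG : ¬ GoodD ε r.1 r.2) (L₀ : ℕ) :
    ∃ L : ℕ, L₀ ≤ L ∧ ∃ y : ℤ, (3 / 4 * ε * dn r.1 r.2) * L ≤ ∑ k ∈ range L, bd r (y + (k : ℕ)) := by
  classical
  have hdn := dn_pos r.1 r.2 ha hb
  unfold GoodD at hG
  push Not at hG
  obtain ⟨L, hL, y, hy⟩ := hG (L₀ + ⌈4 * (2 * r.1 * r.2 + 1) / dn r.1 r.2⌉₊)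
  refine ⟨L, by omega, y, ?_⟩
  have h1 := (hADC r.1 r.2 ha hb hab).2 L y
  have h2 : ∑ k ∈ range L, bd r (y + (k : ℕ)) = (#{k ∈ range L | Ad r.1 r.2 (y + (k : ℕ)) ∧ ¬ TC r.1 r.2 (y + (k : ℕ))} : ℝ) := by
    rw [← Finset.sum_boole]
    refine sum_congr rfl fun k _ => ?_
    unfold bd
    by_cases h : Ad r.1 r.2 (y + (k : ℕ)) ∧ ¬ TC r.1 r.2 (y + (k : ℕ))
    · rw [if_pos h]
    · rw [if_neg h]
  rw [h2]
  refine le_trans ?_ hy.le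
  have h3 : 4 * (2 * (r.1 : ℝ) * r.2 + 1) / dn r.1 r.2 ≤ L := by
    refine (Nat.le_ceil _).trans ?_
    exact_mod_cast (by omega : ⌈4 * (2 * (r.1 : ℝ) * r.2 + 1) / dn r.1 r.2⌉₊ ≤ L)
  rw [div_le_iff₀ hdn] at h3
  have h4 : 3 / 4 * (dn r.1 r.2 * L) ≤ (#{k ∈ range L | Ad r.1 r.2 (y + (k : ℕ))} : ℝ) := by
    have h5 : (L : ℝ) * dn r.1 r.2 = dn r.1 r.2 * L := mul_comm _ _
    rw [h5] at h3
    have h6 : dn r.1 r.2 * L - 2 * r.1 * r.2 - 1 ≤ (#{k ∈ range L | Ad r.1 r.2 (y + (k : ℕ))} : ℝ) := h1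
    linarith
  calc 3 / 4 * ε * dn r.1 r.2 * L = ε * (3 / 4 * (dn r.1 r.2 * L)) := by ring
    _ ≤ ε * _ := mul_le_mul_of_nonneg_left h4 hε.le

theorem MO_lo (a b Q₀ : ℕ) (h : 2 * a * b ∣ Q₀) (x k : ℤ) (hL : Lo a b (x + Q₀ * k)) : Lo a b x := by
  have h2 : (2 : ℤ) ∣ (Q₀ : ℤ) := by
    have : 2 ∣ Q₀ := dvd_trans ⟨a * b, by ring⟩ h
    exact_mod_cast this
  refine ⟨fun p hp hpab hpx => hL.1 p hp hpab ?_, fun hn => ?_⟩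
  · have h3 : (p : ℤ) ∣ (Q₀ : ℤ) := by
      have : p ∣ Q₀ := dvd_trans (dvd_trans hpab ⟨2, by ring⟩) h
      exact_mod_cast this
    exact dvd_add hpx (h3.mul_right k)
  · have h3 := hL.2 hn
    exact (dvd_add_left (h2.mul_right k)).1 h3

theorem MO_d0 (hADC : ADC_stmt) (r : ℕ × ℕ) (Q₀ : ℕ) (ha : 1 ≤ r.1) (hb : 1 ≤ r.2) (hab : Nat.Coprime r.1 r.2) (h : 2 * r.1 * r.2 ∣ Q₀) (d : ℤ → ℝ)
    (hd : ∀ x, (∀ k : ℤ, bd r (x + Q₀ * k) = 0) → d x = 0) (x : ℤ) (hx : ¬ Lo r.1 r.2 x) : d x = 0 := by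
  refine hd x fun k => ?_
  unfold bd
  rw [if_neg]
  rintro ⟨h1, -⟩
  exact hx (MO_lo r.1 r.2 Q₀ h x k ((hADC r.1 r.2 ha hb hab).1 _ h1))

/-- clause (i) -/
theorem MO_corr {Q₀ q N' X G : ℕ} [NeZero Q₀] [NeZero q] (r : ℕ × ℕ) (hb : 1 ≤ r.2) (hab : Nat.Coprime r.1 r.2) (hr : r ≠ (1, 1))
    (ρ : (ZMod Q₀)ˣ → (ZMod q)ˣ → ℤ) (V : ℤ) (w : Fin G → ℕ) (o : Fin G → ℤ) (hw : ∀ γ, 1 ≤ w γ) (lam : Fin N' → (ZMod Q₀)ˣ) (f : Fin G → Fin N' → (ZMod q)ˣ × Fin X → ℝ) (δ : ℝ) (hδ : 0 ≤ δ) (hX : 1 ≤ X)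
    (hf : ∀ γ i ξ, 0 ≤ f γ i ξ)
    (h : ∀ γ i γ' i', (γ, i) ≠ (γ', i') → ∑ ξ, ∑ ξ', (open Classical in if PrE (w γ, o γ + ρ (lam i) ξ.1 + (Q₀ * q : ℕ) * ((ξ.2 : ℕ) : ℤ)) (w γ', o γ' + ρ (lam i') ξ'.1 + (Q₀ * q : ℕ) * ((ξ'.2 : ℕ) : ℤ)) then 0 else f γ i ξ * f γ' i' ξ') ≤
      δ * ((Fintype.card (ZMod q)ˣ : ℝ) * (X : ℕ)) ^ 2)
    (γ γ' : Fin G) (hγ : γ' ≠ γ) (hsl : r.1 * w γ' = r.2 * w γ) (ho : (r.1 : ℤ) * o γ' - r.2 * o γ = V) :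
    (mean fun p : Pl Q₀ q X × Pl Q₀ q X => Ac lam (f γ') p.1 * Ac lam (f γ) p.2 * bd r (cc ρ V r.1 r.2 p)) ≤ δ := by
  classical
  have hne : Nonempty (Fin X) := ⟨⟨0, hX⟩⟩
  refine Ac_corr lam (f γ') (f γ) (fun p => bd r (cc ρ V r.1 r.2 p)) δ hδ fun i i' => ?_
  have h1 := h γ' i γ i' (fun he => hγ (congrArg Prod.fst he))
  have e1 : ((Fintype.card ((ZMod q)ˣ × Fin X) : ℕ) : ℝ) = (Fintype.card (ZMod q)ˣ : ℝ) * (X : ℕ) := by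
    rw [Fintype.card_prod, Fintype.card_fin, Nat.cast_mul]
  rw [e1]
  refine le_trans (sum_le_sum fun ξ _ => sum_le_sum fun ξ' _ => ?_) h1
  have hb0 := bd_bound r (cc ρ V r.1 r.2 ((lam i, ξ), (lam i', ξ')))
  have hff : 0 ≤ f γ' i ξ * f γ i' ξ' := mul_nonneg (hf _ _ _) (hf _ _ _)
  split_ifs with hP
  · have h2 : bd r (cc ρ V r.1 r.2 ((lam i, ξ), (lam i', ξ'))) = 0 := by
      refine MO_bad r (w γ') (w γ) _ _ _ hb (hw _) hab hr hsl ?_ hP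
      unfold cc
      rw [← ho]
      dsimp only
      ring
    rw [h2, mul_zero]
  · nlinarith

theorem MO_const (ε e : ℝ) (m : ℕ) (hε : 0 < ε) (he : 0 < e) (hm : 1 ≤ m) : ∃ ε₁ : ℝ, 0 < ε₁ ∧ ε₁ ≤ 1 ∧ 8 * (m : ℝ) ^ 2 * ε₁ ≤ ε ∧ 32 * (m : ℝ) ^ 3 * √ε₁ ≤ e := by
  have hm0 : (0 : ℝ) < m := by exact_mod_cast hm
  refine ⟨min (min 1 (ε / (8 * (m : ℝ) ^ 2))) ((e / (32 * (m : ℝ) ^ 3)) ^ 2), ?_, ?_, ?_, ?_⟩
  · exact lt_min (lt_min one_pos (by positivity)) (by positivity)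
  · exact (min_le_left _ _).trans (min_le_left _ _)
  · have h1 : min (min 1 (ε / (8 * (m : ℝ) ^ 2))) ((e / (32 * (m : ℝ) ^ 3)) ^ 2) ≤ ε / (8 * (m : ℝ) ^ 2) := (min_le_left _ _).trans (min_le_right _ _)
    rw [le_div_iff₀ (by positivity)] at h1
    linarith
  · have h1 : min (min 1 (ε / (8 * (m : ℝ) ^ 2))) ((e / (32 * (m : ℝ) ^ 3)) ^ 2) ≤ (e / (32 * (m : ℝ) ^ 3)) ^ 2 := min_le_right _ _
    have h2 := Real.sqrt_le_sqrt h1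
    rw [Real.sqrt_sq (by positivity), le_div_iff₀ (by positivity)] at h2
    linarith

/-- the average over the lists -/
theorem MO_list {N' X S G : ℕ} {Z W : Type} [Fintype W] [Nonempty W] (hG : 1 ≤ G) (hN' : 1 ≤ N') (hX : 1 ≤ X) (hXS : 10 ^ 7 * S ≤ X) (lam : Fin N' → Z) (f : Fin G → Fin N' → W × Fin (X + S) → ℝ) (δ : ℝ)
    (hδ : δ ≤ 1 / 10 ^ 7) (h : (2 * (1 / 4 + 1 / 500000) - δ) * ((G : ℝ) * N' * Fintype.card W * X) ≤ ∑ γ, ∑ i, ∑ ξ, f γ i ξ) :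
    1 / 2 + 32 / 10 ^ 7 ≤ mean fun i : Fin N' => 2 * mean fun γ : Fin G => mean fun ξ => Ac lam (f γ) (lam i, ξ) := by
  rw [PRJ_mul, MO_swap]
  simp_rw [Ac_avg]
  unfold mean
  rw [Fintype.card_fin, ← sum_div, Fintype.card_prod, Fintype.card_fin]
  have hG0 : (0 : ℝ) < G := by exact_mod_cast hG
  have hN0 : (0 : ℝ) < N' := by exact_mod_cast hN'
  have hX0 : (0 : ℝ) < X := by exact_mod_cast hX
  have hW0 : (0 : ℝ) < Fintype.card W := by exact_mod_cast Fintype.card_pos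
  have hXS0 : (10 : ℝ) ^ 7 * S ≤ X := by exact_mod_cast hXS
  have hS0 : (0 : ℝ) ≤ S := Nat.cast_nonneg _
  push_cast
  rw [div_div, ← mul_div_assoc, le_div_iff₀ (by positivity)]
  have h1 : (1 / 2 + 32 / 10 ^ 7) * (2 * (N' * ((Fintype.card W : ℝ) * (X + S))) * G) ≤ 2 * ((2 * (1 / 4 + 1 / 500000) - δ) * ((G : ℝ) * N' * Fintype.card W * X)) := by
    have h2 : (1 / 2 + 32 / 10 ^ 7) * ((X : ℝ) + S) ≤ (2 * (1 / 4 + 1 / 500000) - δ) * X := by nlinarith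
    have h3 : 0 ≤ 2 * ((N' : ℝ) * (Fintype.card W : ℝ) * G) := by positivity
    nlinarith [mul_le_mul_of_nonneg_left h2 h3]
  linarith

theorem MOD (hREG : REG_stmt) (hLAW : LAW_stmt) (hOMD : OMD_stmt) (hCRA : CRA_stmt) (hADC : ADC_stmt) (hMMX : MMX_stmt) (hIDX : IDX_stmt) (hFCR : FCR_stmt) (hORT : Pool.Agent.FR.ORT_stmt) : MOD_stmt := by
  classical
  intro R ε hε hε1 hR e he
  obtain ⟨m, hm1, hm⟩ : ∃ m : ℕ, 1 ≤ m ∧ ∀ r ∈ R, r.1 ≤ m ∧ r.2 ≤ m := by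
    refine ⟨1 + ∑ r ∈ R, (r.1 + r.2), by omega, fun r hr => ?_⟩
    have h1 : r.1 + r.2 ≤ ∑ r ∈ R, (r.1 + r.2) := single_le_sum (f := fun r : ℕ × ℕ => r.1 + r.2) (fun _ _ => Nat.zero_le _) hr
    omega
  have hm0 : (0 : ℝ) < m := by exact_mod_cast hm1
  obtain ⟨y, hy2, hye⟩ : ∃ y : ℕ, 2 ≤ y ∧ 80 * (m : ℝ) ≤ e * y := by
    refine ⟨⌈80 * (m : ℝ) / e⌉₊ + 2, by omega, ?_⟩
    have h1 := Nat.le_ceil (80 * (m : ℝ) / e)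
    rw [div_le_iff₀ he] at h1
    push_cast
    nlinarith
  obtain ⟨ε₁, hε₁0, hε₁1, hε₁a, hε₁b⟩ := MO_const ε e m hε he hm1
  obtain ⟨Qb, hQbdef⟩ : ∃ Qb : ℕ, Qb = y.factorial * ∏ r ∈ R, (2 * r.1 * r.2) := ⟨_, rfl⟩
  have hQb1 : 1 ≤ Qb := by
    rw [hQbdef]
    exact Nat.mul_pos (Nat.factorial_pos _) (Finset.prod_pos fun r hr => Nat.mul_pos (Nat.mul_pos two_pos (hR r hr).1) (hR r hr).2.1)
  obtain ⟨Q₀, hQ₀1, hQb, hq⟩ := hREG ↥R (fun i => bd i.1) (fun i => 3 / 4 * ε * dn i.1.1 i.1.2) ε₁ Qb hε₁0 hε₁1 hQb1 (fun i x => bd_bound _ x)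
    (fun i L₀ => MO_dense hADC i.1 ε hε (hR i.1 i.2).1 (hR i.1 i.2).2.1 (hR i.1 i.2).2.2.1 (hR i.1 i.2).2.2.2.2 L₀)
  have : NeZero Q₀ := ⟨by omega⟩
  have h2ab : ∀ r ∈ R, 2 * r.1 * r.2 ∣ Q₀ := by
    intro r hr
    refine dvd_trans ?_ hQb
    rw [hQbdef]
    exact (Finset.dvd_prod_of_mem (fun r : ℕ × ℕ => 2 * r.1 * r.2) hr).mul_left _
  have hyQ : ∀ p : ℕ, p.Prime → p ≤ y → p ∣ Q₀ := by
    intro p hp hpy
    refine dvd_trans ?_ hQb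
    rw [hQbdef]
    exact (Nat.dvd_factorial hp.pos hpy).mul_right _
  obtain ⟨G, w, g, P, hG1, hP1, hw1, hwp, hV⟩ := hIDX R (e / 2) (by linarith) (fun r hr => ⟨(hR r hr).1, (hR r hr).2.1, (hR r hr).2.2.1⟩)
  obtain ⟨N', hN', hmm⟩ := hMMX (ZMod Q₀)ˣ (1 / 10 ^ 7) (by norm_num)
  obtain ⟨δF, hδF⟩ : ∃ δF : ℝ, δF = min (1 / 10 ^ 7) (e / 2) := ⟨_, rfl⟩
  have hδF0 : 0 < δF := by
    rw [hδF]
    exact lt_min (by norm_num) (by linarith)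
  have hδF1 : δF ≤ 1 / 10 ^ 7 := by
    rw [hδF]
    exact min_le_left _ _
  have hδF2 : δF ≤ e / 2 := by
    rw [hδF]
    exact min_le_right _ _
  obtain ⟨k, hk⟩ := hFCR G N' w δF hG1 hN' hδF0 hw1
  obtain ⟨q, hq1, hcop, hqp, hQk⟩ := MO_q Q₀ k
  have : NeZero q := ⟨by omega⟩
  have hqy : ∀ p : ℕ, p.Prime → p ∣ q → y < p := by
    intro p hp hpq
    by_contra hcon
    exact hqp p hp hpq (hyQ p hp (not_lt.1 hcon))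
  obtain ⟨D, hD⟩ : ∃ D : ℕ, D = (m ^ 2).factorial := ⟨_, rfl⟩
  have hD0 : 0 < D := by
    rw [hD]
    exact Nat.factorial_pos _
  obtain ⟨l, hl1, hP'⟩ := hq (q * D) (Nat.mul_pos hq1 hD0)
  obtain ⟨S, hS⟩ := hk (Q₀ * q) (Nat.mul_pos hQ₀1 hq1) hQk (fun γ p hp hpw => by
    obtain ⟨r, hr, hd⟩ := hwp γ p hp hpw
    have h1 : p ∣ Q₀ := dvd_trans (dvd_trans hd ⟨2, by ring⟩) (h2ab r hr)
    exact h1.mul_right _)
  obtain ⟨X₁, hX₁⟩ := hP' (Q₀ * q * P) (Nat.mul_pos (Nat.mul_pos hQ₀1 hq1) hP1)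
  obtain ⟨X, hX1, hXX, hXe, hXS⟩ : ∃ X : ℕ, 1 ≤ X ∧ X₁ ≤ X ∧ 16 * l * D * m ≤ e * X ∧ 10 ^ 7 * S ≤ X := by
    refine ⟨X₁ + ⌈16 * (l : ℝ) * D * m / e⌉₊ + 10 ^ 7 * S + 1, by omega, by omega, ?_, by omega⟩
    have h1 := Nat.le_ceil (16 * (l : ℝ) * D * m / e)
    rw [div_le_iff₀ he] at h1
    push_cast
    have h2 : (0 : ℝ) ≤ X₁ := Nat.cast_nonneg _
    have h3 : (0 : ℝ) ≤ S := Nat.cast_nonneg _
    nlinarith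
  have hXe' : 16 * l * D * m ≤ e * (X + S : ℕ) := by
    push_cast
    have h3 : (0 : ℝ) ≤ S := Nat.cast_nonneg _
    nlinarith
  have hXS1 : 1 ≤ X + S := by omega
  have hwin : X₁ ≤ 2 * m * (Q₀ * q) * (X + S + 1) := by
    have h1 : 1 ≤ 2 * m * (Q₀ * q) := Nat.mul_pos (by omega) (Nat.mul_pos hQ₀1 hq1)
    calc X₁ ≤ 1 * (X + S + 1) := by omega
      _ ≤ 2 * m * (Q₀ * q) * (X + S + 1) := Nat.mul_le_mul_right _ h1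
  have hVd : ∀ r : ℕ × ℕ, ∃ (V : ℤ) (d : ℤ → ℝ), r ∈ R → (((Q₀ * q * P : ℕ) : ℤ) ∣ V ∧ (∀ x, 0 ≤ d x ∧ d x ≤ 1) ∧ (∀ x k : ℤ, d (x + Q₀ * k) = d x) ∧ (∀ x, (∀ k : ℤ, bd r (x + Q₀ * k) = 0) → d x = 0) ∧
      (3 / 4 * ε * dn r.1 r.2 - ε₁) * Q₀ ≤ ∑ k ∈ range Q₀, d (k : ℕ) ∧
      ∑ x ∈ Icc (V - (2 * m * (Q₀ * q) * (X + S + 1) : ℕ)) (V + (2 * m * (Q₀ * q) * (X + S + 1) : ℕ)), (Fm (bd r) (Q₀ * (q * D)) l x - d x) ^ 2 ≤ ε₁ * (2 * m * (Q₀ * q) * (X + S + 1) : ℕ)) := by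
    intro r
    by_cases hr : r ∈ R
    · obtain ⟨V, d, h1⟩ := hX₁ _ hwin ⟨r, hr⟩
      exact ⟨V, d, fun _ => h1⟩
    · exact ⟨0, 0, fun h => absurd h hr⟩
  choose V d hVd using hVd
  obtain ⟨o, hoQ, ho⟩ := hV V ((Q₀ * q : ℕ) : ℤ) (fun r hr => by
    have h1 := (hVd r hr).1
    have h2 : ((Q₀ * q : ℕ) : ℤ) * P = ((Q₀ * q * P : ℕ) : ℤ) := by push_cast; ring
    rw [h2]
    exact h1)
  have hQV : ∀ r ∈ R, ((Q₀ * q : ℕ) : ℤ) ∣ V r := by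
    intro r hr
    refine dvd_trans ?_ (hVd r hr).1
    exact_mod_cast (dvd_mul_right (Q₀ * q) P)
  obtain ⟨ρ, hρ⟩ := MO_rep Q₀ q hcop
  have hcp : ∀ γ z v, IsCoprime (o γ + ρ z v) ((Q₀ * q : ℕ) : ℤ) := by
    intro γ z v
    have h1 := MO_unit Q₀ (ρ z v) z (hρ z v).1
    have h2 := MO_unit q (ρ z v) v (hρ z v).2.1
    have h3 : IsCoprime (ρ z v) ((Q₀ * q : ℕ) : ℤ) := by
      push_cast
      exact h1.mul_right h2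
    obtain ⟨t, ht⟩ := hoQ γ
    rw [ht, add_comm]
    exact h3.add_mul_left_left t
  have hf := fun lam : Fin N' → (ZMod Q₀)ˣ => hS (ZMod q)ˣ X hX1 (fun γ i v => o γ + ρ (lam i) v) (fun γ i v => hcp γ (lam i) v)
  choose f hf1 hf2 hf3 hf4 using hf
  have hWne : Nonempty ((ZMod q)ˣ × Fin (X + S)) := ⟨(1, ⟨0, hXS1⟩)⟩
  have hsumle : ∀ (lam : Fin N' → (ZMod Q₀)ˣ) (γ : Fin G) (i : Fin N'), ∑ ξ, f lam γ i ξ ≤ Fintype.card ((ZMod q)ˣ × Fin (X + S)) := by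
    intro lam γ i
    refine (hf2 lam γ i).trans ?_
    rw [Fintype.card_prod, Fintype.card_fin]
    push_cast
    have h3 : (0 : ℝ) ≤ S := Nat.cast_nonneg _
    exact mul_le_mul_of_nonneg_left (by linarith) (Nat.cast_nonneg _)
  obtain ⟨T, Λ, hT1, hΛ, hav⟩ := hmm (1 / 2 + 32 / 10 ^ 7) (fun lam z => 2 * mean fun γ : Fin G => mean fun ξ => Ac lam (f lam γ) (z, ξ))
    (fun lam z => ⟨mul_nonneg (by norm_num) (PRJ_nonneg fun γ => PRJ_nonneg fun ξ => (Ac_bound lam (f lam γ) (hf1 lam γ) _).1), by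
      have h1 : (mean fun γ : Fin G => mean fun ξ => Ac lam (f lam γ) (z, ξ)) ≤ 1 / 2 := MO_mono_const (by norm_num) fun γ => Ac_mean lam (f lam γ) (hsumle lam γ) z
      linarith⟩)
    (fun lam _ => MO_list hG1 hN' hX1 hXS lam (f lam) δF hδF1 (hf3 lam))
  have hTne : Nonempty (Fin T) := ⟨⟨0, hT1⟩⟩
  have hGne : Nonempty (Fin G) := ⟨⟨0, hG1⟩⟩
  refine ⟨Fin T × Fin G, (ZMod Q₀)ˣ, (ZMod q)ˣ × Fin (X + S), inferInstance, inferInstance, inferInstance, inferInstance, inferInstance, inferInstance,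
    fun φ x => Ac (Λ φ.1) (f (Λ φ.1) φ.2) x, fun r => Equiv.prodCongr (Equiv.refl _) (g r), fun r p => bd r (cc ρ (V r) r.1 r.2 p),
    fun r p => Fm (bd r) (Q₀ * (q * D)) l (cc ρ (V r) r.1 r.2 p), fun r z => om r.1 r.2 Q₀ z.1 z.2,
    fun r z => d r ((r.1 : ℤ) * ((z.1 : ZMod Q₀).val : ℕ) - (r.2 : ℤ) * ((z.2 : ZMod Q₀).val : ℕ)), ?_, ?_, ?_, ?_⟩
  · intro φ x
    exact Ac_bound _ _ (hf1 _ _) _
  · intro φ z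
    exact Ac_mean _ _ (hsumle _ _) z
  · intro z
    have h1 := hav z
    rw [PRJ_mul] at h1
    rw [MO_prod]
    have h2 : (mean fun x : Fin T => mean fun y : Fin G => mean fun w => Ac (Λ x) (f (Λ x) y) (z, w)) ≥ 1 / 4 + 3 / 2000000 := by linarith
    exact h2
  · intro r hr
    obtain ⟨hra, hrb, hrab, hrne, -⟩ := hR r hr
    obtain ⟨hd1, hd2, hd3, hd4, hd5, hd6⟩ := hVd r hr
    obtain ⟨hrm1, hrm2⟩ := hm r hr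
    have hom := fun z : (ZMod Q₀)ˣ × (ZMod Q₀)ˣ => (hCRA Q₀ r.1 r.2 hra hrb hrab (h2ab r hr) z.1 z.2).2
    refine ⟨fun p => bd_bound _ _, fun p => Fm_bound _ (bd_bound r) _ _ _, hom, fun z => hd2 _, ?_, ?_, ?_, ?_⟩
    · -- the correlation
      rw [MO_prod]
      refine MO_mono_const he.le fun τ => ?_
      dsimp only
      have h1 : ∀ γ : Fin G, (mean fun p : Pl Q₀ q (X + S) × Pl Q₀ q (X + S) => Ac (Λ τ) (f (Λ τ) (g r γ)) p.1 * Ac (Λ τ) (f (Λ τ) γ) p.2 * bd r (cc ρ (V r) r.1 r.2 p)) ≤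
          δF + (if ¬ (g r γ ≠ γ ∧ r.1 * w (g r γ) = r.2 * w γ ∧ (r.1 : ℤ) * o (g r γ) - r.2 * o γ = V r) then 1 else 0) := by
        intro γ
        by_cases hγ : g r γ ≠ γ ∧ r.1 * w (g r γ) = r.2 * w γ ∧ (r.1 : ℤ) * o (g r γ) - r.2 * o γ = V r
        · rw [if_neg (not_not.2 hγ), add_zero]
          exact MO_corr r hrb hrab hrne ρ (V r) w o hw1 (Λ τ) (f (Λ τ)) δF hδF0.le hXS1 (fun γ i ξ => (hf1 _ _ _ _).1) (hf4 (Λ τ)) γ (g r γ) hγ.1 hγ.2.1 hγ.2.2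
        · rw [if_pos hγ]
          refine (MO_mono_const zero_le_one fun p => ?_).trans (by linarith)
          have a1 := Ac_bound (Λ τ) (f (Λ τ) (g r γ)) (hf1 _ _) p.1
          have a2 := Ac_bound (Λ τ) (f (Λ τ) γ) (hf1 _ _) p.2
          have a3 := bd_bound r (cc ρ (V r) r.1 r.2 p)
          calc Ac (Λ τ) (f (Λ τ) (g r γ)) p.1 * Ac (Λ τ) (f (Λ τ) γ) p.2 * bd r (cc ρ (V r) r.1 r.2 p) ≤ 1 * 1 :=
                mul_le_mul (mul_le_one₀ a1.2 a2.1 a2.2) a3.2 a3.1 zero_le_one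
            _ = 1 := one_mul 1
      refine (PRJ_mono h1).trans ?_
      rw [PRJ_add, PRJ_const]
      have h2 := ho r hr
      have h3 : (mean fun γ : Fin G => (if ¬ (g r γ ≠ γ ∧ r.1 * w (g r γ) = r.2 * w γ ∧ (r.1 : ℤ) * o (g r γ) - r.2 * o γ = V r) then (1 : ℝ) else 0)) ≤ e / 2 := by
        unfold mean
        rw [Finset.sum_boole, Fintype.card_fin, div_le_iff₀ (by exact_mod_cast hG1)]
        exact h2
      linarith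
    · exact MO_law hLAW r m Q₀ q y (X + S) (Q₀ * (q * D)) l ρ (V r) (d r) e ε₁ he hε₁0.le hra hrb hrab hrm1 hrm2 (h2ab r hr) hcop hy2 hqy hXS1 hρ (hQV r hr) hd2 hd3 hye hε₁b hd6
    · exact MO_omd hOMD r m Q₀ (d r) ε ε₁ hra hrb hrab hrm1 hrm2 (h2ab r hr) hd2 hd3 (MO_d0 hADC r Q₀ hra hrb hrab (h2ab r hr) (d r) hd4) hε.le hε₁a hd5
    · intro r' hr' hrr
      obtain ⟨hra', hrb', hrab', hrne', -⟩ := hR r' hr'
      obtain ⟨hrm1', hrm2'⟩ := hm r' hr'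
      have h0 : (r.1 : ℤ) * r'.2 - r'.1 * r.2 ≠ 0 := by
        intro h
        obtain ⟨h6, h7⟩ := EXC_cop _ _ _ _ hra hrab hrab' h
        exact hrr (Prod.ext h6 h7)
      have hdv : ((r.1 : ℤ) * r'.2 - r'.1 * r.2) ∣ (D : ℤ) := by
        rw [hD]
        exact EXC_dvd _ _ _ _ m hrm1 hrm2 hrm1' hrm2' h0
      have hom' := fun z : (ZMod Q₀)ˣ × (ZMod Q₀)ˣ => (hCRA Q₀ r'.1 r'.2 hra' hrb' hrab' (h2ab r' hr') z.1 z.2).2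
      exact MO_ort hORT r r' m D Q₀ q (X + S) l ρ (V r) (V r') (fun z => om r.1 r.2 Q₀ z.1 z.2) (fun z => om r'.1 r'.2 Q₀ z.1 z.2) hrm1 hrm2 hrm1' hrm2' hl1 hXS1 hD0 h0 hdv hom hom' e hXe'

end Pool.Agent.DP
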