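import Pool.Agent.helper5.DP.CORE

/-!
# Project DP (MP_bf63dc_nt): the counting argument with the bound `32/c^4`
-/

set_option autoImplicit false

namespace Pool.Agent.DP

open Finset
open Pool.Agent.FR (mean Eig)

def CORE2_stmt : Prop := ∀ (Φ Ξ ρ : Type) [Fintype Φ] [Fintype Ξ] [Nonempty Φ] [Nonempty Ξ] (R : Finset ρ) (A : Φ → Ξ → ℝ) (g : ρ → Equiv.Perm Φ) (B : ρ → Ξ × Ξ → ℝ) (c δ : ℝ), 0 < c →
  (∀ φ x, 0 ≤ A φ x ∧ A φ x ≤ 1) → (∀ r ∈ R, mean (fun p => B r p ^ 2) ≤ 1) → 0 ≤ δ → δ * #R ≤ 1 → (∀ r ∈ R, ∀ r' ∈ R, r ≠ r' → |mean fun p => B r p * B r' p| ≤ δ) →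
  (∀ r ∈ R, c ≤ |mean fun φ => mean fun p : Ξ × Ξ => A (g r φ) p.1 * A φ p.2 * B r p|) → (#R : ℝ) ≤ 32 / c ^ 4

theorem CO2_sum {α ρ : Type} [Fintype α] (R : Finset ρ) (f : ρ → α → ℝ) : mean (fun x => ∑ r ∈ R, f r x) = ∑ r ∈ R, mean (f r) :=
  Pool.Agent.FR.BES_sum R f

theorem CO2_proj {Ξ : Type} [Fintype Ξ] (n : ℕ) (e : Fin n → Ξ → ℝ) (ho : ∀ i l : Fin n, mean (fun x => e i x * e l x) = if i = l then 1 else 0) (c : Fin n → ℝ) (l : Fin n) :
    mean (fun x => (∑ i, c i * e i x) * e l x) = c l := by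
  have h1 : (fun x => (∑ i, c i * e i x) * e l x) = fun x => ∑ i, c i * (e i x * e l x) := by
    funext x
    rw [Finset.sum_mul]
    exact Finset.sum_congr rfl fun i _ => by ring
  rw [h1, CO2_sum]
  have h2 : ∀ i, mean (fun x => c i * (e i x * e l x)) = if i = l then c i else 0 := by
    intro i
    rw [CORE_mul, ho i l]
    split_ifs <;> simp
  simp_rw [h2]
  rw [Finset.sum_ite_eq']
  simp

theorem CO2_psq {Ξ : Type} [Fintype Ξ] (n : ℕ) (e : Fin n → Ξ → ℝ) (ho : ∀ i l : Fin n, mean (fun x => e i x * e l x) = if i = l then 1 else 0) (c : Fin n → ℝ) :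
    mean (fun x => (∑ i, c i * e i x) ^ 2) = ∑ i, c i ^ 2 := by
  have h1 : (fun x => (∑ i, c i * e i x) ^ 2) = fun x => ∑ l, c l * ((∑ i, c i * e i x) * e l x) := by
    funext x
    rw [sq, Finset.mul_sum]
    exact Finset.sum_congr rfl fun l _ => by ring
  rw [h1, CO2_sum]
  refine Finset.sum_congr rfl fun l _ => ?_
  rw [CORE_mul, CO2_proj n e ho c l]
  ring

/-- Bessel's inequality -/
theorem CO2_bes {Ξ : Type} [Fintype Ξ] (n : ℕ) (e : Fin n → Ξ → ℝ) (ho : ∀ i l : Fin n, mean (fun x => e i x * e l x) = if i = l then 1 else 0) (f : Ξ → ℝ) :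
    ∑ i, mean (fun x => f x * e i x) ^ 2 ≤ mean (fun x => f x ^ 2) := by
  obtain ⟨c, hc⟩ : ∃ c : Fin n → ℝ, c = fun i => mean (fun x => f x * e i x) := ⟨_, rfl⟩
  have h1 : mean (fun x => (f x - ∑ i, c i * e i x) ^ 2) = mean (fun x => f x ^ 2) - 2 * ∑ i, c i ^ 2 + ∑ i, c i ^ 2 := by
    have h2 : (fun x => (f x - ∑ i, c i * e i x) ^ 2) = fun x => (f x ^ 2 - 2 * ∑ i, c i * (f x * e i x)) + (∑ i, c i * e i x) ^ 2 := by
      funext x
      have h3 : ∑ i, c i * (f x * e i x) = f x * ∑ i, c i * e i x := by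
        rw [Finset.mul_sum]
        exact Finset.sum_congr rfl fun i _ => by ring
      rw [h3]
      ring
    rw [h2, CORE_add, CORE_sub, CO2_psq n e ho c, CORE_mul, CO2_sum]
    congr 2
    congr 1
    refine Finset.sum_congr rfl fun i _ => ?_
    rw [CORE_mul, hc]
    ring
  have h2 : 0 ≤ mean (fun x => (f x - ∑ i, c i * e i x) ^ 2) := CORE_nonneg fun x => sq_nonneg _
  rw [h1, hc] at h2
  linarith

theorem CO2_card {Φ Ξ : Type} [Fintype Φ] [Fintype Ξ] [Nonempty Φ] [Nonempty Ξ] (A : Φ → Ξ → ℝ) (hA : ∀ φ x, 0 ≤ A φ x ∧ A φ x ≤ 1) (n : ℕ) (e : Fin n → Ξ → ℝ)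
    (ho : ∀ i l : Fin n, mean (fun x => e i x * e l x) = if i = l then 1 else 0) : ∑ i, (mean fun φ => mean (fun x => A φ x * e i x) ^ 2) ≤ 1 := by
  rw [← CO2_sum]
  refine CORE_le fun φ => (CO2_bes n e ho (A φ)).trans (CORE_le fun x => ?_)
  exact pow_le_one₀ (hA φ x).1 (hA φ x).2

/-- a maximal orthonormal system -/
theorem CO2_sel {Φ Ξ : Type} [Fintype Φ] [Fintype Ξ] [Nonempty Φ] [Nonempty Ξ] (A : Φ → Ξ → ℝ) (hA : ∀ φ x, 0 ≤ A φ x ∧ A φ x ≤ 1) (κ : ℝ) (hκ : 0 < κ) :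
    ∃ (n : ℕ) (e : Fin n → Ξ → ℝ), (n : ℝ) * κ ≤ 1 ∧ (∀ i l : Fin n, mean (fun x => e i x * e l x) = if i = l then 1 else 0) ∧
      ∀ h : Ξ → ℝ, (∀ i, mean (fun x => h x * e i x) = 0) → (mean fun φ => mean (fun x => A φ x * h x) ^ 2) ≤ κ * mean (fun x => h x ^ 2) := by
  classical
  obtain ⟨P, hP⟩ : ∃ P : ℕ → Prop, P = fun n => ∃ e : Fin n → Ξ → ℝ, (∀ i l : Fin n, mean (fun x => e i x * e l x) = if i = l then 1 else 0) ∧
      ∀ i, κ ≤ mean fun φ => mean (fun x => A φ x * e i x) ^ 2 := ⟨_, rfl⟩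
  have hbd : ∀ n, P n → (n : ℝ) * κ ≤ 1 := by
    intro n hn
    rw [hP] at hn
    obtain ⟨e, ho, he⟩ := hn
    calc (n : ℝ) * κ = ∑ _i : Fin n, κ := by rw [Finset.sum_const, Finset.card_univ, Fintype.card_fin, nsmul_eq_mul]
      _ ≤ ∑ i, (mean fun φ => mean (fun x => A φ x * e i x) ^ 2) := Finset.sum_le_sum fun i _ => he i
      _ ≤ 1 := CO2_card A hA n e ho
  have hbd2 : ∀ n, P n → n ≤ ⌊1 / κ⌋₊ := by
    intro n hn
    refine Nat.le_floor ?_
    rw [le_div_iff₀ hκ]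
    exact hbd n hn
  have hP0 : P 0 := by
    rw [hP]
    exact ⟨fun i => i.elim0, fun i => i.elim0, fun i => i.elim0⟩
  obtain ⟨n, hn⟩ : ∃ n : ℕ, n = Nat.findGreatest P ⌊1 / κ⌋₊ := ⟨_, rfl⟩
  have hPn : P n := by
    rw [hn]
    exact Nat.findGreatest_spec (Nat.zero_le _) hP0
  have hPn1 : ¬ P (n + 1) := by
    intro h
    have h1 := hbd2 _ h
    exact Nat.findGreatest_is_greatest (P := P) (n := ⌊1 / κ⌋₊) (k := n + 1) (by omega) h1 h
  have hnκ := hbd n hPn
  have hPn2 := hPn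
  rw [hP] at hPn2
  obtain ⟨e, ho, he⟩ := hPn2
  refine ⟨n, e, hnκ, ho, fun h hh => ?_⟩
  by_contra hcon
  push Not at hcon
  apply hPn1
  have hs0 : 0 < mean (fun x => h x ^ 2) := by
    by_contra hz
    have h0 : mean (fun x => h x ^ 2) = 0 := le_antisymm (not_lt.1 hz) (CORE_nonneg fun x => sq_nonneg _)
    rw [h0, mul_zero] at hcon
    have h1 : (mean fun φ => mean (fun x => A φ x * h x) ^ 2) ≤ 0 := by
      refine CORE_le fun φ => ?_
      have h2 := CORE_cs (A φ) h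
      rw [h0, mul_zero] at h2
      exact h2
    linarith
  obtain ⟨s, hs⟩ : ∃ s : ℝ, s = √(mean (fun x => h x ^ 2)) := ⟨_, rfl⟩
  have hspos : 0 < s := by
    rw [hs]
    exact Real.sqrt_pos.2 hs0
  have hss : s ^ 2 = mean (fun x => h x ^ 2) := by
    rw [hs]
    exact Real.sq_sqrt hs0.le
  rw [hP]
  refine ⟨Fin.cons (fun x => h x / s) e, ?_, ?_⟩
  · intro i l
    have e1 : ∀ i : Fin n, mean (fun x => e i x * (h x / s)) = 0 := by
      intro i
      have h1 : (fun x => e i x * (h x / s)) = fun x => (1 / s) * (h x * e i x) := by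
        funext x
        ring
      rw [h1, CORE_mul, hh i, mul_zero]
    refine Fin.cases ?_ (fun i => ?_) i
    · refine Fin.cases ?_ (fun l => ?_) l
      · simp only [Fin.cons_zero, if_true]
        have h1 : (fun x => h x / s * (h x / s)) = fun x => (1 / s ^ 2) * (h x ^ 2) := by
          funext x
          field_simp
        rw [h1, CORE_mul, ← hss]
        field_simp
      · simp only [Fin.cons_zero, Fin.cons_succ]
        rw [if_neg (Fin.succ_ne_zero l).symm]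
        have h1 : (fun x => h x / s * e l x) = fun x => e l x * (h x / s) := by
          funext x
          ring
        rw [h1, e1]
    · refine Fin.cases ?_ (fun l => ?_) l
      · simp only [Fin.cons_zero, Fin.cons_succ]
        rw [if_neg (Fin.succ_ne_zero i), e1]
      · simp only [Fin.cons_succ, Fin.succ_inj]
        exact ho i l
  · intro i
    refine Fin.cases ?_ (fun i => ?_) i
    · simp only [Fin.cons_zero]
      have h1 : ∀ φ, mean (fun x => A φ x * (h x / s)) ^ 2 = (1 / s ^ 2) * mean (fun x => A φ x * h x) ^ 2 := by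
        intro φ
        have h2 : (fun x => A φ x * (h x / s)) = fun x => (1 / s) * (A φ x * h x) := by
          funext x
          ring
        rw [h2, CORE_mul]
        ring
      simp_rw [h1]
      rw [CORE_mul]
      have h3 : κ * s ^ 2 ≤ mean fun φ => mean (fun x => A φ x * h x) ^ 2 := by
        rw [hss]
        exact hcon.le
      rw [one_div, ← div_eq_inv_mul, le_div_iff₀ (by positivity)]
      exact h3
    · simp only [Fin.cons_succ]
      exact he i

/-- the part orthogonal to the system -/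
theorem CO2_q {Φ Ξ : Type} [Fintype Φ] [Fintype Ξ] [Nonempty Φ] [Nonempty Ξ] (A : Φ → Ξ → ℝ) (hA : ∀ φ x, 0 ≤ A φ x ∧ A φ x ≤ 1) (κ : ℝ) (hκ : 0 < κ) (n : ℕ) (e : Fin n → Ξ → ℝ)
    (ho : ∀ i l : Fin n, mean (fun x => e i x * e l x) = if i = l then 1 else 0)
    (hK : ∀ h : Ξ → ℝ, (∀ i, mean (fun x => h x * e i x) = 0) → (mean fun φ => mean (fun x => A φ x * h x) ^ 2) ≤ κ * mean (fun x => h x ^ 2)) (g : Equiv.Perm Φ) (q : Φ → Ξ → ℝ)
    (hq : ∀ φ x, q φ x = A φ x - ∑ i, mean (fun x => A φ x * e i x) * e i x) :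
    mean (fun p : Ξ × Ξ => (mean fun φ => q (g φ) p.1 * A φ p.2) ^ 2) ≤ κ := by
  have hqe : ∀ φ i, mean (fun x => q φ x * e i x) = 0 := by
    intro φ i
    have h1 : (fun x => q φ x * e i x) = fun x => A φ x * e i x - (∑ l, mean (fun x => A φ x * e l x) * e l x) * e i x := by
      funext x
      rw [hq]
      ring
    rw [h1, CORE_sub, CO2_proj n e ho _ i, sub_self]
  obtain ⟨N, hN⟩ : ∃ N : Ξ → Ξ → ℝ, N = fun x y => mean fun φ => q (g φ) x * A φ y := ⟨_, rfl⟩
  obtain ⟨S, hS⟩ : ∃ S : ℝ, S = mean fun y => mean fun x => N x y ^ 2 := ⟨_, rfl⟩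
  have hSe : mean (fun p : Ξ × Ξ => (mean fun φ => q (g φ) p.1 * A φ p.2) ^ 2) = S := by
    rw [hS, CORE_prod, CORE_swap, hN]
  rw [hSe]
  have hS0 : 0 ≤ S := by
    rw [hS]
    exact CORE_nonneg fun y => CORE_nonneg fun x => sq_nonneg _
  have hNe : ∀ y i, mean (fun x => N x y * e i x) = 0 := by
    intro y i
    have h1 : (fun x => N x y * e i x) = fun x => mean fun φ => A φ y * (q (g φ) x * e i x) := by
      funext x
      rw [hN]
      dsimp only
      rw [mul_comm, ← CORE_mul]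
      congr 1
      funext φ
      ring
    rw [h1, CORE_swap]
    have h2 : ∀ φ, mean (fun x => A φ y * (q (g φ) x * e i x)) = 0 := by
      intro φ
      rw [CORE_mul, hqe, mul_zero]
    simp_rw [h2]
    exact CORE_const 0
  have hNq : ∀ y φ, mean (fun x => N x y * q φ x) = mean (fun x => A φ x * N x y) := by
    intro y φ
    have h1 : (fun x => N x y * q φ x) = fun x => A φ x * N x y - ∑ i, mean (fun x => A φ x * e i x) * (N x y * e i x) := by
      funext x
      rw [hq]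
      have h2 : ∑ i, mean (fun x => A φ x * e i x) * (N x y * e i x) = N x y * ∑ i, mean (fun x => A φ x * e i x) * e i x := by
        rw [Finset.mul_sum]
        exact Finset.sum_congr rfl fun i _ => by ring
      rw [h2]
      ring
    rw [h1, CORE_sub, CO2_sum]
    have h3 : ∀ i, mean (fun x => mean (fun x => A φ x * e i x) * (N x y * e i x)) = 0 := by
      intro i
      rw [CORE_mul, hNe, mul_zero]
    simp_rw [h3]
    simp
  -- S as a mean over `y` and `φ`
  have hS2 : S = mean fun z : Ξ × Φ => A z.2 z.1 * mean (fun x => N x z.1 * q (g z.2) x) := by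
    rw [hS, CORE_prod]
    congr 1
    funext y
    have h1 : (fun x => N x y ^ 2) = fun x => mean fun φ => A φ y * (N x y * q (g φ) x) := by
      funext x
      rw [sq]
      nth_rw 2 [hN]
      dsimp only
      rw [← CORE_mul]
      congr 1
      funext φ
      ring
    rw [h1, CORE_swap]
    congr 1
    funext φ
    exact CORE_mul _ _
  have h1 := CORE_cs (fun z : Ξ × Φ => A z.2 z.1) (fun z : Ξ × Φ => mean (fun x => N x z.1 * q (g z.2) x))
  rw [← hS2] at h1
  have h2 : mean (fun z : Ξ × Φ => A z.2 z.1 ^ 2) ≤ 1 := CORE_le fun z => pow_le_one₀ (hA _ _).1 (hA _ _).2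
  have h3 : mean (fun z : Ξ × Φ => mean (fun x => N x z.1 * q (g z.2) x) ^ 2) ≤ κ * S := by
    rw [CORE_prod, hS, ← CORE_mul]
    refine CORE_mono fun y => ?_
    dsimp only
    have h4 : (fun φ => mean (fun x => N x y * q (g φ) x) ^ 2) = fun φ => (fun φ => mean (fun x => A φ x * N x y) ^ 2) (g φ) := by
      funext φ
      rw [hNq]
    rw [h4, CORE_equiv g (fun φ => mean (fun x => A φ x * N x y) ^ 2)]
    exact hK (fun x => N x y) (hNe y)
  have h5 : S ^ 2 ≤ κ * S := by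
    calc S ^ 2 ≤ mean (fun z : Ξ × Φ => A z.2 z.1 ^ 2) * mean (fun z : Ξ × Φ => mean (fun x => N x z.1 * q (g z.2) x) ^ 2) := h1
      _ ≤ 1 * (κ * S) := mul_le_mul h2 h3 (CORE_nonneg fun z => sq_nonneg _) zero_le_one
      _ = κ * S := one_mul _
  rcases eq_or_lt_of_le hS0 with h6 | h6
  · rw [← h6]
    exact hκ.le
  · rw [sq] at h5
    exact le_of_mul_le_mul_right h5 h6

/-- **Row CORE2** -/
theorem CORE2 : CORE2_stmt := by
  classical
  intro Φ Ξ ρ _ _ _ _ R A g B c δ hc hA hB hδ hδR hBB hlow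
  obtain ⟨κ, hκ⟩ : ∃ κ : ℝ, κ = c ^ 2 / 4 := ⟨_, rfl⟩
  have hκ0 : 0 < κ := by
    rw [hκ]
    positivity
  obtain ⟨n, e, hn, ho, hK⟩ := CO2_sel A hA κ hκ0
  obtain ⟨co, hco⟩ : ∃ co : Fin n → Φ → ℝ, co = fun i φ => mean (fun x => A φ x * e i x) := ⟨_, rfl⟩
  obtain ⟨q, hq⟩ : ∃ q : Φ → Ξ → ℝ, q = fun φ x => A φ x - ∑ i, co i φ * e i x := ⟨_, rfl⟩
  obtain ⟨lam, hlam⟩ : ∃ lam : Fin n → ℝ, lam = fun i => mean fun φ => co i φ ^ 2 := ⟨_, rfl⟩
  have hlam0 : ∀ i, 0 ≤ lam i := by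
    intro i
    rw [hlam]
    exact CORE_nonneg fun φ => sq_nonneg _
  have hlam1 : ∑ i, lam i ≤ 1 := by
    rw [hlam, hco]
    exact CO2_card A hA n e ho
  obtain ⟨be, hbe⟩ : ∃ be : ρ → Fin n → Φ → ℝ, be = fun r i φ => mean fun p : Ξ × Ξ => e i p.1 * A φ p.2 * B r p := ⟨_, rfl⟩
  obtain ⟨H, hH⟩ : ∃ H : ρ → ℝ, H = fun r => ∑ i, lam i * mean fun φ => be r i φ ^ 2 := ⟨_, rfl⟩
  -- the sum over `r`
  have hHsum : ∑ r ∈ R, H r ≤ 2 := by
    rw [hH]
    rw [Finset.sum_comm]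
    calc ∑ i, ∑ r ∈ R, lam i * (mean fun φ => be r i φ ^ 2) = ∑ i, lam i * mean (fun φ => ∑ r ∈ R, be r i φ ^ 2) := by
          refine Finset.sum_congr rfl fun i _ => ?_
          rw [CO2_sum, Finset.mul_sum]
      _ ≤ ∑ i, lam i * 2 := by
          refine Finset.sum_le_sum fun i _ => mul_le_mul_of_nonneg_left (CORE_le fun φ => ?_) (hlam0 i)
          rw [hbe]
          refine Pool.Agent.FR.BES (Ξ × Ξ) ρ R B (fun p => e i p.1 * A φ p.2) δ hδ hδR ?_ hB hBB
          have h1 : (fun p : Ξ × Ξ => (e i p.1 * A φ p.2) ^ 2) = fun p : Ξ × Ξ => (e i p.1 * e i p.1) * (A φ p.2 ^ 2) := by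
            funext p
            ring
          rw [h1, CORE_prod]
          dsimp only
          have h2 : ∀ x, mean (fun y => e i x * e i x * A φ y ^ 2) = mean (fun y => A φ y ^ 2) * (e i x * e i x) := by
            intro x
            rw [CORE_mul, mul_comm]
          simp_rw [h2]
          rw [CORE_mul, ho i i, if_pos rfl, mul_one]
          exact CORE_le fun y => pow_le_one₀ (hA φ y).1 (hA φ y).2
      _ = (∑ i, lam i) * 2 := by rw [Finset.sum_mul]
      _ ≤ 2 := by linarith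
  have hHr : ∀ r ∈ R, c ^ 2 / 4 ≤ n * H r := by
    intro r hr
    have h1 := hlow r hr
    -- the decomposition
    have h2 : (mean fun φ => mean fun p : Ξ × Ξ => A (g r φ) p.1 * A φ p.2 * B r p) =
        mean (fun p : Ξ × Ξ => (mean fun φ => q (g r φ) p.1 * A φ p.2) * B r p) + ∑ i, mean fun φ => co i (g r φ) * be r i φ := by
      have h3 : ∀ φ, (mean fun p : Ξ × Ξ => A (g r φ) p.1 * A φ p.2 * B r p) =
          (mean fun p : Ξ × Ξ => q (g r φ) p.1 * A φ p.2 * B r p) + ∑ i, co i (g r φ) * be r i φ := by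
        intro φ
        have h4 : (fun p : Ξ × Ξ => A (g r φ) p.1 * A φ p.2 * B r p) =
            fun p : Ξ × Ξ => q (g r φ) p.1 * A φ p.2 * B r p + ∑ i, co i (g r φ) * (e i p.1 * A φ p.2 * B r p) := by
          funext p
          have h5 : ∑ i, co i (g r φ) * (e i p.1 * A φ p.2 * B r p) = (∑ i, co i (g r φ) * e i p.1) * (A φ p.2 * B r p) := by
            rw [Finset.sum_mul]
            exact Finset.sum_congr rfl fun i _ => by ring
          rw [h5, hq]
          ring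
        rw [h4, CORE_add, CO2_sum]
        congr 1
        refine Finset.sum_congr rfl fun i _ => ?_
        rw [CORE_mul, hbe]
      simp_rw [h3]
      rw [CORE_add, CO2_sum]
      congr 1
      rw [CORE_swap]
      congr 1
      funext p
      rw [mul_comm, ← CORE_mul]
      congr 1
      funext φ
      ring
    have h6 : |mean (fun p : Ξ × Ξ => (mean fun φ => q (g r φ) p.1 * A φ p.2) * B r p)| ≤ c / 2 := by
      have h7 := CORE_cs (fun p : Ξ × Ξ => mean fun φ => q (g r φ) p.1 * A φ p.2) (B r)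
      have h8 := CO2_q A hA κ hκ0 n e ho hK (g r) q (fun φ x => by rw [hq, hco])
      have h9 : mean (fun p : Ξ × Ξ => (mean fun φ => q (g r φ) p.1 * A φ p.2) * B r p) ^ 2 ≤ (c / 2) ^ 2 := by
        calc _ ≤ mean (fun p : Ξ × Ξ => (mean fun φ => q (g r φ) p.1 * A φ p.2) ^ 2) * mean (fun p => B r p ^ 2) := h7
          _ ≤ κ * 1 := mul_le_mul h8 (hB r hr) (CORE_nonneg fun p => sq_nonneg _) hκ0.le
          _ = (c / 2) ^ 2 := by rw [hκ]; ring
      exact abs_le_of_sq_le_sq h9 (by linarith)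
    have h10 : (∑ i, mean fun φ => co i (g r φ) * be r i φ) ^ 2 ≤ n * H r := by
      calc (∑ i, mean fun φ => co i (g r φ) * be r i φ) ^ 2 ≤ n * ∑ i, (mean fun φ => co i (g r φ) * be r i φ) ^ 2 := by
            have h11 := sq_sum_le_card_mul_sum_sq (s := (Finset.univ : Finset (Fin n))) (f := fun i => mean fun φ => co i (g r φ) * be r i φ)
            rw [Finset.card_univ, Fintype.card_fin] at h11
            exact h11
        _ ≤ n * H r := by
            refine mul_le_mul_of_nonneg_left ?_ (Nat.cast_nonneg _)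
            rw [hH]
            refine Finset.sum_le_sum fun i _ => ?_
            have h12 := CORE_cs (fun φ => co i (g r φ)) (fun φ => be r i φ)
            rw [CORE_equiv (g r) (fun φ => co i φ ^ 2)] at h12
            rw [hlam]
            exact h12
    obtain ⟨u, hu⟩ : ∃ u : ℝ, u = ∑ i, mean fun φ => co i (g r φ) * be r i φ := ⟨_, rfl⟩
    rw [h2, ← hu] at h1
    rw [← hu] at h10
    have h13 : c / 2 ≤ |u| := by
      have h14 := abs_add_le (mean (fun p : Ξ × Ξ => (mean fun φ => q (g r φ) p.1 * A φ p.2) * B r p)) u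
      linarith
    have h15 : (c / 2) ^ 2 ≤ u ^ 2 := by
      rw [← sq_abs u]
      exact pow_le_pow_left₀ (by linarith) h13 2
    calc c ^ 2 / 4 = (c / 2) ^ 2 := by ring
      _ ≤ u ^ 2 := h15
      _ ≤ n * H r := h10
  have h20 : (#R : ℝ) * (c ^ 2 / 4) ≤ 2 * n := by
    calc (#R : ℝ) * (c ^ 2 / 4) = ∑ _r ∈ R, c ^ 2 / 4 := by rw [Finset.sum_const, nsmul_eq_mul]
      _ ≤ ∑ r ∈ R, n * H r := Finset.sum_le_sum hHr
      _ = n * ∑ r ∈ R, H r := by rw [Finset.mul_sum]
      _ ≤ n * 2 := mul_le_mul_of_nonneg_left hHsum (Nat.cast_nonneg _)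
      _ = 2 * n := by ring
  have h21 : (n : ℝ) * (c ^ 2 / 4) ≤ 1 := by rw [← hκ]; exact hn
  rw [le_div_iff₀ (by positivity)]
  have h22 : 0 < c ^ 2 / 4 := by positivity
  have h23 : (#R : ℝ) * (c ^ 2 / 4) * (c ^ 2 / 4) ≤ 2 := by
    calc (#R : ℝ) * (c ^ 2 / 4) * (c ^ 2 / 4) ≤ 2 * n * (c ^ 2 / 4) := mul_le_mul_of_nonneg_right h20 h22.le
      _ = 2 * (n * (c ^ 2 / 4)) := by ring
      _ ≤ 2 * 1 := mul_le_mul_of_nonneg_left h21 (by norm_num)
      _ = 2 := by norm_num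
  nlinarith

end Pool.Agent.DP
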