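import Pool.Agent.helper76.DP.MOD2
import Pool.Agent.helper76.DP.CORE2

/-!
# Project DP (MP_bf63dc_nt): at most `10^28/ε^2` exceptions
-/

set_option autoImplicit false

namespace Pool.Agent.DP

open Finset
open Pool.Agent.FR (mean Eig PRJ_add PRJ_sub PRJ_mul PRJ_sum PRJ_mono PRJ_nonneg PRJ_const PRJ_abs PRJ_le_const)
open Pool.Agent.HF (Om TC NoTC)
open Pool.Agent.IT (Ad)

theorem EN2_z {Z W : Type} [Fintype Z] [Fintype W] [Nonempty W] (F : Z × Z → ℝ) : (mean fun p : (Z × W) × (Z × W) => F (p.1.1, p.2.1)) = mean F := by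
  rw [MO_four]
  congr 1
  funext z
  exact PRJ_const (α := W × W) (F z)

/-- the mean of `B^2` -/
theorem EN2_sq {Z W : Type} [Fintype Z] [Fintype W] [Nonempty Z] [Nonempty W] (Y β : (Z × W) × (Z × W) → ℝ) (ω d : Z × Z → ℝ) (e : ℝ) (hY : ∀ p, 0 ≤ Y p ∧ Y p ≤ 1) (hβ : ∀ p, 0 ≤ β p ∧ β p ≤ 1)
    (hω : ∀ z, 0 ≤ ω z ∧ ω z ≤ 2) (h1 : (mean fun p : (Z × W) × (Z × W) => ω (p.1.1, p.2.1) * Y p) ≤ (mean fun p : (Z × W) × (Z × W) => ω (p.1.1, p.2.1) * β p) + e)
    (h2 : (mean fun p : (Z × W) × (Z × W) => ω (p.1.1, p.2.1) * |β p - d (p.1.1, p.2.1)|) ≤ e) :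
    (mean fun p : (Z × W) × (Z × W) => (ω (p.1.1, p.2.1) * (β p - Y p)) ^ 2) ≤ 4 * (mean fun z => ω z * d z) + 6 * e := by
  have h3 : (mean fun p : (Z × W) × (Z × W) => ω (p.1.1, p.2.1) * β p) ≤ (mean fun z => ω z * d z) + e := by
    have h4 : (mean fun p : (Z × W) × (Z × W) => ω (p.1.1, p.2.1) * β p) ≤
        mean fun p : (Z × W) × (Z × W) => ω (p.1.1, p.2.1) * d (p.1.1, p.2.1) + ω (p.1.1, p.2.1) * |β p - d (p.1.1, p.2.1)| := by
      refine PRJ_mono fun p => ?_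
      rw [← mul_add]
      refine mul_le_mul_of_nonneg_left ?_ (hω _).1
      have := le_abs_self (β p - d (p.1.1, p.2.1))
      linarith
    rw [PRJ_add] at h4
    have h5 := EN2_z (Z := Z) (W := W) (fun z => ω z * d z)
    rw [h5] at h4
    linarith
  have h6 : (mean fun p : (Z × W) × (Z × W) => (ω (p.1.1, p.2.1) * (β p - Y p)) ^ 2) ≤
      mean fun p : (Z × W) × (Z × W) => 2 * (ω (p.1.1, p.2.1) * β p + ω (p.1.1, p.2.1) * Y p) := by
    refine PRJ_mono fun p => ?_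
    obtain ⟨w0, w1⟩ := hω (p.1.1, p.2.1)
    obtain ⟨y0, y1⟩ := hY p
    obtain ⟨b0, b1⟩ := hβ p
    have h7 : (β p - Y p) ^ 2 ≤ β p + Y p := by nlinarith
    have h8 : ω (p.1.1, p.2.1) ^ 2 ≤ 2 * ω (p.1.1, p.2.1) := by nlinarith
    calc (ω (p.1.1, p.2.1) * (β p - Y p)) ^ 2 = ω (p.1.1, p.2.1) ^ 2 * (β p - Y p) ^ 2 := by ring
      _ ≤ (2 * ω (p.1.1, p.2.1)) * (β p + Y p) := mul_le_mul h8 h7 (sq_nonneg _) (by linarith)
      _ = 2 * (ω (p.1.1, p.2.1) * β p + ω (p.1.1, p.2.1) * Y p) := by ring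
  rw [PRJ_mul, PRJ_add] at h6
  linarith

theorem EN2_div {α : Type} [Fintype α] (f : α → ℝ) (k : ℝ) : (mean fun x => f x / k) = mean f / k := by
  unfold mean
  rw [← Finset.sum_div, div_right_comm]

theorem ENG2 (hCORE : CORE2_stmt) (hLOWC : LOWC_stmt) {ρ : Type} (R : Finset ρ) (ε : ℝ) (hε : 0 < ε) (_hε1 : ε ≤ 1) (hdata : ∀ e : ℝ, 0 < e → Data2 R ε e) :
    (#R : ℝ) ≤ 4 * 10 ^ 27 / ε ^ 2 := by
  have hR1 : (0 : ℝ) < (#R : ℝ) + 1 := by positivity
  obtain ⟨e, he0, he1, he2⟩ : ∃ e : ℝ, 0 < e ∧ e ≤ 5 * ε / 10 ^ 8 ∧ e ≤ ε / ((#R : ℝ) + 1) :=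
    ⟨min (5 * ε / 10 ^ 8) (ε / ((#R : ℝ) + 1)), lt_min (by positivity) (by positivity), min_le_left _ _, min_le_right _ _⟩
  obtain ⟨Φ, Z, W, iΦ, iZ, iW, nΦ, nZ, nW, A, g, Y, β, ω, d, hA, hA2, hA4, hr⟩ := hdata e he0
  obtain ⟨s, hs⟩ : ∃ s : ρ → ℝ, s = fun r => mean fun z => ω r z * d r z := ⟨_, rfl⟩
  obtain ⟨t, ht⟩ : ∃ t : ρ → ℝ, t = fun r => √(2 * s r) := ⟨_, rfl⟩
  obtain ⟨u, hu⟩ : ∃ u : ℝ, u = √ε := ⟨_, rfl⟩
  have hu0 : 0 < u := by
    rw [hu]
    exact Real.sqrt_pos.2 hε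
  have huu : u ^ 2 = ε := by
    rw [hu]
    exact Real.sq_sqrt hε.le
  have hsr : ∀ r ∈ R, ε / 2 ≤ s r := by
    intro r hrR
    obtain ⟨-, -, -, -, -, -, -, h7, -⟩ := hr r hrR
    rw [hs]
    exact h7
  have htt : ∀ r ∈ R, t r ^ 2 = 2 * s r := by
    intro r hrR
    rw [ht]
    have := hsr r hrR
    exact Real.sq_sqrt (by linarith)
  have htu : ∀ r ∈ R, u ≤ t r := by
    intro r hrR
    rw [hu, ht]
    have := hsr r hrR
    exact Real.sqrt_le_sqrt (by linarith)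
  have hcore := hCORE Φ (Z × W) ρ R A g (fun r p => ω r (p.1.1, p.2.1) * (β r p - Y r p) / (2 * t r)) (3 * u / 10 ^ 7) (e / ε)
    (by positivity) hA
    (by
      intro r hrR
      obtain ⟨h1, h2, h3, h4, h5, h55, h6, h7, -⟩ := hr r hrR
      have h8 := EN2_sq (Y r) (β r) (ω r) (d r) e h1 h2 h3 h55 h6
      have ht0 : 0 < t r := lt_of_lt_of_le hu0 (htu r hrR)
      have h9 : (mean fun p : (Z × W) × (Z × W) => (ω r (p.1.1, p.2.1) * (β r p - Y r p) / (2 * t r)) ^ 2) =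
          (mean fun p : (Z × W) × (Z × W) => (ω r (p.1.1, p.2.1) * (β r p - Y r p)) ^ 2) / (2 * t r) ^ 2 := by
        rw [← EN2_div]
        congr 1
        funext p
        rw [div_pow]
      rw [h9, div_le_one (by positivity)]
      refine h8.trans ?_
      have h10 : (2 * t r) ^ 2 = 8 * s r := by
        rw [mul_pow, htt r hrR]
        ring
      rw [h10]
      have h11 := hsr r hrR
      have h12 : (mean fun z => ω r z * d r z) = s r := by rw [hs]
      rw [h12]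
      linarith)
    (by positivity)
    (by
      have h1 : e / ε * (#R : ℝ) ≤ 1 / ((#R : ℝ) + 1) * (#R : ℝ) := by
        refine mul_le_mul_of_nonneg_right ?_ (by positivity)
        rw [div_le_iff₀ hε]
        calc e ≤ ε / ((#R : ℝ) + 1) := he2
          _ = 1 / ((#R : ℝ) + 1) * ε := by ring
      have h2 : 1 / ((#R : ℝ) + 1) * (#R : ℝ) ≤ 1 := by
        rw [one_div, inv_mul_le_iff₀ hR1]
        linarith
      exact h1.trans h2)
    (by
      intro r hrR r' hrR' hne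
      obtain ⟨-, -, -, -, -, -, -, -, h7⟩ := hr r hrR
      have h8 := h7 r' hrR' hne
      have ht0 : 0 < t r := lt_of_lt_of_le hu0 (htu r hrR)
      have ht0' : 0 < t r' := lt_of_lt_of_le hu0 (htu r' hrR')
      have h9 : (mean fun p : (Z × W) × (Z × W) => (ω r (p.1.1, p.2.1) * (β r p - Y r p) / (2 * t r)) *
          (ω r' (p.1.1, p.2.1) * (β r' p - Y r' p) / (2 * t r'))) =
          (mean fun p : (Z × W) × (Z × W) => (ω r (p.1.1, p.2.1) * (β r p - Y r p)) *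
            (ω r' (p.1.1, p.2.1) * (β r' p - Y r' p))) / (4 * (t r * t r')) := by
        rw [← EN2_div]
        congr 1
        funext p
        rw [div_mul_div_comm]
        congr 1
        ring
      rw [h9, abs_div, abs_of_pos (by positivity : (0 : ℝ) < 4 * (t r * t r'))]
      have h10 : ε ≤ t r * t r' := by
        rw [← huu, sq]
        exact mul_le_mul (htu r hrR) (htu r' hrR') hu0.le ht0.le
      rw [div_le_div_iff₀ (by positivity) hε]
      calc |mean fun p : (Z × W) × (Z × W) => (ω r (p.1.1, p.2.1) * (β r p - Y r p)) * (ω r' (p.1.1, p.2.1) * (β r' p - Y r' p))| * ε ≤ e * ε :=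
            mul_le_mul_of_nonneg_right h8 hε.le
        _ ≤ e * (4 * (t r * t r')) := mul_le_mul_of_nonneg_left (by linarith) he0.le)
    (by
      intro r hrR
      obtain ⟨h1, h2, h3, h4, h5, h55, h6, h7, -⟩ := hr r hrR
      have h8 := hLOWC Φ Z W A (g r) (Y r) (β r) (ω r) (d r) (3 / 2000000) e (by norm_num) hA hA2 hA4 h1 h2 h3 h4 h5 h6
      have ht0 : 0 < t r := lt_of_lt_of_le hu0 (htu r hrR)
      have h9 : (mean fun φ => mean fun p : (Z × W) × (Z × W) =>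
          A (g r φ) p.1 * A φ p.2 * (ω r (p.1.1, p.2.1) * (β r p - Y r p) / (2 * t r))) =
          (mean fun φ => mean fun p : (Z × W) × (Z × W) => A (g r φ) p.1 * A φ p.2 * (ω r (p.1.1, p.2.1) * (β r p - Y r p))) / (2 * t r) := by
        rw [← EN2_div]
        congr 1
        funext φ
        rw [← EN2_div]
        congr 1
        funext p
        ring
      rw [h9]
      refine le_trans ?_ (le_abs_self _)
      rw [le_div_iff₀ (by positivity)]
      refine le_trans ?_ h8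
      have h12 : (mean fun z => ω r z * d r z) = t r ^ 2 / 2 := by
        rw [htt r hrR, hs]
        ring
      rw [h12]
      have h13 := htu r hrR
      have h14 : u * u ≤ u * t r := mul_le_mul_of_nonneg_left h13 hu0.le
      have h15 : u * t r ≤ t r * t r := mul_le_mul_of_nonneg_right h13 ht0.le
      have h16 : e ≤ 5 * (u * u) / 10 ^ 8 := by
        rw [← sq, huu]
        exact he1
      nlinarith)
  refine hcore.trans ?_
  rw [div_le_div_iff₀ (by positivity) (by positivity)]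
  have h1 : (3 * u / 10 ^ 7) ^ 4 = 81 / 10 ^ 28 * ε ^ 2 := by
    rw [← huu]
    ring
  rw [h1]
  have h2 : 0 < ε ^ 2 := by positivity
  nlinarith

/-- for every `ε` all coprime pairs with at most `10^28/ε^2` exceptions -/
def FINC_stmt : Prop := ∀ ε : ℝ, 0 < ε → ∃ E : Finset (ℕ × ℕ), (#E : ℝ) ≤ 10 ^ 28 / ε ^ 2 ∧ ∀ a b : ℕ, 1 ≤ a → 1 ≤ b → Nat.Coprime a b → (a, b) ∉ E → GoodD ε a b

/-- the exceptional pairs -/
def BadC (ε : ℝ) : Set (ℕ × ℕ) := {r | 1 ≤ r.1 ∧ 1 ≤ r.2 ∧ Nat.Coprime r.1 r.2 ∧ r ≠ (1, 1) ∧ ¬ GoodD ε r.1 r.2}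

theorem FINC (hMOD : MOD2_stmt) (hCORE : CORE2_stmt) (hLOWC : LOWC_stmt) : FINC_stmt := by
  classical
  intro ε hε
  by_cases hε1 : ε ≤ 1
  · obtain ⟨z, hz⟩ : ∃ z : ℝ, z = (10 : ℝ) ^ 27 / ε ^ 2 := ⟨_, rfl⟩
    have hz1 : 1 ≤ z := by
      rw [hz, le_div_iff₀ (by positivity), one_mul]
      exact (pow_le_one₀ hε.le hε1).trans (by norm_num)
    have hcard : ∀ R : Finset (ℕ × ℕ), (R : Set (ℕ × ℕ)) ⊆ BadC ε → (#R : ℝ) ≤ 4 * z := by
      intro R hR
      have h1 := ENG2 hCORE hLOWC R ε hε hε1 fun e he => hMOD R ε hε hε1 (fun r hr => hR (Finset.mem_coe.2 hr)) e he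
      rw [hz]
      refine h1.trans (le_of_eq ?_)
      ring
    have hfin : (BadC ε).Finite := by
      by_contra h
      have h1 : (BadC ε).Infinite := h
      obtain ⟨R, hR, hRc⟩ := h1.exists_subset_card_eq (⌈4 * z⌉₊ + 1)
      have h2 := hcard R hR
      rw [hRc] at h2
      push_cast at h2
      have h3 := Nat.le_ceil (4 * z)
      linarith
    have hc := hcard hfin.toFinset (by rw [Set.Finite.coe_toFinset])
    refine ⟨insert (1, 1) hfin.toFinset, ?_, fun a b ha hb hab hE => ?_⟩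
    · have h1 : (#(insert ((1, 1) : ℕ × ℕ) hfin.toFinset) : ℝ) ≤ (hfin.toFinset.card : ℝ) + 1 := by exact_mod_cast Finset.card_insert_le _ _
      have h2 : (10 : ℝ) ^ 28 / ε ^ 2 = 10 * z := by rw [hz]; ring
      rw [h2]
      linarith
    · by_contra hG
      apply hE
      rw [Finset.mem_insert]
      by_cases h1 : (a, b) = ((1, 1) : ℕ × ℕ)
      · exact Or.inl h1
      · right
        rw [Set.Finite.mem_toFinset]
        exact ⟨ha, hb, hab, h1, hG⟩
  · push Not at hε1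
    refine ⟨∅, ?_, fun a b _ _ _ _ => ⟨0, fun L _ y => ?_⟩⟩
    · simp only [Finset.card_empty, Nat.cast_zero]
      positivity
    · have h1 : (#{k ∈ range L | Ad a b (y + (k : ℕ)) ∧ ¬ TC a b (y + (k : ℕ))} : ℝ) ≤ #{k ∈ range L | Ad a b (y + (k : ℕ))} := by
        have h3 : #{k ∈ range L | Ad a b (y + (k : ℕ)) ∧ ¬ TC a b (y + (k : ℕ))} ≤ #{k ∈ range L | Ad a b (y + (k : ℕ))} := by
          refine Finset.card_le_card fun k hk => ?_
          obtain ⟨hk1, hk2, -⟩ := Finset.mem_filter.1 hk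
          exact Finset.mem_filter.2 ⟨hk1, hk2⟩
        exact_mod_cast h3
      refine h1.trans ?_
      have h2 : (0 : ℝ) ≤ #{k ∈ range L | Ad a b (y + (k : ℕ))} := Nat.cast_nonneg _
      nlinarith

end Pool.Agent.DP
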