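import Pool.Agent.helper76.DP.All
import Pool.Agent.helper76.DP.FINC

/-!
# Project DP (MP_bf63dc_nt): almost all `c` for all but `10^28/ε^2` pairs, or power saving
-/

set_option autoImplicit false

namespace Pool.Agent.DP

open Finset

/-- if no bounded number of integers forces a true difference then almost all `c` are true for all pairs with at most `10^28/ε^2` exceptions -/
theorem finc (hTC : Pool.Agent.HF.NoTC) : FINC_stmt :=
  FINC (MOD2 (REG RGI) Z_LAW (OMD OMA Z_CRL) Z_CRA ADC MMX IDX (Z_FCR hTC) Pool.Agent.FR.ORT) CORE2 LOWC

end Pool.Agent.DP
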