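import Pool.Agent.helper76.DP.Spec

/-!
# Row dp:FINB (MP_bf63dc_nt), spec Pool/Agent/helper76/DP/Spec.lean
-/

set_option autoImplicit false

namespace Pool.Agent.DP

open Finset
open Pool.Agent.HF (Om TC NoTC)
open Pool.Agent.IT (Ad)

/-- the exceptional pairs -/
def BadD (ε : ℝ) : Set (ℕ × ℕ) := {r | 1 ≤ r.1 ∧ 1 ≤ r.2 ∧ Nat.Coprime r.1 r.2 ∧ r ≠ (1, 1) ∧ ¬ GoodD ε r.1 r.2}

theorem FINB (hMOD : MOD_stmt) (hENG : ENG_stmt) : FINB_stmt := by
  classical
  intro ε hε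
  by_cases hε1 : ε ≤ 1
  · obtain ⟨z, hz⟩ : ∃ z : ℝ, z = (10 : ℝ) ^ 128 / ε ^ 18 := ⟨_, rfl⟩
    have hz1 : 1 ≤ z := by
      rw [hz, le_div_iff₀ (by positivity), one_mul]
      exact (pow_le_one₀ hε.le hε1).trans (by norm_num)
    have hcard : ∀ R : Finset (ℕ × ℕ), (R : Set (ℕ × ℕ)) ⊆ BadD ε → (#R : ℝ) ≤ z := by
      intro R hR
      rw [hz]
      exact hENG (ℕ × ℕ) R ε hε hε1 fun e he => hMOD R ε hε hε1 (fun r hr => hR (Finset.mem_coe.2 hr)) e he
    have hfin : (BadD ε).Finite := by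
      by_contra h
      have h1 : (BadD ε).Infinite := h
      obtain ⟨R, hR, hRc⟩ := h1.exists_subset_card_eq (⌈z⌉₊ + 1)
      have h2 := hcard R hR
      rw [hRc] at h2
      push_cast at h2
      have h3 := Nat.le_ceil z
      linarith
    have hc := hcard hfin.toFinset (by rw [Set.Finite.coe_toFinset])
    refine ⟨insert (1, 1) hfin.toFinset, ?_, fun a b ha hb hab hE => ?_⟩
    · have h1 : (#(insert ((1, 1) : ℕ × ℕ) hfin.toFinset) : ℝ) ≤ (hfin.toFinset.card : ℝ) + 1 := by exact_mod_cast Finset.card_insert_le _ _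
      have h2 : (10 : ℝ) ^ 129 / ε ^ 18 = 10 * z := by rw [hz]; ring
      rw [h2]
      linarith
    · by_contra hG
      apply hE
      rw [Finset.mem_insert]
      by_cases h1 : (a, b) = ((1, 1) : ℕ × ℕ)
      · exact Or.inl h1
      · right
        rw [Set.Finite.mem_toFinset]
        exact ⟨ha, hb, hab, h1, hG⟩
  · push Not at hε1
    refine ⟨∅, ?_, fun a b _ _ _ _ => ⟨0, fun L _ y => ?_⟩⟩
    · simp only [Finset.card_empty, Nat.cast_zero]
      positivity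
    · have h1 : (#{k ∈ range L | Ad a b (y + (k : ℕ)) ∧ ¬ TC a b (y + (k : ℕ))} : ℝ) ≤ #{k ∈ range L | Ad a b (y + (k : ℕ))} := by
        have h3 : #{k ∈ range L | Ad a b (y + (k : ℕ)) ∧ ¬ TC a b (y + (k : ℕ))} ≤ #{k ∈ range L | Ad a b (y + (k : ℕ))} := by
          refine Finset.card_le_card fun k hk => ?_
          obtain ⟨hk1, hk2, -⟩ := Finset.mem_filter.1 hk
          exact Finset.mem_filter.2 ⟨hk1, hk2⟩
        exact_mod_cast h3
      refine h1.trans ?_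
      have h2 : (0 : ℝ) ≤ #{k ∈ range L | Ad a b (y + (k : ℕ))} := Nat.cast_nonneg _
      nlinarith

end Pool.Agent.DP
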