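import Pool.Agent.helper76.DP.FCR
import Pool.Agent.helper76.DP.MOD
import Pool.Agent.helper76.DP.FINB
import Pool.Agent.helper18.DP.RGI
import Pool.Agent.helper98.DP.REG
import Pool.Agent.helper69.DP.CRM
import Pool.Agent.helper43.DP.CRP
import Pool.Agent.helper71.DP.CRL
import Pool.Agent.helper16.DP.CRA
import Pool.Agent.helper63.DP.TVL
import Pool.Agent.helper23.DP.OMA
import Pool.Agent.helper30.DP.OMD
import Pool.Agent.helper77.DP.LAW
import Pool.Agent.helper64.DP.ADC
import Pool.Agent.helper65.DP.MMX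
import Pool.Agent.helper38.DP.IDX
import Pool.Agent.helper49.DP.HSI
import Pool.Agent.helper5.DP.CORE
import Pool.Agent.helper73.DP.LOWC
import Pool.Agent.helper51.DP.ENG
import Pool.Agent.helper8.DP.CLX
import Pool.Agent.helper19.HF.FinY

/-!
# Project DP (MP_bf63dc_nt): almost all `c` for all but finitely many pairs, or power saving
-/

set_option autoImplicit false

namespace Pool.Agent.DP

open Finset

theorem Z_CRL : CRL_stmt := CRL CRM CRP

theorem Z_CRA : CRA_stmt := CRA Z_CRL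

theorem Z_LAW : LAW_stmt := LAW Z_CRA (TVL Z_CRL) OMA

theorem Z_FCP : Pool.Agent.DK.FCP_stmt :=
  Pool.Agent.DK.FCP Pool.Agent.HF.CND (Pool.Agent.DK.ENP Pool.Agent.HF.CND) (Pool.Agent.DK.FCA Pool.Agent.HF.CND Pool.Agent.HF.BES) (Pool.Agent.DK.FCM Pool.Agent.HF.CND Pool.Agent.HF.BES)

theorem Z_FCR (hTC : Pool.Agent.HF.NoTC) : FCR_stmt := FCR Pool.Agent.AT.Q_all hTC Z_FCP CLX

/-- if no bounded number of integers forces a true difference then almost all `c` are true for all but finitely many pairs -/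
theorem finb (hTC : Pool.Agent.HF.NoTC) : FINB_stmt :=
  FINB (MOD (REG RGI) Z_LAW (OMD OMA Z_CRL) Z_CRA ADC MMX IDX (Z_FCR hTC) Pool.Agent.FR.ORT) (ENG (CORE HSI) LOWC)

end Pool.Agent.DP
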