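import Pool.Agent.helper76.DP.Spec

/-!
# Row dp:FCR (MP_bf63dc_nt), spec Pool/Agent/helper76/DP/Spec.lean
-/

set_option autoImplicit false

namespace Pool.Agent.DP

open Finset
open Pool.Agent.FR (mean Eig)
open Pool.Agent.AT (Qk Pair)
open Pool.Agent.HF (Om TC NoTC)
open Pool.Agent.IT (Ad)

theorem FCR_push {Ξ : Type} [Fintype Ξ] [DecidableEq Ξ] (R : Finset ℕ) (pos : Fin 2 → ℕ → Ξ) (a : Fin 2 → ℕ → ℝ) (F : Ξ → ℝ) :
    ∑ ξ, (∑ p ∈ R, ∑ t, if pos t p = ξ then a t p else 0) * F ξ = ∑ p ∈ R, ∑ t, a t p * F (pos t p) := by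
  have h1 : ∀ ξ, (∑ p ∈ R, ∑ t, if pos t p = ξ then a t p else 0) * F ξ = ∑ p ∈ R, ∑ t, (if pos t p = ξ then a t p * F ξ else 0) := by
    intro ξ
    rw [sum_mul]
    refine sum_congr rfl fun p _ => ?_
    rw [sum_mul]
    refine sum_congr rfl fun t _ => ?_
    rw [ite_mul, zero_mul]
  simp_rw [h1]
  rw [sum_comm]
  refine sum_congr rfl fun p _ => ?_
  rw [sum_comm]
  refine sum_congr rfl fun t _ => ?_
  rw [sum_ite_eq]
  simp

/-- the type -/
def FCR_be {G N' : ℕ} (γ : Fin G) (i : Fin N') (t : Fin 2) : Fin (G * N' * 2) := finProdFinEquiv (finProdFinEquiv (γ, i), t)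

theorem FCR_div {m n : ℕ} (x : Fin m) (y : Fin n) : (finProdFinEquiv (x, y)).divNat = x :=
  congrArg Prod.fst (finProdFinEquiv.symm_apply_apply (x, y))

theorem FCR_mod {m n : ℕ} (x : Fin m) (y : Fin n) : (finProdFinEquiv (x, y)).modNat = y :=
  congrArg Prod.snd (finProdFinEquiv.symm_apply_apply (x, y))

theorem FCR_be_div {G N' : ℕ} (γ : Fin G) (i : Fin N') (t : Fin 2) : (FCR_be γ i t).divNat = finProdFinEquiv (γ, i) := FCR_div _ _

theorem FCR_be_mod {G N' : ℕ} (γ : Fin G) (i : Fin N') (t : Fin 2) : (FCR_be γ i t).modNat = t := FCR_mod _ _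

theorem FCR_sum {G N' : ℕ} (F : Fin (G * N' * 2) → ℝ) : ∑ β, F β = ∑ γ : Fin G, ∑ i : Fin N', ∑ t : Fin 2, F (FCR_be γ i t) := by
  rw [← Equiv.sum_comp (finProdFinEquiv : Fin (G * N') × Fin 2 ≃ Fin (G * N' * 2)) F, Fintype.sum_prod_type,
    ← Equiv.sum_comp (finProdFinEquiv : Fin G × Fin N' ≃ Fin (G * N')) _, Fintype.sum_prod_type]
  rfl

theorem FCR_digits (K p : ℕ) : p = p / (K * K) * (K * K) + p / K % K * K + p % K := by
  have h1 := Nat.div_add_mod p K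
  have h2 := Nat.div_add_mod (p / K) K
  rw [Nat.div_div_eq_div_mul] at h2
  have h3 : p / (K * K) * (K * K) + p / K % K * K + p % K = K * (K * (p / (K * K)) + p / K % K) + p % K := by ring
  rw [h3, h2, h1]

/-- the pushed functions, abstract part -/
theorem FCR_fun {Ξ : Type} [Fintype Ξ] [DecidableEq Ξ] (K R : ℕ) (hK : 1 ≤ K) (a0 : Fin 2 → ℕ → ℝ) (pos : Fin 2 → ℕ → Ξ) (U : ℕ) (hR : R = U * (K * K))
    (ha : ∀ t p, 0 ≤ a0 t p ∧ a0 t p ≤ 1) (ha2 : ∀ p, a0 0 p + a0 1 p ≤ 1)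
    (hpos : ∀ t, ∀ p < R, ∀ p' < R, pos t p = pos t p' → p / K % K = p' / K % K → p % K = p' % K → p = p') :
    (∀ ξ, 0 ≤ (∑ p ∈ range R, ∑ t, if pos t p = ξ then a0 t p else 0) / ((K : ℝ) * K) ∧
      (∑ p ∈ range R, ∑ t, if pos t p = ξ then a0 t p else 0) / ((K : ℝ) * K) ≤ 2) ∧
    ∑ ξ, (∑ p ∈ range R, ∑ t, if pos t p = ξ then a0 t p else 0) / ((K : ℝ) * K) = (∑ p ∈ range R, ∑ t, a0 t p) / ((K : ℝ) * K) ∧
    ∑ ξ, (∑ p ∈ range R, ∑ t, if pos t p = ξ then a0 t p else 0) / ((K : ℝ) * K) ≤ U := by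
  have hK0 : (0 : ℝ) < (K : ℝ) * K := by
    have : (0 : ℝ) < K := by exact_mod_cast hK
    positivity
  have hsum : ∑ ξ, (∑ p ∈ range R, ∑ t, if pos t p = ξ then a0 t p else 0) / ((K : ℝ) * K) = (∑ p ∈ range R, ∑ t, a0 t p) / ((K : ℝ) * K) := by
    rw [← sum_div]
    congr 1
    have h1 := FCR_push (range R) pos a0 (fun _ => 1)
    simp only [mul_one] at h1
    exact h1
  refine ⟨fun ξ => ⟨div_nonneg (sum_nonneg fun p _ => sum_nonneg fun t _ => ?_) hK0.le, ?_⟩, hsum, ?_⟩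
  · split_ifs
    · exact (ha t p).1
    · exact le_rfl
  · rw [div_le_iff₀ hK0, sum_comm]
    have h1 : ∀ t : Fin 2, (∑ p ∈ range R, if pos t p = ξ then a0 t p else 0) ≤ (K : ℝ) * K := by
      intro t
      calc (∑ p ∈ range R, if pos t p = ξ then a0 t p else 0) ≤ ∑ p ∈ range R, (if pos t p = ξ then (1 : ℝ) else 0) := by
            refine sum_le_sum fun p _ => ?_
            split_ifs
            · exact (ha t p).2
            · exact le_rfl
        _ = (#{p ∈ range R | pos t p = ξ} : ℝ) := by rw [sum_boole]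
        _ ≤ ((K * K : ℕ) : ℝ) := by
            have h2 : #{p ∈ range R | pos t p = ξ} ≤ #(range K ×ˢ range K) := by
              refine Finset.card_le_card_of_injOn (fun p => (p / K % K, p % K)) ?_ ?_
              · intro p _
                refine Finset.mem_coe.2 (Finset.mem_product.2 ⟨Finset.mem_range.2 (Nat.mod_lt _ hK), Finset.mem_range.2 (Nat.mod_lt _ hK)⟩)
              · intro p hp p' hp' hpp
                obtain ⟨hp1, hp2⟩ := Finset.mem_filter.1 (Finset.mem_coe.1 hp)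
                obtain ⟨hp1', hp2'⟩ := Finset.mem_filter.1 (Finset.mem_coe.1 hp')
                have h3 := congrArg Prod.fst hpp
                have h4 := congrArg Prod.snd hpp
                exact hpos t p (Finset.mem_range.1 hp1) p' (Finset.mem_range.1 hp1') (hp2.trans hp2'.symm) h3 h4
            rw [Finset.card_product, Finset.card_range] at h2
            exact_mod_cast h2
        _ = (K : ℝ) * K := by push_cast; ring
    rw [Fin.sum_univ_two]
    have := h1 0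
    have := h1 1
    linarith
  · rw [hsum, div_le_iff₀ hK0]
    calc ∑ p ∈ range R, ∑ t, a0 t p ≤ ∑ _p ∈ range R, (1 : ℝ) := sum_le_sum fun p _ => by rw [Fin.sum_univ_two]; exact ha2 p
      _ = (R : ℝ) := by rw [sum_const, card_range, nsmul_eq_mul, mul_one]
      _ = U * ((K : ℝ) * K) := by rw [hR]; push_cast; ring

open Classical in
theorem FCR_pair {Ξ : Type} [Fintype Ξ] [DecidableEq Ξ] (K R : ℕ) (a0 a1 : Fin 2 → ℕ → ℝ) (pos : Fin 2 → ℕ → Ξ) (N : Ξ → Ξ → Prop) :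
    ∑ ξ, ∑ ξ', (if N ξ ξ' then 0 else (∑ p ∈ range R, ∑ t, if pos t p = ξ then a0 t p else 0) / ((K : ℝ) * K) *
      ((∑ p ∈ range R, ∑ t, if pos t p = ξ' then a1 t p else 0) / ((K : ℝ) * K))) =
    (∑ t, ∑ t', ∑ p ∈ range R, ∑ p' ∈ range R, (if N (pos t p) (pos t' p') then 0 else a0 t p * a1 t' p')) / ((K : ℝ) * K) ^ 2 := by
  have e1 : ∀ ξ ξ', (if N ξ ξ' then 0 else (∑ p ∈ range R, ∑ t, if pos t p = ξ then a0 t p else 0) / ((K : ℝ) * K) *
      ((∑ p ∈ range R, ∑ t, if pos t p = ξ' then a1 t p else 0) / ((K : ℝ) * K))) =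
      ((∑ p ∈ range R, ∑ t, if pos t p = ξ then a0 t p else 0) * ((∑ p ∈ range R, ∑ t, if pos t p = ξ' then a1 t p else 0) * (if N ξ ξ' then 0 else 1))) / ((K : ℝ) * K) ^ 2 := by
    intro ξ ξ'
    split_ifs
    · simp
    · rw [div_mul_div_comm, mul_one, pow_two]
  simp_rw [e1]
  simp_rw [← sum_div]
  congr 1
  have e2 : ∀ ξ, ∑ ξ', ((∑ p ∈ range R, ∑ t, if pos t p = ξ then a0 t p else 0) * ((∑ p ∈ range R, ∑ t, if pos t p = ξ' then a1 t p else 0) * (if N ξ ξ' then 0 else 1))) =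
      (∑ p ∈ range R, ∑ t, if pos t p = ξ then a0 t p else 0) * ∑ p' ∈ range R, ∑ t', a1 t' p' * (if N ξ (pos t' p') then 0 else 1) := by
    intro ξ
    rw [← mul_sum]
    congr 1
    exact FCR_push (range R) pos a1 (fun ξ' => if N ξ ξ' then 0 else 1)
  simp_rw [e2]
  rw [FCR_push (range R) pos a0 (fun ξ => ∑ p' ∈ range R, ∑ t', a1 t' p' * (if N ξ (pos t' p') then 0 else 1))]
  rw [sum_comm]
  refine sum_congr rfl fun t _ => ?_
  have e3 : ∀ p, a0 t p * ∑ p' ∈ range R, ∑ t', a1 t' p' * (if N (pos t p) (pos t' p') then 0 else 1) =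
      ∑ t', ∑ p' ∈ range R, (if N (pos t p) (pos t' p') then 0 else a0 t p * a1 t' p') := by
    intro p
    rw [mul_sum, sum_comm (s := (univ : Finset (Fin 2)))]
    refine sum_congr rfl fun p' _ => ?_
    rw [mul_sum]
    refine sum_congr rfl fun t' _ => ?_
    split_ifs <;> ring
  simp_rw [e3]
  rw [sum_comm]

theorem FCR (hQ : ∀ k : ℕ, 1 ≤ k → Qk k) (hTC : NoTC) (hFCP : Pool.Agent.DK.FCP_stmt) (hCLX : CLX_stmt) : FCR_stmt := by
  classical
  intro G N' w δ hG hN' hδ hw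
  have hc1 : 1 ≤ G * N' := Nat.mul_pos hG hN'
  obtain ⟨ε, hεdef⟩ : ∃ ε : ℝ, ε = min (δ / 8) 1 := ⟨_, rfl⟩
  have hε0 : 0 < ε := by
    rw [hεdef]
    exact lt_min (by linarith) one_pos
  have hε1 : ε ≤ 1 := by
    rw [hεdef]
    exact min_le_right _ _
  have hεδ : ε ≤ δ / 8 := by
    rw [hεdef]
    exact min_le_left _ _
  obtain ⟨n, η, hn, hη, hF⟩ := hFCP (G * N' * 2) (G * N') (fun β => β.divNat) ε (by omega) hε0 hε1
  obtain ⟨K, hK, hC⟩ := hCLX hQ (G * N') n (fun χ => w χ.divNat) η hc1 hn hη (fun χ => hw _)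
  refine ⟨n * (G * N' * 2), ?_⟩
  intro Q hQ1 hp1 hp2
  obtain ⟨x, y, hxy, hinj, hbad⟩ := hTC Q K hQ1 hK
  have hQ0 : (Q : ℤ) ≠ 0 := by exact_mod_cast (by omega : Q ≠ 0)
  have hx' : ∀ i < K, x i = Q * (x i / Q) := fun i hi => (Int.mul_ediv_cancel' (hxy i hi).1).symm
  have hy' : ∀ i < K, y i = Q * (y i / Q) := fun i hi => (Int.mul_ediv_cancel' (hxy i hi).2).symm
  obtain ⟨S0, hS0⟩ : ∃ S0 : ℕ, ∀ i < K, |x i / Q| ≤ S0 ∧ |y i / Q| ≤ S0 := by
    refine ⟨∑ i ∈ range K, ((x i / Q).natAbs + (y i / Q).natAbs), fun i hi => ?_⟩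
    have h1 : (x i / Q).natAbs + (y i / Q).natAbs ≤ ∑ i ∈ range K, ((x i / Q).natAbs + (y i / Q).natAbs) :=
      single_le_sum (f := fun i => (x i / Q).natAbs + (y i / Q).natAbs) (fun _ _ => Nat.zero_le _) (Finset.mem_range.2 hi)
    constructor
    · rw [Int.abs_eq_natAbs]
      exact_mod_cast le_trans (Nat.le_add_right _ _) h1
    · rw [Int.abs_eq_natAbs]
      exact_mod_cast le_trans (Nat.le_add_left _ _) h1
  refine ⟨2 * S0, ?_⟩
  intro W _ _ X hX h hh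
  obtain ⟨U, hU⟩ : ∃ U : ℕ, U = Fintype.card W * X := ⟨_, rfl⟩
  have hU1 : 1 ≤ U := by
    rw [hU]
    exact Nat.mul_pos Fintype.card_pos hX
  -- the element of W
  obtain ⟨wv, hwv⟩ : ∃ wv : ℕ → W, wv = fun u => if hu : u / X < Fintype.card W then (Fintype.equivFin W).symm ⟨u / X, hu⟩ else Classical.arbitrary W := ⟨_, rfl⟩
  have hdivW : ∀ u < U, u / X < Fintype.card W := by
    intro u hu
    rw [hU] at hu
    exact Nat.div_lt_of_lt_mul (by rw [mul_comm]; exact hu)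
  have hwvinj : ∀ u < U, ∀ u' < U, wv u = wv u' → u / X = u' / X := by
    intro u hu u' hu' huu
    rw [hwv] at huu
    dsimp only at huu
    rw [dif_pos (hdivW u hu), dif_pos (hdivW u' hu')] at huu
    have := (Fintype.equivFin W).symm.injective huu
    exact congrArg Fin.val this
  -- the shifts
  obtain ⟨sh, hsh⟩ : ∃ sh : Fin 2 → ℕ → ℤ, sh = fun (t : Fin 2) (p : ℕ) => if (t : ℕ) = 0 then x (p / K % K) / Q else y (p % K) / Q := ⟨_, rfl⟩
  have hshb : ∀ t p, |sh t p| ≤ S0 := by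
    intro t p
    rw [hsh]
    dsimp only
    split_ifs
    · exact (hS0 _ (Nat.mod_lt _ hK)).1
    · exact (hS0 _ (Nat.mod_lt _ hK)).2
  have hpp : ∀ t p, 0 ≤ ((p / (K * K) % X : ℕ) : ℤ) + S0 + sh t p ∧ ((p / (K * K) % X : ℕ) : ℤ) + S0 + sh t p < X + 2 * S0 := by
    intro t p
    have h1 := abs_le.1 (hshb t p)
    have h2 : p / (K * K) % X < X := Nat.mod_lt _ hX
    omega
  have hppn : ∀ t p, (((p / (K * K) % X : ℕ) : ℤ) + S0 + sh t p).toNat < X + 2 * S0 := by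
    intro t p
    have := hpp t p
    omega
  obtain ⟨pos, hpos⟩ : ∃ pos : Fin 2 → ℕ → W × Fin (X + 2 * S0), pos = fun t p => (wv (p / (K * K)), ⟨(((p / (K * K) % X : ℕ) : ℤ) + S0 + sh t p).toNat, hppn t p⟩) := ⟨_, rfl⟩
  have hpos2 : ∀ t p, (((pos t p).2 : ℕ) : ℤ) = ((p / (K * K) % X : ℕ) : ℤ) + S0 + sh t p := by
    intro t p
    rw [hpos]
    exact Int.toNat_of_nonneg (hpp t p).1
  -- the base constants
  obtain ⟨P, hP⟩ : ∃ P : Fin (G * N') → ℕ → ℤ, P = fun χ u => h χ.divNat χ.modNat (wv u) + Q * (((u % X : ℕ) : ℤ) + S0) := ⟨_, rfl⟩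
  have hfm : ∀ (γ : Fin G) (i : Fin N') (t : Fin 2) (p : ℕ), fmX P x y K (FCR_be γ i t) p = h γ i (pos t p).1 + (Q : ℤ) * (((pos t p).2 : ℕ) : ℤ) := by
    intro γ i t p
    rw [hpos2]
    unfold fmX
    rw [FCR_be_div, FCR_be_mod, hP]
    dsimp only
    rw [FCR_div, FCR_mod]
    have e1 : (pos t p).1 = wv (p / (K * K)) := by rw [hpos]
    rw [e1, hsh]
    dsimp only
    have h1 := hx' _ (Nat.mod_lt (p / K) hK)
    have h2 := hy' _ (Nat.mod_lt p hK)
    split_ifs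
    · rw [h1]
      have e2 : (Q : ℤ) * (x (p / K % K) / Q) / Q = x (p / K % K) / Q := Int.mul_ediv_cancel_left _ hQ0
      rw [e2]
      ring
    · rw [h2]
      have e2 : (Q : ℤ) * (y (p % K) / Q) / Q = y (p % K) / Q := Int.mul_ediv_cancel_left _ hQ0
      rw [e2]
      ring
  have hcop : ∀ χ : Fin (G * N'), ∀ u < U, IsCoprime (P χ u) (Q : ℤ) := by
    intro χ u _
    rw [hP]
    exact (hh _ _ _).add_mul_left_left _
  have hcount := hC Q hQ1 hp1 (fun χ p hp hpd => hp2 χ.divNat p hp hpd) U P x y hU1 hcop hxy hinj hbad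
  obtain ⟨R, hR⟩ : ∃ R : ℕ, R = U * (K * K) := ⟨_, rfl⟩
  have hR1 : 1 ≤ R := by
    rw [hR]
    exact Nat.mul_pos hU1 (Nat.mul_pos hK hK)
  rw [← hR] at hcount
  obtain ⟨a, ha01, hamean, haE, ha2⟩ := hF R (1 / 4 + 1 / 500000) (fun β β' p p' => PrE (w β.divNat.divNat, fmX P x y K β p) (w β'.divNat.divNat, fmX P x y K β' p'))
    hR1 (by norm_num) hcount
  have hK0 : (0 : ℝ) < K := by exact_mod_cast hK
  have hKK : (0 : ℝ) < (K : ℝ) * K := by positivity
  have hposinj : ∀ t, ∀ p < R, ∀ p' < R, pos t p = pos t p' → p / K % K = p' / K % K → p % K = p' % K → p = p' := by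
    intro t p hp p' hp' h1 h2 h3
    have hu : p / (K * K) < U := Nat.div_lt_of_lt_mul (by rw [mul_comm, ← hR]; exact hp)
    have hu' : p' / (K * K) < U := Nat.div_lt_of_lt_mul (by rw [mul_comm, ← hR]; exact hp')
    have h4 : wv (p / (K * K)) = wv (p' / (K * K)) := by
      have := congrArg Prod.fst h1
      rw [hpos] at this
      exact this
    have h5 := hwvinj _ hu _ hu' h4
    have h6 : sh t p = sh t p' := by
      rw [hsh]
      dsimp only
      rw [h2, h3]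
    have h7 : ((p / (K * K) % X : ℕ) : ℤ) = ((p' / (K * K) % X : ℕ) : ℤ) := by
      have e1 := hpos2 t p
      have e2 := hpos2 t p'
      rw [h1] at e1
      rw [e1] at e2
      linarith
    have h8 : p / (K * K) % X = p' / (K * K) % X := by exact_mod_cast h7
    have h9 : p / (K * K) = p' / (K * K) := by
      rw [← Nat.div_add_mod (p / (K * K)) X, ← Nat.div_add_mod (p' / (K * K)) X, h5, h8]
    rw [FCR_digits K p, FCR_digits K p', h9, h2, h3]
  have hfun := fun (γ : Fin G) (i : Fin N') => FCR_fun (Ξ := W × Fin (X + 2 * S0)) K R hK (fun t p => a (FCR_be γ i t) p) pos U hR (fun t p => ha01 _ _)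
    (fun p => ha2 (FCR_be γ i 0) (FCR_be γ i 1) p (by
      intro he
      have := congrArg Fin.modNat he
      rw [FCR_be_mod, FCR_be_mod] at this
      exact absurd this (by decide)) (by
      rw [FCR_be_div, FCR_be_div])) hposinj
  refine ⟨fun γ i ξ => (∑ p ∈ range R, ∑ t, if pos t p = ξ then a (FCR_be γ i t) p else 0) / ((K : ℝ) * K), fun γ i ξ => (hfun γ i).1 ξ, ?_, ?_, ?_⟩
  · intro γ i
    refine ((hfun γ i).2.2).trans (le_of_eq ?_)
    rw [hU]
    push_cast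
    ring
  · have e1 : ∑ γ : Fin G, ∑ i : Fin N', ∑ ξ, (∑ p ∈ range R, ∑ t, if pos t p = ξ then a (FCR_be γ i t) p else 0) / ((K : ℝ) * K) =
        (∑ β, ∑ u ∈ range R, a β u) / ((K : ℝ) * K) := by
      rw [FCR_sum, sum_div]
      refine sum_congr rfl fun γ _ => ?_
      rw [sum_div]
      refine sum_congr rfl fun i _ => ?_
      rw [(hfun γ i).2.1, sum_comm]
    rw [e1, le_div_iff₀ hKK]
    refine le_trans ?_ hamean
    rw [hR, hU]
    push_cast
    have h1 : 0 ≤ (G : ℝ) * N' * Fintype.card W * X * (K * K) := by positivity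
    nlinarith
  · intro γ i γ' i' hne
    have h1 := FCR_pair (Ξ := W × Fin (X + 2 * S0)) K R (fun t p => a (FCR_be γ i t) p) (fun t p => a (FCR_be γ' i' t) p) pos
      (fun ξ ξ' => PrE (w γ, h γ i ξ.1 + (Q : ℤ) * ((ξ.2 : ℕ) : ℤ)) (w γ', h γ' i' ξ'.1 + (Q : ℤ) * ((ξ'.2 : ℕ) : ℤ)))
    refine (le_of_eq h1).trans ?_
    rw [div_le_iff₀ (by positivity)]
    have h2 : ∀ t t' : Fin 2, ∑ p ∈ range R, ∑ p' ∈ range R, (if PrE (w γ, h γ i (pos t p).1 + (Q : ℤ) * (((pos t p).2 : ℕ) : ℤ)) (w γ', h γ' i' (pos t' p').1 + (Q : ℤ) * (((pos t' p').2 : ℕ) : ℤ)) then 0 else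
        a (FCR_be γ i t) p * a (FCR_be γ' i' t') p') ≤ ε * (R : ℝ) ^ 2 := by
      intro t t'
      have h3 := haE (FCR_be γ i t) (FCR_be γ' i' t') (by
        rw [FCR_be_div, FCR_be_div]
        intro he
        exact hne (finProdFinEquiv.injective he))
      refine le_trans (le_of_eq ?_) h3
      refine sum_congr rfl fun p _ => sum_congr rfl fun p' _ => ?_
      rw [hfm, hfm, FCR_be_div, FCR_be_div, FCR_div, FCR_div]
    have h4 : (∑ t : Fin 2, ∑ t' : Fin 2, ∑ p ∈ range R, ∑ p' ∈ range R, (if PrE (w γ, h γ i (pos t p).1 + (Q : ℤ) * (((pos t p).2 : ℕ) : ℤ)) (w γ', h γ' i' (pos t' p').1 + (Q : ℤ) * (((pos t' p').2 : ℕ) : ℤ)) then 0 else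
        a (FCR_be γ i t) p * a (FCR_be γ' i' t') p')) ≤ 4 * (ε * (R : ℝ) ^ 2) := by
      simp only [Fin.sum_univ_two]
      have := h2 0 0
      have := h2 0 1
      have := h2 1 0
      have := h2 1 1
      linarith
    refine h4.trans ?_
    rw [hR, hU]
    push_cast
    have h5 : (X : ℝ) ≤ X + 2 * S0 := by
      have : (0 : ℝ) ≤ S0 := Nat.cast_nonneg _
      linarith
    have h6 : ((Fintype.card W : ℝ) * X) ^ 2 ≤ ((Fintype.card W : ℝ) * (X + 2 * S0)) ^ 2 := by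
      refine pow_le_pow_left₀ (by positivity) ?_ 2
      exact mul_le_mul_of_nonneg_left h5 (by positivity)
    have h7 : 4 * (ε * ((Fintype.card W : ℝ) * X * (K * K)) ^ 2) = 4 * ε * ((Fintype.card W : ℝ) * X) ^ 2 * ((K : ℝ) * K) ^ 2 := by ring
    rw [h7]
    refine mul_le_mul_of_nonneg_right ?_ (by positivity)
    calc 4 * ε * ((Fintype.card W : ℝ) * X) ^ 2 ≤ δ * ((Fintype.card W : ℝ) * X) ^ 2 := mul_le_mul_of_nonneg_right (by linarith) (by positivity)
      _ ≤ δ * ((Fintype.card W : ℝ) * (X + 2 * S0)) ^ 2 := mul_le_mul_of_nonneg_left h6 hδ.le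

end Pool.Agent.DP
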