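import Pool.Agent.helper76.DP.Spec
import Pool.Agent.helper25.FR.PRJ
import Pool.Agent.helper22.FR.ORT

/-!
# Row dp:MOD (MP_bf63dc_nt), spec Pool/Agent/helper76/DP/Spec.lean, lemmas
-/

set_option autoImplicit false

namespace Pool.Agent.DP

open Finset
open Pool.Agent.FR (mean Eig PRJ_add PRJ_sub PRJ_mul PRJ_sum PRJ_mono PRJ_nonneg PRJ_const PRJ_abs PRJ_le_const)
open Pool.Agent.AT (Qk Pair)
open Pool.Agent.HF (Om TC NoTC)
open Pool.Agent.IT (Ad)

theorem MO_prod {α β : Type} [Fintype α] [Fintype β] (F : α × β → ℝ) : mean F = mean fun x => mean fun y => F (x, y) := by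
  unfold mean
  rw [Fintype.sum_prod_type, Fintype.card_prod, ← Finset.sum_div, Nat.cast_mul, div_div, mul_comm (Fintype.card α : ℝ)]

theorem MO_swap {α β : Type} [Fintype α] [Fintype β] (F : α → β → ℝ) : (mean fun x => mean fun y => F x y) = mean fun y => mean fun x => F x y := by
  unfold mean
  rw [← Finset.sum_div, ← Finset.sum_div, sum_comm, div_div, div_div, mul_comm]

theorem MO_four {Z W : Type} [Fintype Z] [Fintype W] (F : (Z × W) × (Z × W) → ℝ) :
    mean F = mean fun z : Z × Z => mean fun w : W × W => F ((z.1, w.1), (z.2, w.2)) := by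
  rw [MO_prod F]
  have h1 : (mean fun x : Z × W => mean fun y : Z × W => F (x, y)) = mean fun z : Z => mean fun w : W => mean fun z' : Z => mean fun w' : W => F ((z, w), (z', w')) := by
    rw [MO_prod]
    congr 1
    funext z
    congr 1
    funext w
    rw [MO_prod]
  rw [h1, MO_prod]
  congr 1
  funext z
  rw [MO_swap]
  congr 1
  funext z'
  rw [MO_prod]

theorem MO_mono_const {α : Type} [Fintype α] {f : α → ℝ} {c : ℝ} (hc : 0 ≤ c) (h : ∀ x, f x ≤ c) : mean f ≤ c := by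
  by_cases hne : Nonempty α
  · exact PRJ_le_const h
  · have : IsEmpty α := not_nonempty_iff.1 hne
    unfold mean
    simp [hc]

/-! ### cells -/

open Classical in
/-- the function of a cell -/
noncomputable def Ac {N' : ℕ} {Z W : Type} (lam : Fin N' → Z) (f : Fin N' → W → ℝ) (x : Z × W) : ℝ := (∑ i with lam i = x.1, f i x.2) / (2 * #{i | lam i = x.1})

theorem Ac_bound {N' : ℕ} {Z W : Type} (lam : Fin N' → Z) (f : Fin N' → W → ℝ) (hf : ∀ i w, 0 ≤ f i w ∧ f i w ≤ 2) (x : Z × W) : 0 ≤ Ac lam f x ∧ Ac lam f x ≤ 1 := by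
  classical
  unfold Ac
  constructor
  · exact div_nonneg (sum_nonneg fun i _ => (hf i _).1) (by positivity)
  · refine div_le_one_of_le₀ ?_ (by positivity)
    calc (∑ i with lam i = x.1, f i x.2) ≤ ∑ i with lam i = x.1, (2 : ℝ) := sum_le_sum fun i _ => (hf i _).2
      _ = 2 * #{i | lam i = x.1} := by rw [sum_const, nsmul_eq_mul, mul_comm]

theorem Ac_mean {N' : ℕ} {Z W : Type} [Fintype W] [Nonempty W] (lam : Fin N' → Z) (f : Fin N' → W → ℝ) (hf : ∀ i, ∑ w, f i w ≤ Fintype.card W) (z : Z) :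
    (mean fun w => Ac lam f (z, w)) ≤ 1 / 2 := by
  classical
  have e0 : ∀ w, Ac lam f (z, w) = (∑ i with lam i = z, f i w) / (2 * #{i | lam i = z}) := fun w => rfl
  simp_rw [e0]
  unfold mean
  have hW : (0 : ℝ) < Fintype.card W := by exact_mod_cast Fintype.card_pos
  rw [div_le_iff₀ hW, ← sum_div, sum_comm]
  by_cases hn : #{i | lam i = z} = 0
  · rw [hn]
    simp only [Nat.cast_zero, mul_zero, div_zero]
    positivity
  · have hn0 : (0 : ℝ) < #{i | lam i = z} := by exact_mod_cast Nat.pos_of_ne_zero hn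
    rw [div_le_iff₀ (by positivity)]
    calc (∑ i with lam i = z, ∑ w, f i w) ≤ ∑ i with lam i = z, (Fintype.card W : ℝ) := sum_le_sum fun i _ => hf i
      _ = #{i | lam i = z} * (Fintype.card W : ℝ) := by rw [sum_const, nsmul_eq_mul]
      _ = 1 / 2 * (Fintype.card W : ℝ) * (2 * #{i | lam i = z}) := by ring

open Classical in
theorem Ac_sum {N' : ℕ} {Z : Type} (lam : Fin N' → Z) (g : Fin N' → ℝ) : ∑ i, (∑ i' with lam i' = lam i, g i') / (2 * #{i' | lam i' = lam i}) = (∑ i, g i) / 2 := by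
  have h1 : ∀ i, (∑ i' with lam i' = lam i, g i') / (2 * #{i' | lam i' = lam i}) = ∑ i', (if lam i' = lam i then g i' / (2 * #{j | lam j = lam i'}) else 0) := by
    intro i
    rw [sum_div, sum_filter]
    refine sum_congr rfl fun i' _ => ?_
    by_cases h : lam i' = lam i
    · rw [if_pos h, if_pos h, h]
    · rw [if_neg h, if_neg h]
  simp_rw [h1]
  rw [sum_comm, sum_div]
  refine sum_congr rfl fun i' _ => ?_
  rw [← sum_filter, sum_const, nsmul_eq_mul]
  have h2 : #{i | lam i' = lam i} = #{j | lam j = lam i'} := by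
    congr 1
    ext j
    simp [eq_comm]
  rw [h2]
  have h3 : (#{j | lam j = lam i'} : ℝ) ≠ 0 := by
    have : 0 < #{j | lam j = lam i'} := card_pos.2 ⟨i', mem_filter.2 ⟨mem_univ _, rfl⟩⟩
    exact_mod_cast this.ne'
  field_simp

theorem Ac_avg {N' : ℕ} {Z W : Type} [Fintype W] (lam : Fin N' → Z) (f : Fin N' → W → ℝ) :
    (mean fun i : Fin N' => mean fun w => Ac lam f (lam i, w)) = (∑ i, ∑ w, f i w) / (2 * (N' * Fintype.card W)) := by
  classical
  rw [MO_swap]
  unfold mean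
  have h1 : ∀ w, ∑ i, Ac lam f (lam i, w) = (∑ i, f i w) / 2 := by
    intro w
    exact Ac_sum lam (fun i => f i w)
  simp_rw [h1]
  rw [Fintype.card_fin, ← sum_div, ← sum_div, div_div, div_div, sum_comm]

/-- the correlation of two functions of cells -/
theorem Ac_corr {N' : ℕ} {Z W : Type} [Fintype Z] [Fintype W] [Nonempty Z] [Nonempty W] (lam : Fin N' → Z) (f f' : Fin N' → W → ℝ) (Y : (Z × W) × (Z × W) → ℝ) (δ : ℝ) (hδ : 0 ≤ δ)
    (h : ∀ i i', ∑ w, ∑ w', f i w * f' i' w' * Y ((lam i, w), (lam i', w')) ≤ δ * (Fintype.card W : ℝ) ^ 2) :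
    (mean fun p : (Z × W) × (Z × W) => Ac lam f p.1 * Ac lam f' p.2 * Y p) ≤ δ := by
  classical
  rw [MO_four]
  refine PRJ_le_const fun z => ?_
  have hW : (0 : ℝ) < Fintype.card W := by exact_mod_cast Fintype.card_pos
  have e0 : ∀ w, Ac lam f (z.1, w) = (∑ i with lam i = z.1, f i w) / (2 * #{i | lam i = z.1}) := fun w => rfl
  have e0' : ∀ w, Ac lam f' (z.2, w) = (∑ i with lam i = z.2, f' i w) / (2 * #{i | lam i = z.2}) := fun w => rfl
  simp_rw [e0, e0']
  unfold mean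
  rw [Fintype.sum_prod_type, Fintype.card_prod, div_le_iff₀ (by push_cast; positivity)]
  have e1 : ∑ w, ∑ w', (∑ i with lam i = z.1, f i w) / (2 * #{i | lam i = z.1}) * ((∑ i with lam i = z.2, f' i w') / (2 * #{i | lam i = z.2})) * Y ((z.1, w), (z.2, w')) =
      (∑ i with lam i = z.1, ∑ i' with lam i' = z.2, ∑ w, ∑ w', f i w * f' i' w' * Y ((z.1, w), (z.2, w'))) / (2 * #{i | lam i = z.1} * (2 * #{i | lam i = z.2})) := by
    have e2 : ∀ w w', (∑ i with lam i = z.1, f i w) / (2 * #{i | lam i = z.1}) * ((∑ i with lam i = z.2, f' i w') / (2 * #{i | lam i = z.2})) * Y ((z.1, w), (z.2, w')) =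
        (∑ i with lam i = z.1, ∑ i' with lam i' = z.2, f i w * f' i' w' * Y ((z.1, w), (z.2, w'))) / (2 * #{i | lam i = z.1} * (2 * #{i | lam i = z.2})) := by
      intro w w'
      rw [div_mul_div_comm, div_mul_eq_mul_div, Finset.sum_mul_sum, Finset.sum_mul]
      congr 1
      refine sum_congr rfl fun i _ => ?_
      rw [Finset.sum_mul]
    simp_rw [e2]
    simp_rw [← sum_div]
    congr 1
    have e3 : ∀ w, ∑ w', ∑ i with lam i = z.1, ∑ i' with lam i' = z.2, f i w * f' i' w' * Y ((z.1, w), (z.2, w')) =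
        ∑ i with lam i = z.1, ∑ i' with lam i' = z.2, ∑ w', f i w * f' i' w' * Y ((z.1, w), (z.2, w')) := by
      intro w
      rw [sum_comm]
      refine sum_congr rfl fun i _ => ?_
      rw [sum_comm]
    simp_rw [e3]
    rw [sum_comm]
    refine sum_congr rfl fun i _ => ?_
    rw [sum_comm]
  rw [e1]
  by_cases hn : #{i | lam i = z.1} = 0 ∨ #{i | lam i = z.2} = 0
  · have : (2 * (#{i | lam i = z.1} : ℝ) * (2 * #{i | lam i = z.2})) = 0 := by
      rcases hn with hn | hn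
      · rw [hn]; simp
      · rw [hn]; simp
    rw [this, div_zero]
    positivity
  · push Not at hn
    have h1 : (0 : ℝ) < #{i | lam i = z.1} := by exact_mod_cast Nat.pos_of_ne_zero hn.1
    have h2 : (0 : ℝ) < #{i | lam i = z.2} := by exact_mod_cast Nat.pos_of_ne_zero hn.2
    rw [div_le_iff₀ (by positivity)]
    calc (∑ i with lam i = z.1, ∑ i' with lam i' = z.2, ∑ w, ∑ w', f i w * f' i' w' * Y ((z.1, w), (z.2, w')))
        ≤ ∑ i with lam i = z.1, ∑ i' with lam i' = z.2, δ * (Fintype.card W : ℝ) ^ 2 := by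
          refine sum_le_sum fun i hi => sum_le_sum fun i' hi' => ?_
          have h3 := h i i'
          rw [(mem_filter.1 hi).2, (mem_filter.1 hi').2] at h3
          exact h3
      _ = #{i | lam i = z.1} * (#{i | lam i = z.2} * (δ * (Fintype.card W : ℝ) ^ 2)) := by rw [sum_const, sum_const, nsmul_eq_mul, nsmul_eq_mul]
      _ ≤ δ * ((Fintype.card W * Fintype.card W : ℕ) : ℝ) * (2 * #{i | lam i = z.1} * (2 * #{i | lam i = z.2})) := by
          push_cast
          have h4 : 0 ≤ δ * ((Fintype.card W : ℝ) ^ 2) * ((#{i | lam i = z.1} : ℝ) * #{i | lam i = z.2}) := by positivity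
          nlinarith

/-! ### the forms -/

theorem MO_tc (a b s t : ℕ) (h h' : ℤ) (hb : 1 ≤ b) (hs : 1 ≤ s) (hab : Nat.Coprime a b) (hst : a * s = b * t) (hP : Pair (s, h) (t, h')) :
    TC a b ((a : ℤ) * h - b * h') := by
  have h1 : b ∣ s := by
    have : b ∣ a * s := ⟨t, hst⟩
    exact (Nat.Coprime.dvd_mul_left hab.symm).1 this
  obtain ⟨u, hu⟩ := h1
  have hu0 : 0 < u := by
    rcases Nat.eq_zero_or_pos u with h2 | h2
    · rw [h2, mul_zero] at hu
      omega
    · exact h2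
  have ht : t = a * u := by
    have h2 : b * (a * u) = b * t := by rw [← hst, hu]; ring
    exact (Nat.eq_of_mul_eq_mul_left hb h2).symm
  have hg : Nat.gcd s t = u := by
    rw [hu, ht, Nat.gcd_mul_right]
    have : Nat.gcd b a = 1 := hab.symm
    rw [this, one_mul]
  unfold Pair at hP
  dsimp only at hP
  rw [hg] at hP
  have e1 : t / u = a := by rw [ht, Nat.mul_div_cancel _ hu0]
  have e2 : s / u = b := by rw [hu, Nat.mul_div_cancel _ hu0]
  have e3 : ((t : ℤ) * h - s * h') / (u : ℤ) = a * h - b * h' := by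
    have : (t : ℤ) * h - s * h' = u * (a * h - b * h') := by
      rw [ht, hu]
      push_cast
      ring
    rw [this, Int.mul_ediv_cancel_left _ (by exact_mod_cast hu0.ne')]
  rw [e1, e2, e3] at hP
  exact hP

theorem bd_bound (r : ℕ × ℕ) (c : ℤ) : 0 ≤ bd r c ∧ bd r c ≤ 1 := by
  unfold bd
  split_ifs <;> norm_num

theorem Fm_bound (f : ℤ → ℝ) (hf : ∀ x, 0 ≤ f x ∧ f x ≤ 1) (Q l : ℕ) (x : ℤ) : 0 ≤ Fm f Q l x ∧ Fm f Q l x ≤ 1 := by
  unfold Fm
  exact ⟨PRJ_nonneg fun k => (hf _).1, MO_mono_const zero_le_one fun k => (hf _).2⟩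

theorem MO_bad (r : ℕ × ℕ) (s t : ℕ) (h h' c : ℤ) (hb : 1 ≤ r.2) (hs : 1 ≤ s) (hab : Nat.Coprime r.1 r.2) (hr : r ≠ (1, 1)) (hst : r.1 * s = r.2 * t)
    (hc : c = (r.1 : ℤ) * h - r.2 * h') (hP : PrE (s, h) (t, h')) : bd r c = 0 := by
  unfold bd
  rw [if_neg]
  rintro ⟨-, h1⟩
  apply h1
  rcases hP with h2 | h2
  · exfalso
    have h3 : s = t := congrArg Prod.fst h2
    rw [← h3] at hst
    have h4 : r.1 = r.2 := Nat.eq_of_mul_eq_mul_right hs hst
    rw [h4, Nat.coprime_self] at hab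
    apply hr
    ext
    · exact h4.trans hab
    · exact hab
  · rw [hc]
    exact MO_tc r.1 r.2 s t h h' hb hs hab hst h2

/-! ### residues -/

theorem MO_rep (Q₀ q : ℕ) [NeZero Q₀] [NeZero q] (h : Nat.Coprime Q₀ q) : ∃ ρ : (ZMod Q₀)ˣ → (ZMod q)ˣ → ℤ,
    ∀ z v, (ρ z v : ZMod Q₀) = z ∧ (ρ z v : ZMod q) = v ∧ 0 ≤ ρ z v ∧ ρ z v < (Q₀ * q : ℕ) := by
  refine ⟨fun z v => ((Nat.chineseRemainder h (z : ZMod Q₀).val (v : ZMod q).val : ℕ) : ℤ), fun z v => ?_⟩
  have h1 := (Nat.chineseRemainder h (z : ZMod Q₀).val (v : ZMod q).val).2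
  refine ⟨?_, ?_, by positivity, ?_⟩
  · rw [Int.cast_natCast, (ZMod.natCast_eq_natCast_iff _ _ _).2 h1.1, ZMod.natCast_zmod_val]
  · rw [Int.cast_natCast, (ZMod.natCast_eq_natCast_iff _ _ _).2 h1.2, ZMod.natCast_zmod_val]
  · show ((Nat.chineseRemainder h (z : ZMod Q₀).val (v : ZMod q).val : ℕ) : ℤ) < ((Q₀ * q : ℕ) : ℤ)
    exact Int.ofNat_lt.2 (Nat.chineseRemainder_lt_mul h _ _ (NeZero.ne Q₀) (NeZero.ne q))

theorem MO_unit (Q : ℕ) (x : ℤ) (z : (ZMod Q)ˣ) (h : (x : ZMod Q) = z) : IsCoprime x (Q : ℤ) := by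
  have h1 : IsUnit (x : ZMod Q) := by
    rw [h]
    exact z.isUnit
  exact (ZMod.coe_int_isUnit_iff_isCoprime x Q).1 h1 |>.symm

end Pool.Agent.DP
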