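import Pool.Agent.helper76.DP.MO1

/-!
# Row dp:MOD (MP_bf63dc_nt), spec Pool/Agent/helper76/DP/Spec.lean, the analytic clauses
-/

set_option autoImplicit false

namespace Pool.Agent.DP

open Finset
open Pool.Agent.FR (mean Eig PRJ_add PRJ_sub PRJ_mul PRJ_sum PRJ_mono PRJ_nonneg PRJ_const PRJ_abs PRJ_le_const)
open Pool.Agent.AT (Qk Pair)
open Pool.Agent.HF (Om TC NoTC)
open Pool.Agent.IT (Ad)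

/-- the places -/
abbrev Pl (Q₀ q X : ℕ) : Type := (ZMod Q₀)ˣ × ((ZMod q)ˣ × Fin X)

/-- the constant of the equation of two places -/
def cc {Q₀ q X : ℕ} (ρ : (ZMod Q₀)ˣ → (ZMod q)ˣ → ℤ) (V : ℤ) (a b : ℕ) (p : Pl Q₀ q X × Pl Q₀ q X) : ℤ :=
  V + (a : ℤ) * ρ p.1.1 p.1.2.1 - (b : ℤ) * ρ p.2.1 p.2.2.1 + (Q₀ * q : ℕ) * ((a : ℤ) * ((p.1.2.2 : ℕ) : ℤ) - (b : ℤ) * ((p.2.2.2 : ℕ) : ℤ))

theorem MO_cs (V : ℤ) (X : ℕ) (g : ℤ → ℝ) (ε₁ : ℝ) (hX : 1 ≤ X) (hε : 0 ≤ ε₁) (h : ∑ x ∈ Icc (V - X) (V + X), g x ^ 2 ≤ ε₁ * X) :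
    ∑ x ∈ Icc (V - X) (V + X), |g x| ≤ 2 * X * √ε₁ := by
  have h1 := Finset.sum_mul_sq_le_sq_mul_sq (Icc (V - (X : ℤ)) (V + X)) (fun _ => (1 : ℝ)) (fun x => |g x|)
  simp only [one_mul, one_pow, sum_const, nsmul_eq_mul, mul_one, sq_abs] at h1
  have h2 : (#(Icc (V - (X : ℤ)) (V + X)) : ℝ) = 2 * X + 1 := by
    rw [Int.card_Icc]
    have : (V + X + 1 - (V - X)).toNat = 2 * X + 1 := by omega
    rw [this]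
    push_cast
    ring
  rw [h2] at h1
  have hX0 : (1 : ℝ) ≤ X := by exact_mod_cast hX
  have h3 : (∑ x ∈ Icc (V - (X : ℤ)) (V + X), |g x|) ^ 2 ≤ (2 * X * √ε₁) ^ 2 := by
    calc (∑ x ∈ Icc (V - (X : ℤ)) (V + X), |g x|) ^ 2 ≤ (2 * X + 1) * ∑ x ∈ Icc (V - (X : ℤ)) (V + X), g x ^ 2 := h1
      _ ≤ (2 * X + 1) * (ε₁ * X) := mul_le_mul_of_nonneg_left h (by positivity)
      _ ≤ (4 * X) * (ε₁ * X) := mul_le_mul_of_nonneg_right (by linarith) (by positivity)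
      _ = (2 * X * √ε₁) ^ 2 := by
          rw [mul_pow, Real.sq_sqrt hε]
          ring
  exact (pow_le_pow_iff_left₀ (sum_nonneg fun x _ => abs_nonneg _) (by positivity) two_ne_zero).1 h3

theorem dn_pos (a b : ℕ) (ha : 1 ≤ a) (hb : 1 ≤ b) : 0 < dn a b := by
  unfold dn
  have h1 : 0 < 2 * a * b := Nat.mul_pos (Nat.mul_pos two_pos ha) hb
  have h2 : 0 < Nat.totient (2 * a * b) := Nat.totient_pos.2 h1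
  have h3 : (0 : ℝ) < (2 * a * b : ℕ) := by exact_mod_cast h1
  have h4 : (0 : ℝ) < Nat.totient (2 * a * b) := by exact_mod_cast h2
  exact div_pos h4 h3

theorem dn_ge (a b m : ℕ) (ha : 1 ≤ a) (hb : 1 ≤ b) (ham : a ≤ m) (hbm : b ≤ m) : 1 / (2 * (m : ℝ) ^ 2) ≤ dn a b := by
  unfold dn
  have h1 : 0 < 2 * a * b := Nat.mul_pos (Nat.mul_pos two_pos ha) hb
  have h2 : 1 ≤ Nat.totient (2 * a * b) := Nat.totient_pos.2 h1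
  have h3 : (0 : ℝ) < (2 * a * b : ℕ) := by exact_mod_cast h1
  have hm : (0 : ℝ) < m := by exact_mod_cast (by omega : 0 < m)
  rw [div_le_div_iff₀ (by positivity) h3]
  have h4 : (1 : ℝ) ≤ Nat.totient (2 * a * b) := by exact_mod_cast h2
  have h5 : ((2 * a * b : ℕ) : ℝ) ≤ 2 * (m : ℝ) ^ 2 := by
    push_cast
    have h6 : (a : ℝ) ≤ m := by exact_mod_cast ham
    have h7 : (b : ℝ) ≤ m := by exact_mod_cast hbm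
    have h8 : (a : ℝ) * b ≤ m * m := mul_le_mul h6 h7 (Nat.cast_nonneg _) hm.le
    nlinarith
  have h9 : (0 : ℝ) < 2 * (m : ℝ) ^ 2 := by positivity
  nlinarith

/-- a periodic function at the constant -/
theorem MO_per {Q₀ q X : ℕ} [NeZero Q₀] [NeZero q] (ρ : (ZMod Q₀)ˣ → (ZMod q)ˣ → ℤ) (hρ : ∀ z v, (ρ z v : ZMod Q₀) = z ∧ (ρ z v : ZMod q) = v ∧ 0 ≤ ρ z v ∧ ρ z v < (Q₀ * q : ℕ))
    (V : ℤ) (hV : (Q₀ : ℤ) ∣ V) (a b : ℕ) (d : ℤ → ℝ) (hd : ∀ x k : ℤ, d (x + Q₀ * k) = d x) (p : Pl Q₀ q X × Pl Q₀ q X) :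
    d (cc ρ V a b p) = d ((a : ℤ) * ((p.1.1 : ZMod Q₀).val : ℕ) - (b : ℤ) * ((p.2.1 : ZMod Q₀).val : ℕ)) := by
  have h1 : ∀ z v, ∃ k : ℤ, ρ z v = ((z : ZMod Q₀).val : ℕ) + Q₀ * k := by
    intro z v
    have h2 : ((ρ z v : ℤ) : ZMod Q₀) = (((z : ZMod Q₀).val : ℕ) : ℤ) := by
      rw [(hρ z v).1, Int.cast_natCast, ZMod.natCast_zmod_val]
    have h3 := (ZMod.intCast_eq_intCast_iff_dvd_sub _ _ _).1 h2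
    obtain ⟨k, hk⟩ := h3
    exact ⟨-k, by linarith⟩
  obtain ⟨k1, hk1⟩ := h1 p.1.1 p.1.2.1
  obtain ⟨k2, hk2⟩ := h1 p.2.1 p.2.2.1
  obtain ⟨k3, hk3⟩ := hV
  have h4 : cc ρ V a b p = ((a : ℤ) * ((p.1.1 : ZMod Q₀).val : ℕ) - (b : ℤ) * ((p.2.1 : ZMod Q₀).val : ℕ)) +
      Q₀ * (k3 + a * k1 - b * k2 + q * ((a : ℤ) * ((p.1.2.2 : ℕ) : ℤ) - (b : ℤ) * ((p.2.2.2 : ℕ) : ℤ))) := by
    unfold cc
    rw [hk1, hk2, hk3]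
    push_cast
    ring
  rw [h4, hd]

/-- clause (ii) -/
theorem MO_law (hLAW : LAW_stmt) (r : ℕ × ℕ) (m Q₀ q y X s l : ℕ) [NeZero Q₀] [NeZero q] (ρ : (ZMod Q₀)ˣ → (ZMod q)ˣ → ℤ) (V : ℤ) (d : ℤ → ℝ) (e ε₁ : ℝ) (he : 0 < e) (hε₁ : 0 ≤ ε₁)
    (ha : 1 ≤ r.1) (hb : 1 ≤ r.2) (hab : Nat.Coprime r.1 r.2) (ham : r.1 ≤ m) (hbm : r.2 ≤ m) (h2ab : 2 * r.1 * r.2 ∣ Q₀) (hcop : Nat.Coprime Q₀ q) (hy : 2 ≤ y)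
    (hyp : ∀ p : ℕ, p.Prime → p ∣ q → y < p) (hX : 1 ≤ X) (hρ : ∀ z v, (ρ z v : ZMod Q₀) = z ∧ (ρ z v : ZMod q) = v ∧ 0 ≤ ρ z v ∧ ρ z v < (Q₀ * q : ℕ))
    (hV : ((Q₀ * q : ℕ) : ℤ) ∣ V) (hd : ∀ x, 0 ≤ d x ∧ d x ≤ 1) (hdp : ∀ x k : ℤ, d (x + Q₀ * k) = d x) (hye : 80 * (m : ℝ) ≤ e * y) (hε₁e : 32 * (m : ℝ) ^ 3 * √ε₁ ≤ e)
    (hsum : ∑ x ∈ Icc (V - (2 * m * (Q₀ * q) * (X + 1) : ℕ)) (V + (2 * m * (Q₀ * q) * (X + 1) : ℕ)), (Fm (bd r) s l x - d x) ^ 2 ≤ ε₁ * (2 * m * (Q₀ * q) * (X + 1) : ℕ)) :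
    (mean fun p : Pl Q₀ q X × Pl Q₀ q X => om r.1 r.2 Q₀ p.1.1 p.2.1 *
      |Fm (bd r) s l (cc ρ V r.1 r.2 p) - d ((r.1 : ℤ) * ((p.1.1 : ZMod Q₀).val : ℕ) - (r.2 : ℤ) * ((p.2.1 : ZMod Q₀).val : ℕ))|) ≤ e := by
  have hQ₀V : (Q₀ : ℤ) ∣ V := dvd_trans (by push_cast; exact dvd_mul_right _ _) hV
  have hG : ∀ x, 0 ≤ |Fm (bd r) s l x - d x| ∧ |Fm (bd r) s l x - d x| ≤ 1 := by
    intro x
    have h1 := Fm_bound (bd r) (bd_bound r) s l x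
    have h2 := hd x
    exact ⟨abs_nonneg _, abs_le.2 ⟨by linarith, by linarith⟩⟩
  have h1 := hLAW r.1 r.2 Q₀ q y X ρ (fun x => |Fm (bd r) s l x - d x|) V ha hb hab h2ab hcop hy hyp hX hρ hG hV
  have e1 : (mean fun p : Pl Q₀ q X × Pl Q₀ q X => om r.1 r.2 Q₀ p.1.1 p.2.1 *
      |Fm (bd r) s l (cc ρ V r.1 r.2 p) - d ((r.1 : ℤ) * ((p.1.1 : ZMod Q₀).val : ℕ) - (r.2 : ℤ) * ((p.2.1 : ZMod Q₀).val : ℕ))|) =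
      (mean fun p : Pl Q₀ q X × Pl Q₀ q X => om r.1 r.2 Q₀ p.1.1 p.2.1 * |Fm (bd r) s l (cc ρ V r.1 r.2 p) - d (cc ρ V r.1 r.2 p)|) := by
    congr 1
    funext p
    rw [MO_per ρ hρ V hQ₀V r.1 r.2 d hdp p]
  rw [e1]
  refine le_trans h1 ?_
  have hm0 : (0 : ℝ) < m := by exact_mod_cast (by omega : 0 < m)
  have hy0 : (0 : ℝ) < y := by exact_mod_cast (by omega : 0 < y)
  have h2 : 20 * ((r.1 : ℝ) + r.2) / y ≤ e / 2 := by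
    rw [div_le_iff₀ hy0]
    have h3 : (r.1 : ℝ) ≤ m := by exact_mod_cast ham
    have h4 : (r.2 : ℝ) ≤ m := by exact_mod_cast hbm
    linarith
  have hQ1 : 1 ≤ Q₀ * q := Nat.mul_pos (Nat.pos_of_ne_zero (NeZero.ne Q₀)) (Nat.pos_of_ne_zero (NeZero.ne q))
  have hXw : 1 ≤ 2 * m * (Q₀ * q) * (X + 1) := Nat.mul_pos (Nat.mul_pos (by omega) hQ1) (by omega)
  have h5 := MO_cs V (2 * m * (Q₀ * q) * (X + 1)) (fun x => Fm (bd r) s l x - d x) ε₁ hXw hε₁ hsum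
  have h6 : ∑ x ∈ Icc (V - ((r.1 + r.2) * (Q₀ * q) * (X + 1) : ℕ)) (V + ((r.1 + r.2) * (Q₀ * q) * (X + 1) : ℕ)), |Fm (bd r) s l x - d x| ≤
      ∑ x ∈ Icc (V - (2 * m * (Q₀ * q) * (X + 1) : ℕ)) (V + (2 * m * (Q₀ * q) * (X + 1) : ℕ)), |Fm (bd r) s l x - d x| := by
    refine sum_le_sum_of_subset_of_nonneg ?_ (fun x _ _ => abs_nonneg _)
    have h7 : (r.1 + r.2) * (Q₀ * q) * (X + 1) ≤ 2 * m * (Q₀ * q) * (X + 1) :=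
      Nat.mul_le_mul_right _ (Nat.mul_le_mul_right _ (by omega))
    have h8 : (((r.1 + r.2) * (Q₀ * q) * (X + 1) : ℕ) : ℤ) ≤ ((2 * m * (Q₀ * q) * (X + 1) : ℕ) : ℤ) := by exact_mod_cast h7
    exact Icc_subset_Icc (by linarith) (by linarith)
  have hdn := dn_pos r.1 r.2 ha hb
  have hdn2 := dn_ge r.1 r.2 m ha hb ham hbm
  have hX0 : (1 : ℝ) ≤ X := by exact_mod_cast hX
  have hQ0 : (1 : ℝ) ≤ ((Q₀ * q : ℕ) : ℝ) := by exact_mod_cast hQ1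
  have h9 : (∑ x ∈ Icc (V - ((r.1 + r.2) * (Q₀ * q) * (X + 1) : ℕ)) (V + ((r.1 + r.2) * (Q₀ * q) * (X + 1) : ℕ)), |Fm (bd r) s l x - d x|) /
      (dn r.1 r.2 * (Q₀ * q : ℕ) * X) ≤ e / 2 := by
    rw [div_le_iff₀ (by positivity)]
    refine le_trans (h6.trans h5) ?_
    have e2 : ((2 * m * (Q₀ * q) * (X + 1) : ℕ) : ℝ) = 2 * m * ((Q₀ * q : ℕ) : ℝ) * (X + 1) := by push_cast; ring
    rw [e2]
    have h10 : 2 * (2 * (m : ℝ) * ((Q₀ * q : ℕ) : ℝ) * (X + 1)) * √ε₁ ≤ 8 * m * √ε₁ * (((Q₀ * q : ℕ) : ℝ) * X) := by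
      have h11 : (X : ℝ) + 1 ≤ 2 * X := by linarith
      have h12 : 0 ≤ 4 * (m : ℝ) * ((Q₀ * q : ℕ) : ℝ) * √ε₁ := by positivity
      nlinarith
    refine h10.trans ?_
    have h13 : 8 * (m : ℝ) * √ε₁ ≤ e / 2 * dn r.1 r.2 := by
      have h14 : e / 2 * (1 / (2 * (m : ℝ) ^ 2)) ≤ e / 2 * dn r.1 r.2 := mul_le_mul_of_nonneg_left hdn2 (by linarith)
      refine le_trans ?_ h14
      rw [mul_one_div, le_div_iff₀ (by positivity)]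
      nlinarith
    calc 8 * (m : ℝ) * √ε₁ * (((Q₀ * q : ℕ) : ℝ) * X) ≤ e / 2 * dn r.1 r.2 * (((Q₀ * q : ℕ) : ℝ) * X) := mul_le_mul_of_nonneg_right h13 (by positivity)
      _ = e / 2 * (dn r.1 r.2 * (Q₀ * q : ℕ) * X) := by ring
  have h20 := add_le_add h9 h2
  linarith

/-- clause (iii) -/
theorem MO_omd (hOMD : OMD_stmt) (r : ℕ × ℕ) (m Q₀ : ℕ) [NeZero Q₀] (d : ℤ → ℝ) (ε ε₁ : ℝ)
    (ha : 1 ≤ r.1) (hb : 1 ≤ r.2) (hab : Nat.Coprime r.1 r.2) (ham : r.1 ≤ m) (hbm : r.2 ≤ m) (h2ab : 2 * r.1 * r.2 ∣ Q₀)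
    (hd : ∀ x, 0 ≤ d x ∧ d x ≤ 1) (hdp : ∀ x k : ℤ, d (x + Q₀ * k) = d x) (hd0 : ∀ x, ¬ Lo r.1 r.2 x → d x = 0) (hε : 0 ≤ ε) (hε₁ : 8 * (m : ℝ) ^ 2 * ε₁ ≤ ε)
    (hsum : (3 / 4 * ε * dn r.1 r.2 - ε₁) * Q₀ ≤ ∑ k ∈ range Q₀, d (k : ℕ)) :
    ε / 2 ≤ mean fun z : (ZMod Q₀)ˣ × (ZMod Q₀)ˣ => om r.1 r.2 Q₀ z.1 z.2 * d ((r.1 : ℤ) * ((z.1 : ZMod Q₀).val : ℕ) - (r.2 : ℤ) * ((z.2 : ZMod Q₀).val : ℕ)) := by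
  have h1 := hOMD Q₀ r.1 r.2 d ha hb hab h2ab (fun x => (hd x).1) hdp hd0
  have h2 := le_trans hsum h1
  have hdn := dn_pos r.1 r.2 ha hb
  have hdn2 := dn_ge r.1 r.2 m ha hb ham hbm
  have hQ0 : (0 : ℝ) < Q₀ := by exact_mod_cast Nat.pos_of_ne_zero (NeZero.ne Q₀)
  have hm0 : (0 : ℝ) < m := by exact_mod_cast (by omega : 0 < m)
  have h3 : ε₁ ≤ ε / 4 * dn r.1 r.2 := by
    have h4 : ε / 4 * (1 / (2 * (m : ℝ) ^ 2)) ≤ ε / 4 * dn r.1 r.2 := mul_le_mul_of_nonneg_left hdn2 (by linarith)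
    refine le_trans ?_ h4
    rw [mul_one_div, le_div_iff₀ (by positivity)]
    nlinarith
  have h5 : ε / 2 * (dn r.1 r.2 * Q₀) ≤ dn r.1 r.2 * Q₀ * mean fun z : (ZMod Q₀)ˣ × (ZMod Q₀)ˣ => om r.1 r.2 Q₀ z.1 z.2 * d ((r.1 : ℤ) * ((z.1 : ZMod Q₀).val : ℕ) - (r.2 : ℤ) * ((z.2 : ZMod Q₀).val : ℕ)) := by
    refine le_trans ?_ h2
    have h6 : ε / 2 * (dn r.1 r.2 * Q₀) = (ε / 2 * dn r.1 r.2) * Q₀ := by ring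
    rw [h6]
    exact mul_le_mul_of_nonneg_right (by linarith) hQ0.le
  have h7 : 0 < dn r.1 r.2 * Q₀ := mul_pos hdn hQ0
  rw [mul_comm (ε / 2)] at h5
  exact le_of_mul_le_mul_left h5 h7

/-- clause (iv) -/
theorem MO_ort (hORT : Pool.Agent.FR.ORT_stmt) (r r' : ℕ × ℕ) (m D Q₀ q X l : ℕ) [NeZero Q₀] [NeZero q] (ρ : (ZMod Q₀)ˣ → (ZMod q)ˣ → ℤ) (V V' : ℤ) (ω ω' : (ZMod Q₀)ˣ × (ZMod Q₀)ˣ → ℝ)
    (ham : r.1 ≤ m) (hbm : r.2 ≤ m) (ham' : r'.1 ≤ m) (hbm' : r'.2 ≤ m) (hl : 1 ≤ l) (hX : 1 ≤ X) (hD : 0 < D)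
    (hne : (r.1 : ℤ) * r'.2 - r'.1 * r.2 ≠ 0) (hdvd : ((r.1 : ℤ) * r'.2 - r'.1 * r.2) ∣ (D : ℤ)) (hω : ∀ z, 0 ≤ ω z ∧ ω z ≤ 2) (hω' : ∀ z, 0 ≤ ω' z ∧ ω' z ≤ 2) (e : ℝ) (hXe : 16 * l * D * m ≤ e * X) :
    |mean fun p : Pl Q₀ q X × Pl Q₀ q X => (ω (p.1.1, p.2.1) * (Fm (bd r) (Q₀ * (q * D)) l (cc ρ V r.1 r.2 p) - bd r (cc ρ V r.1 r.2 p))) *
      (ω' (p.1.1, p.2.1) * (Fm (bd r') (Q₀ * (q * D)) l (cc ρ V' r'.1 r'.2 p) - bd r' (cc ρ V' r'.1 r'.2 p)))| ≤ e := by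
  have hX0 : (0 : ℝ) < X := by exact_mod_cast hX
  have he0 : 0 ≤ e := by
    have h1 : (0 : ℝ) ≤ 16 * l * D * m := by positivity
    by_contra h
    push Not at h
    nlinarith
  rw [MO_four]
  refine (PRJ_abs _).trans (MO_mono_const he0 fun z => ?_)
  rw [MO_four]
  refine (PRJ_abs _).trans (MO_mono_const he0 fun v => ?_)
  dsimp only
  obtain ⟨F, hF⟩ : ∃ F : ℤ → ℝ, F = fun y => bd r (V + (r.1 : ℤ) * ρ z.1 v.1 - (r.2 : ℤ) * ρ z.2 v.2 + (Q₀ * q : ℕ) * y) := ⟨_, rfl⟩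
  obtain ⟨G, hG⟩ : ∃ G : ℤ → ℝ, G = fun y => Fm (bd r') (Q₀ * (q * D)) l (V' + (r'.1 : ℤ) * ρ z.1 v.1 - (r'.2 : ℤ) * ρ z.2 v.2 + (Q₀ * q : ℕ) * y) -
      bd r' (V' + (r'.1 : ℤ) * ρ z.1 v.1 - (r'.2 : ℤ) * ρ z.2 v.2 + (Q₀ * q : ℕ) * y) := ⟨_, rfl⟩
  have h1 := hORT r.1 r.2 r'.1 r'.2 m D l X F G ham hbm ham' hbm' hl hX hD hne hdvd (fun y => by
      rw [hF]
      have := bd_bound r (V + (r.1 : ℤ) * ρ z.1 v.1 - (r.2 : ℤ) * ρ z.2 v.2 + (Q₀ * q : ℕ) * y)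
      exact abs_le.2 ⟨by linarith, this.2⟩) (fun y => by
      rw [hG]
      have h2 := bd_bound r' (V' + (r'.1 : ℤ) * ρ z.1 v.1 - (r'.2 : ℤ) * ρ z.2 v.2 + (Q₀ * q : ℕ) * y)
      have h3 := Fm_bound (bd r') (bd_bound r') (Q₀ * (q * D)) l (V' + (r'.1 : ℤ) * ρ z.1 v.1 - (r'.2 : ℤ) * ρ z.2 v.2 + (Q₀ * q : ℕ) * y)
      dsimp only
      exact abs_le.2 ⟨by linarith, by linarith⟩)
  have e1 : (mean fun w : Fin X × Fin X => (ω (z.1, z.2) * (Fm (bd r) (Q₀ * (q * D)) l (cc ρ V r.1 r.2 ((z.1, (v.1, w.1)), (z.2, (v.2, w.2)))) - bd r (cc ρ V r.1 r.2 ((z.1, (v.1, w.1)), (z.2, (v.2, w.2)))))) *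
      (ω' (z.1, z.2) * (Fm (bd r') (Q₀ * (q * D)) l (cc ρ V' r'.1 r'.2 ((z.1, (v.1, w.1)), (z.2, (v.2, w.2)))) - bd r' (cc ρ V' r'.1 r'.2 ((z.1, (v.1, w.1)), (z.2, (v.2, w.2))))))) =
      (-(ω (z.1, z.2) * ω' (z.1, z.2))) * mean (fun w : Fin X × Fin X => (F ((r.1 : ℤ) * ((w.1 : ℕ) : ℤ) - (r.2 : ℤ) * ((w.2 : ℕ) : ℤ)) -
        mean fun k : Fin l => F ((r.1 : ℤ) * ((w.1 : ℕ) : ℤ) - (r.2 : ℤ) * ((w.2 : ℕ) : ℤ) + D * ((k : ℕ) : ℤ))) * G ((r'.1 : ℤ) * ((w.1 : ℕ) : ℤ) - (r'.2 : ℤ) * ((w.2 : ℕ) : ℤ))) := by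
    rw [← PRJ_mul]
    congr 1
    funext w
    have e2 : Fm (bd r) (Q₀ * (q * D)) l (cc ρ V r.1 r.2 ((z.1, (v.1, w.1)), (z.2, (v.2, w.2)))) =
        mean fun k : Fin l => F ((r.1 : ℤ) * ((w.1 : ℕ) : ℤ) - (r.2 : ℤ) * ((w.2 : ℕ) : ℤ) + D * ((k : ℕ) : ℤ)) := by
      unfold Fm
      congr 1
      funext k
      rw [hF]
      unfold cc
      dsimp only
      congr 1
      push_cast
      ring
    have e3 : bd r (cc ρ V r.1 r.2 ((z.1, (v.1, w.1)), (z.2, (v.2, w.2)))) = F ((r.1 : ℤ) * ((w.1 : ℕ) : ℤ) - (r.2 : ℤ) * ((w.2 : ℕ) : ℤ)) := by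
      rw [hF]
      rfl
    have e4 : Fm (bd r') (Q₀ * (q * D)) l (cc ρ V' r'.1 r'.2 ((z.1, (v.1, w.1)), (z.2, (v.2, w.2)))) - bd r' (cc ρ V' r'.1 r'.2 ((z.1, (v.1, w.1)), (z.2, (v.2, w.2)))) =
        G ((r'.1 : ℤ) * ((w.1 : ℕ) : ℤ) - (r'.2 : ℤ) * ((w.2 : ℕ) : ℤ)) := by
      rw [hG]
      rfl
    rw [e2, e3, e4]
    ring
  rw [e1, abs_mul, abs_neg]
  have h4 : |ω (z.1, z.2) * ω' (z.1, z.2)| ≤ 4 := by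
    have h5 := hω (z.1, z.2)
    have h6 := hω' (z.1, z.2)
    rw [abs_mul, abs_of_nonneg h5.1, abs_of_nonneg h6.1]
    nlinarith
  refine le_trans (mul_le_mul h4 h1 (abs_nonneg _) (by norm_num)) ?_
  rw [← mul_div_assoc, div_le_iff₀ hX0]
  linarith

end Pool.Agent.DP
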