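import Pool.Agent.helper76.DP.MOD

/-!
# Project DP (MP_bf63dc_nt): the data with the variance
-/

set_option autoImplicit false

namespace Pool.Agent.DP

open Finset
open Pool.Agent.FR (mean Eig PRJ_add PRJ_sub PRJ_mul PRJ_sum PRJ_mono PRJ_nonneg PRJ_const PRJ_abs PRJ_le_const EXC_cop EXC_dvd)
open Pool.Agent.AT (Qk Pair)
open Pool.Agent.HF (Om TC NoTC)
open Pool.Agent.IT (Ad)

/-- the data of the counting argument, with error `e`; `Y` and `β` have nearly the same mean -/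
def Data2 {ρ : Type} (R : Finset ρ) (ε e : ℝ) : Prop := ∃ (Φ Z W : Type) (_ : Fintype Φ) (_ : Fintype Z) (_ : Fintype W) (_ : Nonempty Φ) (_ : Nonempty Z) (_ : Nonempty W)
  (A : Φ → Z × W → ℝ) (g : ρ → Equiv.Perm Φ) (Y β : ρ → (Z × W) × (Z × W) → ℝ) (ω d : ρ → Z × Z → ℝ),
  (∀ φ x, 0 ≤ A φ x ∧ A φ x ≤ 1) ∧ (∀ φ z, (mean fun w => A φ (z, w)) ≤ 1 / 2) ∧ (∀ z, 1 / 4 + 3 / 2000000 ≤ mean fun φ => mean fun w => A φ (z, w)) ∧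
  ∀ r ∈ R, (∀ p, 0 ≤ Y r p ∧ Y r p ≤ 1) ∧ (∀ p, 0 ≤ β r p ∧ β r p ≤ 1) ∧ (∀ z, 0 ≤ ω r z ∧ ω r z ≤ 2) ∧ (∀ z, 0 ≤ d r z ∧ d r z ≤ 1) ∧
    (mean fun φ => mean fun p : (Z × W) × (Z × W) => A (g r φ) p.1 * A φ p.2 * Y r p) ≤ e ∧
    (mean fun p : (Z × W) × (Z × W) => ω r (p.1.1, p.2.1) * Y r p) ≤ (mean fun p : (Z × W) × (Z × W) => ω r (p.1.1, p.2.1) * β r p) + e ∧
    (mean fun p : (Z × W) × (Z × W) => ω r (p.1.1, p.2.1) * |β r p - d r (p.1.1, p.2.1)|) ≤ e ∧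
    ε / 2 ≤ (mean fun z => ω r z * d r z) ∧
    ∀ r' ∈ R, r ≠ r' → |mean fun p : (Z × W) × (Z × W) => (ω r (p.1.1, p.2.1) * (β r p - Y r p)) * (ω r' (p.1.1, p.2.1) * (β r' p - Y r' p))| ≤ e

def MOD2_stmt : Prop := ∀ (R : Finset (ℕ × ℕ)) (ε : ℝ), 0 < ε → ε ≤ 1 → (∀ r ∈ R, 1 ≤ r.1 ∧ 1 ≤ r.2 ∧ Nat.Coprime r.1 r.2 ∧ r ≠ (1, 1) ∧ ¬ GoodD ε r.1 r.2) → ∀ e : ℝ, 0 < e → Data2 R ε e

/-- the means of `Y` and `β` -/
theorem MO_one (hORT : Pool.Agent.FR.ORT_stmt) (r : ℕ × ℕ) (m D Q₀ q X l : ℕ) [NeZero Q₀] [NeZero q] (ρ : (ZMod Q₀)ˣ → (ZMod q)ˣ → ℤ) (V : ℤ) (ω : (ZMod Q₀)ˣ × (ZMod Q₀)ˣ → ℝ)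
    (hm1 : 1 ≤ m) (hb : 1 ≤ r.2) (ham : r.1 ≤ m) (hbm : r.2 ≤ m) (hl : 1 ≤ l) (hX : 1 ≤ X) (hD : 0 < D)
    (hdvd : ((r.1 : ℤ) * ((0 : ℕ) : ℤ) - ((1 : ℕ) : ℤ) * r.2) ∣ (D : ℤ)) (hω : ∀ z, 0 ≤ ω z ∧ ω z ≤ 2) (e : ℝ) (hXe : 16 * l * D * m ≤ e * X) :
    (mean fun p : Pl Q₀ q X × Pl Q₀ q X => ω (p.1.1, p.2.1) * bd r (cc ρ V r.1 r.2 p)) ≤
      (mean fun p : Pl Q₀ q X × Pl Q₀ q X => ω (p.1.1, p.2.1) * Fm (bd r) (Q₀ * (q * D)) l (cc ρ V r.1 r.2 p)) + e := by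
  have hX0 : (0 : ℝ) < X := by exact_mod_cast hX
  have he0 : 0 ≤ e := by
    have h1 : (0 : ℝ) ≤ 16 * l * D * m := by positivity
    by_contra h
    push Not at h
    nlinarith
  have hne : (r.1 : ℤ) * ((0 : ℕ) : ℤ) - ((1 : ℕ) : ℤ) * r.2 ≠ 0 := by
    push_cast
    omega
  have key : (mean fun p : Pl Q₀ q X × Pl Q₀ q X => ω (p.1.1, p.2.1) * bd r (cc ρ V r.1 r.2 p) - ω (p.1.1, p.2.1) * Fm (bd r) (Q₀ * (q * D)) l (cc ρ V r.1 r.2 p)) ≤ e := by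
    rw [MO_four]
    refine MO_mono_const he0 fun z => ?_
    rw [MO_four]
    refine MO_mono_const he0 fun v => ?_
    dsimp only
    obtain ⟨F, hF⟩ : ∃ F : ℤ → ℝ, F = fun y => bd r (V + (r.1 : ℤ) * ρ z.1 v.1 - (r.2 : ℤ) * ρ z.2 v.2 + (Q₀ * q : ℕ) * y) := ⟨_, rfl⟩
    have h1 := hORT r.1 r.2 1 0 m D l X F (fun _ => 1) ham hbm hm1 (Nat.zero_le _) hl hX hD hne hdvd (fun y => by
        rw [hF]
        have := bd_bound r (V + (r.1 : ℤ) * ρ z.1 v.1 - (r.2 : ℤ) * ρ z.2 v.2 + (Q₀ * q : ℕ) * y)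
        exact abs_le.2 ⟨by linarith, this.2⟩) (fun y => by norm_num)
    have e1 : (mean fun w : Fin X × Fin X => ω (z.1, z.2) * bd r (cc ρ V r.1 r.2 ((z.1, (v.1, w.1)), (z.2, (v.2, w.2)))) -
        ω (z.1, z.2) * Fm (bd r) (Q₀ * (q * D)) l (cc ρ V r.1 r.2 ((z.1, (v.1, w.1)), (z.2, (v.2, w.2))))) =
        ω (z.1, z.2) * mean (fun w : Fin X × Fin X => (F ((r.1 : ℤ) * ((w.1 : ℕ) : ℤ) - (r.2 : ℤ) * ((w.2 : ℕ) : ℤ)) -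
          mean fun k : Fin l => F ((r.1 : ℤ) * ((w.1 : ℕ) : ℤ) - (r.2 : ℤ) * ((w.2 : ℕ) : ℤ) + D * ((k : ℕ) : ℤ))) * 1) := by
      rw [← PRJ_mul]
      congr 1
      funext w
      have e2 : Fm (bd r) (Q₀ * (q * D)) l (cc ρ V r.1 r.2 ((z.1, (v.1, w.1)), (z.2, (v.2, w.2)))) =
          mean fun k : Fin l => F ((r.1 : ℤ) * ((w.1 : ℕ) : ℤ) - (r.2 : ℤ) * ((w.2 : ℕ) : ℤ) + D * ((k : ℕ) : ℤ)) := by
        unfold Fm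
        congr 1
        funext k
        rw [hF]
        unfold cc
        dsimp only
        congr 1
        push_cast
        ring
      have e3 : bd r (cc ρ V r.1 r.2 ((z.1, (v.1, w.1)), (z.2, (v.2, w.2)))) = F ((r.1 : ℤ) * ((w.1 : ℕ) : ℤ) - (r.2 : ℤ) * ((w.2 : ℕ) : ℤ)) := by
        rw [hF]
        rfl
      rw [e2, e3]
      ring
    rw [e1]
    have h5 := hω (z.1, z.2)
    have h2 := (abs_le.1 h1).2
    refine le_trans (mul_le_mul_of_nonneg_left h2 h5.1) ?_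
    have h6 : (0 : ℝ) ≤ 4 * l * D * m / X := by positivity
    refine le_trans (mul_le_mul_of_nonneg_right h5.2 h6) ?_
    rw [← mul_div_assoc, div_le_iff₀ hX0]
    have h7 : (0 : ℝ) ≤ (l : ℝ) * D * m := by positivity
    linarith
  rw [PRJ_sub] at key
  linarith

theorem MOD2 (hREG : REG_stmt) (hLAW : LAW_stmt) (hOMD : OMD_stmt) (hCRA : CRA_stmt) (hADC : ADC_stmt) (hMMX : MMX_stmt) (hIDX : IDX_stmt) (hFCR : FCR_stmt) (hORT : Pool.Agent.FR.ORT_stmt) : MOD2_stmt := by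
  classical
  intro R ε hε hε1 hR e he
  obtain ⟨m, hm1, hm⟩ : ∃ m : ℕ, 1 ≤ m ∧ ∀ r ∈ R, r.1 ≤ m ∧ r.2 ≤ m := by
    refine ⟨1 + ∑ r ∈ R, (r.1 + r.2), by omega, fun r hr => ?_⟩
    have h1 : r.1 + r.2 ≤ ∑ r ∈ R, (r.1 + r.2) := single_le_sum (f := fun r : ℕ × ℕ => r.1 + r.2) (fun _ _ => Nat.zero_le _) hr
    omega
  have hm0 : (0 : ℝ) < m := by exact_mod_cast hm1
  obtain ⟨y, hy2, hye⟩ : ∃ y : ℕ, 2 ≤ y ∧ 80 * (m : ℝ) ≤ e * y := by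
    refine ⟨⌈80 * (m : ℝ) / e⌉₊ + 2, by omega, ?_⟩
    have h1 := Nat.le_ceil (80 * (m : ℝ) / e)
    rw [div_le_iff₀ he] at h1
    push_cast
    nlinarith
  obtain ⟨ε₁, hε₁0, hε₁1, hε₁a, hε₁b⟩ := MO_const ε e m hε he hm1
  obtain ⟨Qb, hQbdef⟩ : ∃ Qb : ℕ, Qb = y.factorial * ∏ r ∈ R, (2 * r.1 * r.2) := ⟨_, rfl⟩
  have hQb1 : 1 ≤ Qb := by
    rw [hQbdef]
    exact Nat.mul_pos (Nat.factorial_pos _) (Finset.prod_pos fun r hr => Nat.mul_pos (Nat.mul_pos two_pos (hR r hr).1) (hR r hr).2.1)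
  obtain ⟨Q₀, hQ₀1, hQb, hq⟩ := hREG ↥R (fun i => bd i.1) (fun i => 3 / 4 * ε * dn i.1.1 i.1.2) ε₁ Qb hε₁0 hε₁1 hQb1 (fun i x => bd_bound _ x)
    (fun i L₀ => MO_dense hADC i.1 ε hε (hR i.1 i.2).1 (hR i.1 i.2).2.1 (hR i.1 i.2).2.2.1 (hR i.1 i.2).2.2.2.2 L₀)
  have : NeZero Q₀ := ⟨by omega⟩
  have h2ab : ∀ r ∈ R, 2 * r.1 * r.2 ∣ Q₀ := by
    intro r hr
    refine dvd_trans ?_ hQb
    rw [hQbdef]
    exact (Finset.dvd_prod_of_mem (fun r : ℕ × ℕ => 2 * r.1 * r.2) hr).mul_left _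
  have hyQ : ∀ p : ℕ, p.Prime → p ≤ y → p ∣ Q₀ := by
    intro p hp hpy
    refine dvd_trans ?_ hQb
    rw [hQbdef]
    exact (Nat.dvd_factorial hp.pos hpy).mul_right _
  obtain ⟨G, w, g, P, hG1, hP1, hw1, hwp, hV⟩ := hIDX R (e / 2) (by linarith) (fun r hr => ⟨(hR r hr).1, (hR r hr).2.1, (hR r hr).2.2.1⟩)
  obtain ⟨N', hN', hmm⟩ := hMMX (ZMod Q₀)ˣ (1 / 10 ^ 7) (by norm_num)
  obtain ⟨δF, hδF⟩ : ∃ δF : ℝ, δF = min (1 / 10 ^ 7) (e / 2) := ⟨_, rfl⟩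
  have hδF0 : 0 < δF := by
    rw [hδF]
    exact lt_min (by norm_num) (by linarith)
  have hδF1 : δF ≤ 1 / 10 ^ 7 := by
    rw [hδF]
    exact min_le_left _ _
  have hδF2 : δF ≤ e / 2 := by
    rw [hδF]
    exact min_le_right _ _
  obtain ⟨k, hk⟩ := hFCR G N' w δF hG1 hN' hδF0 hw1
  obtain ⟨q, hq1, hcop, hqp, hQk⟩ := MO_q Q₀ k
  have : NeZero q := ⟨by omega⟩
  have hqy : ∀ p : ℕ, p.Prime → p ∣ q → y < p := by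
    intro p hp hpq
    by_contra hcon
    exact hqp p hp hpq (hyQ p hp (not_lt.1 hcon))
  obtain ⟨D, hD⟩ : ∃ D : ℕ, D = (m ^ 2).factorial := ⟨_, rfl⟩
  have hD0 : 0 < D := by
    rw [hD]
    exact Nat.factorial_pos _
  obtain ⟨l, hl1, hP'⟩ := hq (q * D) (Nat.mul_pos hq1 hD0)
  obtain ⟨S, hS⟩ := hk (Q₀ * q) (Nat.mul_pos hQ₀1 hq1) hQk (fun γ p hp hpw => by
    obtain ⟨r, hr, hd⟩ := hwp γ p hp hpw
    have h1 : p ∣ Q₀ := dvd_trans (dvd_trans hd ⟨2, by ring⟩) (h2ab r hr)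
    exact h1.mul_right _)
  obtain ⟨X₁, hX₁⟩ := hP' (Q₀ * q * P) (Nat.mul_pos (Nat.mul_pos hQ₀1 hq1) hP1)
  obtain ⟨X, hX1, hXX, hXe, hXS⟩ : ∃ X : ℕ, 1 ≤ X ∧ X₁ ≤ X ∧ 16 * l * D * m ≤ e * X ∧ 10 ^ 7 * S ≤ X := by
    refine ⟨X₁ + ⌈16 * (l : ℝ) * D * m / e⌉₊ + 10 ^ 7 * S + 1, by omega, by omega, ?_, by omega⟩
    have h1 := Nat.le_ceil (16 * (l : ℝ) * D * m / e)
    rw [div_le_iff₀ he] at h1
    push_cast
    have h2 : (0 : ℝ) ≤ X₁ := Nat.cast_nonneg _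
    have h3 : (0 : ℝ) ≤ S := Nat.cast_nonneg _
    nlinarith
  have hXe' : 16 * l * D * m ≤ e * (X + S : ℕ) := by
    push_cast
    have h3 : (0 : ℝ) ≤ S := Nat.cast_nonneg _
    nlinarith
  have hXS1 : 1 ≤ X + S := by omega
  have hwin : X₁ ≤ 2 * m * (Q₀ * q) * (X + S + 1) := by
    have h1 : 1 ≤ 2 * m * (Q₀ * q) := Nat.mul_pos (by omega) (Nat.mul_pos hQ₀1 hq1)
    calc X₁ ≤ 1 * (X + S + 1) := by omega
      _ ≤ 2 * m * (Q₀ * q) * (X + S + 1) := Nat.mul_le_mul_right _ h1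
  have hVd : ∀ r : ℕ × ℕ, ∃ (V : ℤ) (d : ℤ → ℝ), r ∈ R → (((Q₀ * q * P : ℕ) : ℤ) ∣ V ∧ (∀ x, 0 ≤ d x ∧ d x ≤ 1) ∧ (∀ x k : ℤ, d (x + Q₀ * k) = d x) ∧ (∀ x, (∀ k : ℤ, bd r (x + Q₀ * k) = 0) → d x = 0) ∧
      (3 / 4 * ε * dn r.1 r.2 - ε₁) * Q₀ ≤ ∑ k ∈ range Q₀, d (k : ℕ) ∧
      ∑ x ∈ Icc (V - (2 * m * (Q₀ * q) * (X + S + 1) : ℕ)) (V + (2 * m * (Q₀ * q) * (X + S + 1) : ℕ)), (Fm (bd r) (Q₀ * (q * D)) l x - d x) ^ 2 ≤ ε₁ * (2 * m * (Q₀ * q) * (X + S + 1) : ℕ)) := by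
    intro r
    by_cases hr : r ∈ R
    · obtain ⟨V, d, h1⟩ := hX₁ _ hwin ⟨r, hr⟩
      exact ⟨V, d, fun _ => h1⟩
    · exact ⟨0, 0, fun h => absurd h hr⟩
  choose V d hVd using hVd
  obtain ⟨o, hoQ, ho⟩ := hV V ((Q₀ * q : ℕ) : ℤ) (fun r hr => by
    have h1 := (hVd r hr).1
    have h2 : ((Q₀ * q : ℕ) : ℤ) * P = ((Q₀ * q * P : ℕ) : ℤ) := by push_cast; ring
    rw [h2]
    exact h1)
  have hQV : ∀ r ∈ R, ((Q₀ * q : ℕ) : ℤ) ∣ V r := by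
    intro r hr
    refine dvd_trans ?_ (hVd r hr).1
    exact_mod_cast (dvd_mul_right (Q₀ * q) P)
  obtain ⟨ρ, hρ⟩ := MO_rep Q₀ q hcop
  have hcp : ∀ γ z v, IsCoprime (o γ + ρ z v) ((Q₀ * q : ℕ) : ℤ) := by
    intro γ z v
    have h1 := MO_unit Q₀ (ρ z v) z (hρ z v).1
    have h2 := MO_unit q (ρ z v) v (hρ z v).2.1
    have h3 : IsCoprime (ρ z v) ((Q₀ * q : ℕ) : ℤ) := by
      push_cast
      exact h1.mul_right h2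
    obtain ⟨t, ht⟩ := hoQ γ
    rw [ht, add_comm]
    exact h3.add_mul_left_left t
  have hf := fun lam : Fin N' → (ZMod Q₀)ˣ => hS (ZMod q)ˣ X hX1 (fun γ i v => o γ + ρ (lam i) v) (fun γ i v => hcp γ (lam i) v)
  choose f hf1 hf2 hf3 hf4 using hf
  have hWne : Nonempty ((ZMod q)ˣ × Fin (X + S)) := ⟨(1, ⟨0, hXS1⟩)⟩
  have hsumle : ∀ (lam : Fin N' → (ZMod Q₀)ˣ) (γ : Fin G) (i : Fin N'), ∑ ξ, f lam γ i ξ ≤ Fintype.card ((ZMod q)ˣ × Fin (X + S)) := by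
    intro lam γ i
    refine (hf2 lam γ i).trans ?_
    rw [Fintype.card_prod, Fintype.card_fin]
    push_cast
    have h3 : (0 : ℝ) ≤ S := Nat.cast_nonneg _
    exact mul_le_mul_of_nonneg_left (by linarith) (Nat.cast_nonneg _)
  obtain ⟨T, Λ, hT1, hΛ, hav⟩ := hmm (1 / 2 + 32 / 10 ^ 7) (fun lam z => 2 * mean fun γ : Fin G => mean fun ξ => Ac lam (f lam γ) (z, ξ))
    (fun lam z => ⟨mul_nonneg (by norm_num) (PRJ_nonneg fun γ => PRJ_nonneg fun ξ => (Ac_bound lam (f lam γ) (hf1 lam γ) _).1), by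
      have h1 : (mean fun γ : Fin G => mean fun ξ => Ac lam (f lam γ) (z, ξ)) ≤ 1 / 2 := MO_mono_const (by norm_num) fun γ => Ac_mean lam (f lam γ) (hsumle lam γ) z
      linarith⟩)
    (fun lam _ => MO_list hG1 hN' hX1 hXS lam (f lam) δF hδF1 (hf3 lam))
  have hTne : Nonempty (Fin T) := ⟨⟨0, hT1⟩⟩
  have hGne : Nonempty (Fin G) := ⟨⟨0, hG1⟩⟩
  refine ⟨Fin T × Fin G, (ZMod Q₀)ˣ, (ZMod q)ˣ × Fin (X + S), inferInstance, inferInstance, inferInstance, inferInstance, inferInstance, inferInstance,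
    fun φ x => Ac (Λ φ.1) (f (Λ φ.1) φ.2) x, fun r => Equiv.prodCongr (Equiv.refl _) (g r), fun r p => bd r (cc ρ (V r) r.1 r.2 p),
    fun r p => Fm (bd r) (Q₀ * (q * D)) l (cc ρ (V r) r.1 r.2 p), fun r z => om r.1 r.2 Q₀ z.1 z.2,
    fun r z => d r ((r.1 : ℤ) * ((z.1 : ZMod Q₀).val : ℕ) - (r.2 : ℤ) * ((z.2 : ZMod Q₀).val : ℕ)), ?_, ?_, ?_, ?_⟩
  · intro φ x
    exact Ac_bound _ _ (hf1 _ _) _
  · intro φ z
    exact Ac_mean _ _ (hsumle _ _) z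
  · intro z
    have h1 := hav z
    rw [PRJ_mul] at h1
    rw [MO_prod]
    have h2 : (mean fun x : Fin T => mean fun y : Fin G => mean fun w => Ac (Λ x) (f (Λ x) y) (z, w)) ≥ 1 / 4 + 3 / 2000000 := by linarith
    exact h2
  · intro r hr
    obtain ⟨hra, hrb, hrab, hrne, -⟩ := hR r hr
    obtain ⟨hd1, hd2, hd3, hd4, hd5, hd6⟩ := hVd r hr
    obtain ⟨hrm1, hrm2⟩ := hm r hr
    have hom := fun z : (ZMod Q₀)ˣ × (ZMod Q₀)ˣ => (hCRA Q₀ r.1 r.2 hra hrb hrab (h2ab r hr) z.1 z.2).2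
    refine ⟨fun p => bd_bound _ _, fun p => Fm_bound _ (bd_bound r) _ _ _, hom, fun z => hd2 _, ?_, ?_, ?_, ?_, ?_⟩
    · -- the correlation
      rw [MO_prod]
      refine MO_mono_const he.le fun τ => ?_
      dsimp only
      have h1 : ∀ γ : Fin G, (mean fun p : Pl Q₀ q (X + S) × Pl Q₀ q (X + S) => Ac (Λ τ) (f (Λ τ) (g r γ)) p.1 * Ac (Λ τ) (f (Λ τ) γ) p.2 * bd r (cc ρ (V r) r.1 r.2 p)) ≤
          δF + (if ¬ (g r γ ≠ γ ∧ r.1 * w (g r γ) = r.2 * w γ ∧ (r.1 : ℤ) * o (g r γ) - r.2 * o γ = V r) then 1 else 0) := by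
        intro γ
        by_cases hγ : g r γ ≠ γ ∧ r.1 * w (g r γ) = r.2 * w γ ∧ (r.1 : ℤ) * o (g r γ) - r.2 * o γ = V r
        · rw [if_neg (not_not.2 hγ), add_zero]
          exact MO_corr r hrb hrab hrne ρ (V r) w o hw1 (Λ τ) (f (Λ τ)) δF hδF0.le hXS1 (fun γ i ξ => (hf1 _ _ _ _).1) (hf4 (Λ τ)) γ (g r γ) hγ.1 hγ.2.1 hγ.2.2
        · rw [if_pos hγ]
          refine (MO_mono_const zero_le_one fun p => ?_).trans (by linarith)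
          have a1 := Ac_bound (Λ τ) (f (Λ τ) (g r γ)) (hf1 _ _) p.1
          have a2 := Ac_bound (Λ τ) (f (Λ τ) γ) (hf1 _ _) p.2
          have a3 := bd_bound r (cc ρ (V r) r.1 r.2 p)
          calc Ac (Λ τ) (f (Λ τ) (g r γ)) p.1 * Ac (Λ τ) (f (Λ τ) γ) p.2 * bd r (cc ρ (V r) r.1 r.2 p) ≤ 1 * 1 :=
                mul_le_mul (mul_le_one₀ a1.2 a2.1 a2.2) a3.2 a3.1 zero_le_one
            _ = 1 := one_mul 1
      refine (PRJ_mono h1).trans ?_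
      rw [PRJ_add, PRJ_const]
      have h2 := ho r hr
      have h3 : (mean fun γ : Fin G => (if ¬ (g r γ ≠ γ ∧ r.1 * w (g r γ) = r.2 * w γ ∧ (r.1 : ℤ) * o (g r γ) - r.2 * o γ = V r) then (1 : ℝ) else 0)) ≤ e / 2 := by
        unfold mean
        rw [Finset.sum_boole, Fintype.card_fin, div_le_iff₀ (by exact_mod_cast hG1)]
        exact h2
      linarith
    · exact MO_one hORT r m D Q₀ q (X + S) l ρ (V r) (fun z => om r.1 r.2 Q₀ z.1 z.2) hm1 hrb hrm1 hrm2 hl1 hXS1 hD0 (by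
        rw [hD]
        have h0 : (r.1 : ℤ) * ((0 : ℕ) : ℤ) - ((1 : ℕ) : ℤ) * r.2 ≠ 0 := by
          push_cast
          omega
        exact EXC_dvd r.1 r.2 1 0 m hrm1 hrm2 hm1 (Nat.zero_le _) h0) hom e hXe'
    · exact MO_law hLAW r m Q₀ q y (X + S) (Q₀ * (q * D)) l ρ (V r) (d r) e ε₁ he hε₁0.le hra hrb hrab hrm1 hrm2 (h2ab r hr) hcop hy2 hqy hXS1 hρ (hQV r hr) hd2 hd3 hye hε₁b hd6
    · exact MO_omd hOMD r m Q₀ (d r) ε ε₁ hra hrb hrab hrm1 hrm2 (h2ab r hr) hd2 hd3 (MO_d0 hADC r Q₀ hra hrb hrab (h2ab r hr) (d r) hd4) hε.le hε₁a hd5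
    · intro r' hr' hrr
      obtain ⟨hra', hrb', hrab', hrne', -⟩ := hR r' hr'
      obtain ⟨hrm1', hrm2'⟩ := hm r' hr'
      have h0 : (r.1 : ℤ) * r'.2 - r'.1 * r.2 ≠ 0 := by
        intro h
        obtain ⟨h6, h7⟩ := EXC_cop _ _ _ _ hra hrab hrab' h
        exact hrr (Prod.ext h6 h7)
      have hdv : ((r.1 : ℤ) * r'.2 - r'.1 * r.2) ∣ (D : ℤ) := by
        rw [hD]
        exact EXC_dvd _ _ _ _ m hrm1 hrm2 hrm1' hrm2' h0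
      have hom' := fun z : (ZMod Q₀)ˣ × (ZMod Q₀)ˣ => (hCRA Q₀ r'.1 r'.2 hra' hrb' hrab' (h2ab r' hr') z.1 z.2).2
      exact MO_ort hORT r r' m D Q₀ q (X + S) l ρ (V r) (V r') (fun z => om r.1 r.2 Q₀ z.1 z.2) (fun z => om r'.1 r'.2 Q₀ z.1 z.2) hrm1 hrm2 hrm1' hrm2' hl1 hXS1 hD0 h0 hdv hom hom' e hXe'

end Pool.Agent.DP
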