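import Pool.Agent.helper19.HF.SpecD
import Pool.Agent.helper19.FR.Spec

/-!
# Project DP (MP_bf63dc_nt, rows `dp:*`): ALMOST ALL `c` FOR ALL BUT FINITELY MANY PAIRS `(a, b)`, OR POWER SAVING FOR `(1, 1)`

GOAL. If (A*) fails (`NoTC`) then for every `ε > 0` all coprime pairs `(a, b)` with at most `10^129/ε^18` exceptions satisfy: in EVERY interval of length `≥ L₀(a, b, ε)` all but the proportion `ε` of the `c` with the conditions of Q1 are true.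

PROOF. Let `R` be a finite set of exceptional pairs. (IDX) a finite set of slopes `w_γ` and offsets `o_γ` with permutations `g_r` such that for almost all `γ`: `a w_(gγ) = b w_γ` and `a o_(gγ) - b o_γ = V_r`: so the equation `a p - b q = c` is tested near ANY prescribed location `V_r`.
(REG) energy: a modulus `Q₀` and locations `V_r` such that near `V_r` the local densities of the set of the bad `c` along all progressions of a prescribed finer step are almost functions `d_r` of the class modulo `Q₀`, and the mean of `d_r` is `≥ (3/4) ε` times the density of the admissible `c`.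
(FCR) blocks `(γ, i)`, `i < N'`, in the cell (unit `z` modulo `Q₀`) `λ i`; every place has two forms with constants `h + x_i'`, `h + y_j'` from the two clusters of `NoTC`; at most one of them is in a clique, so cliques of density `> 1/4` (theorem Q) give functions of the blocks with mean `≤ 1` and average `≥ 2 α` and almost no bad pairs.
(MMX) by a minimax argument over the lists `λ` all cells have average `≥ 2 α - small > 1/2`. (LOWC) so the functions correlate with bad minus local density for every `r ∈ R`; weights `om` make the classes of `c` uniform. (CORE) this is impossible for more than `C/ε^18` pairs (spectral theorem and Bessel's inequality; different pairs are orthogonal).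

RULES. Row `XX`: file `Pool/Agent/<seat>/DP/XX.lean`, `import Pool.Agent.helper76.DP.Spec` (and Mathlib), `namespace Pool.Agent.DP`, `theorem XX (hYY : YY_stmt) ... : XX_stmt` (exact lines in the lock notes), auxiliary lemmas prefixed `XX_`. No `convert`, no `congr!`, no `native_decide`, no straight double quotes. `#` is `Finset.card`; `mean f = (∑ x, f x)/card`.
-/

set_option autoImplicit false

namespace Pool.Agent.DP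

open Finset
open Pool.Agent.FR (mean Eig)
open Pool.Agent.AT (Qk Pair)
open Pool.Agent.HF (Om TC NoTC)
open Pool.Agent.IT (Ad)

/-! ## Part 1: regularity (pure) -/

/-- the mean of `l` terms of the progression of step `Q` from `x` -/
noncomputable def Fm (f : ℤ → ℝ) (Q l : ℕ) (x : ℤ) : ℝ := mean fun k : Fin l => f (x + (Q : ℤ) * ((k : ℕ) : ℤ))

/-- the energy of the tile `[y, y + Q l)` -/
noncomputable def en (f : ℤ → ℝ) (η : ℝ) (Q l : ℕ) (y : ℤ) : ℝ :=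
  mean fun κ : Fin Q => Fm f Q l (y + ((κ : ℕ) : ℤ)) + η * Fm f Q l (y + ((κ : ℕ) : ℤ)) ^ 2

/-- **RGI** (short-medium; pure). (1) `k < q l j` is `k = s + q (k' + l i)` with `s < q`, `k' < l`, `i < j`, so `Fm f Q (q l j) x = mean_(i, s) Fm f (Q q) l (x + Q s + Q q l i)`. (2) `κ' < Q q` is `κ' = κ + Q s`, so `en f η (Q q) l y' = mean_κ mean_s (G + η G^2)`, `G = Fm f (Q q) l (y' + κ + Q s)`.
(3) For fixed `κ` let `m` be the mean over `(i, s)` of `G_(i,s) = Fm f (Q q) l (y + κ + Q s + Q q l i)`; the mean of `G + η G^2` is `m + η m^2 + η mean (G - m)^2`, and `m = Fm f Q (q l j) (y + κ)` by (1). Average over `κ`. (`finProdFinEquiv` for the bijections, or multiply out and use sums over `range`.) -/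
def RGI_stmt : Prop := ∀ (f : ℤ → ℝ) (η : ℝ) (Q q l j : ℕ) (y : ℤ), 1 ≤ Q → 1 ≤ q → 1 ≤ l → 1 ≤ j →
  (mean fun i : Fin j => en f η (Q * q) l (y + (Q * q * l : ℕ) * ((i : ℕ) : ℤ))) = en f η Q (q * l * j) y +
    η * mean fun z : Fin j × Fin Q × Fin q => (Fm f (Q * q) l (y + ((z.2.1 : ℕ) : ℤ) + Q * ((z.2.2 : ℕ) : ℤ) + (Q * q * l : ℕ) * ((z.1 : ℕ) : ℤ)) - Fm f Q (q * l * j) (y + ((z.2.1 : ℕ) : ℤ))) ^ 2

/-- **REG** (medium-long; from RGI; pure). `η = ε₁/2`, `ε₂ = ε₁^2/72`. `E i Q = inf_(l ≥ 1) sup_y en (f i) η Q l y ∈ [0, 2]`. (a) `sup_y en (Q, l j) ≤ sup_y en (Q, l)` (RGI with `q = 1`) and `E i Q ≤ E i (Q q)` (RGI with `j = 1`: `en (Q, q l, y) ≤ en (Q q, l, y)`). (b) `E i Q ≥ δ i`: `en f η Q l y` is at least the mean of `f` on the tile `[y, y + Q l)`; if all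
tiles had mean `≤ s < δ i` then all sums over `L` consecutive integers would be `≤ s L + Q l`, against the hypothesis for large `L`. (c) The suprema over `Q` are `≤ 2`: choose `Q_i ≥ 1` with `E i Q ≤ E i Q_i + ε₂` for all `Q ≥ 1`, and `Q₀ = Qb ∏ Q_i`: then `E i (Q₀ q) ≤ E i Q₀ + ε₂` for all `q ≥ 1`. (d) Given `q` choose `l_i` with
`sup_y en (Q₀ q, l_i) ≤ E i (Q₀ q) + ε₂` and `l = ∏ l_i`: by (a) `en (f i) η (Q₀ q) l y ≤ E i Q₀ + 2 ε₂` for all `i`, `y`. (e) Given `Π` let `X ≥ X₁` (large), `j = (2 X + 1 + Π)/(Q₀ q l) + 1`, `T = Q₀ q l j`, so `2 X + 1 + Π ≤ T ≤ 3 X` and `j ≥ 100/ε₁^2`. Choose `y` with `en (f i) η Q₀ (q l j) y ≥ E i Q₀ - ε₂`, `V` the multiple of `Π` with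
`y + X ≤ V < y + X + Π`: `[V - X, V + X] ⊆ [y, y + T)`. `d x = Fm (f i) Q₀ (q l j) (y + (x - y) % Q₀)`: periodic modulo `Q₀`, in `[0, 1]`, `0` if `f i` vanishes on the class of `x`. `∑_(k < Q₀) d k = Q₀ mean_κ Fm (f i) Q₀ (q l j) (y + κ) ≥ Q₀ (en - η) ≥ Q₀ (δ i - ε₂ - ε₁/2)`. (f) For `s₀ < l` let `y' = y + Q₀ q s₀`. The means over `q l j` terms at
`y' + κ` and `y + κ` differ by at most `q s₀/(q l j) ≤ 1/j`, so `en (f i) η Q₀ (q l j) y' ≥ E i Q₀ - ε₂ - 2/j`, and RGI at `y'` gives `mean_(i',κ,s) (Fm (f i) (Q₀ q) l (y' + κ + Q₀ s + Q₀ q l i') - Fm (f i) Q₀ (q l j) (y' + κ))^2 ≤ (3 ε₂ + 2/j)/η`. Replace the last term by `d = Fm (f i) Q₀ (q l j) (y + κ)`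
(`(A - D)^2 ≤ 2 (A - B)^2 + 2 (B - D)^2`, `|B - D| ≤ 1/j`) and sum over `s₀, i', κ, s`: the points `x = y + κ + Q₀ (s + q (s₀ + l i'))` run through `[y, y + T)` exactly once. So `∑_(x ∈ [y, y + T)) (Fm (f i) (Q₀ q) l x - d x)^2 ≤ T (2 (3 ε₂ + 2/j)/η + 2/j^2) ≤ 3 X (12 ε₂/ε₁ + 8/(j ε₁) + 2/j^2) ≤ ε₁ X`. -/
def REG_stmt : Prop := ∀ (ι : Type) [Fintype ι] (f : ι → ℤ → ℝ) (δ : ι → ℝ) (ε₁ : ℝ) (Qb : ℕ), 0 < ε₁ → ε₁ ≤ 1 → 1 ≤ Qb → (∀ i x, 0 ≤ f i x ∧ f i x ≤ 1) →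
  (∀ i, ∀ L₀ : ℕ, ∃ L : ℕ, L₀ ≤ L ∧ ∃ y : ℤ, δ i * L ≤ ∑ k ∈ range L, f i (y + (k : ℕ))) →
  ∃ Q₀ : ℕ, 1 ≤ Q₀ ∧ Qb ∣ Q₀ ∧ ∀ q : ℕ, 1 ≤ q → ∃ l : ℕ, 1 ≤ l ∧ ∀ P : ℕ, 1 ≤ P → ∃ X₁ : ℕ, ∀ X : ℕ, X₁ ≤ X → ∀ i, ∃ (V : ℤ) (d : ℤ → ℝ), (P : ℤ) ∣ V ∧
    (∀ x, 0 ≤ d x ∧ d x ≤ 1) ∧ (∀ x k : ℤ, d (x + Q₀ * k) = d x) ∧ (∀ x, (∀ k : ℤ, f i (x + Q₀ * k) = 0) → d x = 0) ∧
    (δ i - ε₁) * Q₀ ≤ ∑ k ∈ range Q₀, d (k : ℕ) ∧ ∑ x ∈ Icc (V - X) (V + X), (Fm (f i) (Q₀ * q) l x - d x) ^ 2 ≤ ε₁ * X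

/-! ## Part 2: classes of `a z - b z'` (pure number theory) -/

/-- the density of the `c` with the conditions of Q1 -/
noncomputable def dn (a b : ℕ) : ℝ := (Nat.totient (2 * a * b) : ℝ) / (2 * a * b : ℕ)

/-- the local conditions of Q1 -/
def Lo (a b : ℕ) (κ : ℤ) : Prop := (∀ p : ℕ, p.Prime → p ∣ a * b → ¬ (p : ℤ) ∣ κ) ∧ (¬ 2 ∣ a * b → (2 : ℤ) ∣ κ)

/-- the number of the pairs of units with `a z - b z' = κ` -/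
def Nu (Q a b : ℕ) [NeZero Q] (κ : ZMod Q) : ℕ := #{p : (ZMod Q)ˣ × (ZMod Q)ˣ | (a : ZMod Q) * p.1 - b * p.2 = κ}

/-- the weight of a pair of units -/
noncomputable def om (a b Q : ℕ) [NeZero Q] (z z' : (ZMod Q)ˣ) : ℝ := (Nat.totient Q : ℝ) ^ 2 / (dn a b * Q * Nu Q a b ((a : ZMod Q) * z - b * z'))

/-- **CRM** (short-medium; pure). `ZMod.chineseRemainder`, `Units.mapEquiv`, `MulEquiv.prodUnits`: a bijection of the pairs of units modulo `m n` with the pairs of pairs. -/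
def CRM_stmt : Prop := ∀ (m n a b : ℕ) [NeZero m] [NeZero n] [NeZero (m * n)] (κ : ℤ), Nat.Coprime m n → Nu (m * n) a b (κ : ZMod (m * n)) = Nu m a b (κ : ZMod m) * Nu n a b (κ : ZMod n)

/-- **CRP** (medium; pure). `Q = p^e`, `φ Q = p^(e-1) (p - 1)`. If `p ∤ b` then `b` is a unit and the pairs `(z, z')` with `a z - b z' = κ` correspond to the units `z` for which `a z - κ` is a unit (`z' = (a z - κ)/b`). An element of `ZMod (p^e)` is a unit iff it is not `0` modulo `p`, and every residue modulo `p` has `p^(e-1)` lifts.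
If `p ∣ a` then `p ∤ κ` and `a z - κ` is always a unit: `Nu = φ Q`, `Q φ Q = (φ Q)^2 p/(p - 1)`. If `p ∤ a` the residue of `z` must be different from `0` and `κ/a`: `Nu = p^(e-1) (p - 1)` if `p ∣ κ` and `p^(e-1) (p - 2)` otherwise; `p = 2`: `2 ∣ κ`, `Q Nu = 2 (φ Q)^2`; `p ≥ 3`: `Q Nu ≥ p^(2e-1) (p - 2) = (φ Q)^2 (1 - 1/(p-1)^2)`.
If `p ∣ b` then `p ∤ a`: exchange the roles (`κ` and `-κ`). -/
def CRP_stmt : Prop := ∀ (p e a b : ℕ) [NeZero (p ^ e)] (κ : ℤ), p.Prime → 1 ≤ e → 1 ≤ a → 1 ≤ b → Nat.Coprime a b → (p ∣ a * b → ¬ (p : ℤ) ∣ κ) → (p = 2 → ¬ 2 ∣ a * b → (2 : ℤ) ∣ κ) →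
  (Nat.totient (p ^ e) : ℝ) ^ 2 * (if p ∣ 2 * a * b then (p : ℝ) / (p - 1) else 1 - 1 / ((p : ℝ) - 1) ^ 2) ≤ ((p ^ e : ℕ) : ℝ) * Nu (p ^ e) a b (κ : ZMod (p ^ e))

/-- **CRL** (short-medium; from CRM, CRP). `Nat.recOnPosPrimePosCoprime` (`Nat.Coprime.primeFactors_mul`, `Nat.totient_mul`, `Nat.primeFactors_prime_pow`; all factors are `≥ 0` as `p ≥ 3` in the second case). -/
def CRL_stmt : Prop := ∀ (Q a b : ℕ) [NeZero Q] (κ : ℤ), 1 ≤ a → 1 ≤ b → Nat.Coprime a b → (∀ p : ℕ, p.Prime → p ∣ Q → p ∣ a * b → ¬ (p : ℤ) ∣ κ) → (2 ∣ Q → ¬ 2 ∣ a * b → (2 : ℤ) ∣ κ) →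
  (Nat.totient Q : ℝ) ^ 2 * ∏ p ∈ Q.primeFactors, (if p ∣ 2 * a * b then (p : ℝ) / (p - 1) else 1 - 1 / ((p : ℝ) - 1) ^ 2) ≤ Q * Nu Q a b (κ : ZMod Q)

/-- **CRA** (short-medium; from CRL). Let `κ` be an integer in the class of `a z - b z'`. For a prime `p ∣ Q`: `p ∣ a` gives `κ = - b z'`, not `0` modulo `p`, the same for `p ∣ b`; if `2 ∤ a b` then `z`, `z'` are odd (`2 ∣ Q`) and `κ` is even. So CRL applies. The product over the `p ∣ 2 a b` (all divide `Q`) of `p/(p-1)` is `2 a b/φ(2 a b) = 1/dn a b`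
(`Nat.totient_mul_prod_primeFactors` or `Nat.totient_eq_mul_prod_factors`), and the product of the `1 - 1/(p-1)^2` over the other primes (`p ≥ 3`) is `≥ ∏_(2 ≤ n ≤ Q) (1 - 1/n^2) ≥ 1/2` (`(N + 1)/(2 N)` by induction). -/
def CRA_stmt : Prop := ∀ (Q a b : ℕ) [NeZero Q], 1 ≤ a → 1 ≤ b → Nat.Coprime a b → 2 * a * b ∣ Q → ∀ z z' : (ZMod Q)ˣ, 0 < Nu Q a b ((a : ZMod Q) * z - b * z') ∧ 0 ≤ om a b Q z z' ∧ om a b Q z z' ≤ 2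

/-- **TVL** (short-medium; from CRL). All `κ : ZMod q` satisfy the hypotheses of CRL (no `p ∣ q` divides `2 a b`, as `p > y ≥ 2`), so `Nu q a b κ / φ(q)^2 ≥ s := (1 - 2/y)/q` since `∏_(p ∣ q) (1 - 1/(p-1)^2) ≥ 1 - ∑_(p ∣ q) 1/(p-1)^2 ≥ 1 - ∑_(n ≥ y) 1/n^2 ≥ 1 - 1/(y - 1) ≥ 1 - 2/y`. With `σ κ = Nu κ/φ(q)^2` (`∑ σ = 1`, `σ κ - s ≥ 0`) the left side is
`∑_κ σ κ G κ = ∑ (σ κ - s) G κ + s ∑ G κ ≤ C (1 - q s) + s ∑ G κ ≤ 2 C/y + mean G`. -/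
def TVL_stmt : Prop := ∀ (q a b y : ℕ) [NeZero q] (G : ZMod q → ℝ) (C : ℝ), 1 ≤ a → 1 ≤ b → Nat.Coprime a b → 2 ≤ y → (∀ p : ℕ, p.Prime → p ∣ q → y < p ∧ ¬ p ∣ a * b) → (∀ κ, 0 ≤ G κ ∧ G κ ≤ C) →
  (mean fun p : (ZMod q)ˣ × (ZMod q)ˣ => G ((a : ZMod q) * p.1 - b * p.2)) ≤ mean G + C * (2 / y)

/-- **OMA** (short; pure). The number of pairs of units is `(φ Q)^2` (`ZMod.card_units_eq_totient`); sum over the classes `κ = a z - b z'`: there are `Nu κ` pairs, each with the weight `(φ Q)^2/(dn a b Q Nu κ)` (`Finset.sum_fiberwise`). -/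
def OMA_stmt : Prop := ∀ (Q a b : ℕ) [NeZero Q] (h : ZMod Q → ℝ), 1 ≤ a → 1 ≤ b →
  (mean fun p : (ZMod Q)ˣ × (ZMod Q)ˣ => om a b Q p.1 p.2 * h ((a : ZMod Q) * p.1 - b * p.2)) = (∑ κ with 0 < Nu Q a b κ, h κ) / (dn a b * Q)

/-- **OMD** (short; from OMA, CRL). `h κ = d κ.val`. By periodicity `d (a z.val - b z'.val) = h (a z - b z')`. If `Nu κ = 0` then by CRL (all factors of the product are `> 0`) `κ.val` violates the local conditions (for `p ∣ Q`), so `¬ Lo a b κ.val` and `h κ = 0`. So `∑_(k < Q) d k = ∑_κ h κ = ∑_(Nu κ > 0) h κ`. -/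
def OMD_stmt : Prop := ∀ (Q a b : ℕ) [NeZero Q] (d : ℤ → ℝ), 1 ≤ a → 1 ≤ b → Nat.Coprime a b → 2 * a * b ∣ Q → (∀ x, 0 ≤ d x) → (∀ x k : ℤ, d (x + Q * k) = d x) → (∀ x, ¬ Lo a b x → d x = 0) →
  ∑ k ∈ range Q, d (k : ℕ) ≤ dn a b * Q * mean fun p : (ZMod Q)ˣ × (ZMod Q)ˣ => om a b Q p.1 p.2 * d ((a : ℤ) * ((p.1 : ZMod Q).val : ℕ) - (b : ℤ) * ((p.2 : ZMod Q).val : ℕ))

/-- **LAW** (medium; from CRA, TVL, OMA). `Q = Q₀ q`, `I` the interval, `c = V + a ρ - b ρ' + Q (a P - b P') ∈ I`. For `κ₀ : ZMod Q₀`, `κ₁ : ZMod q` let `H κ₀ κ₁ = (1/X) ∑_(x ∈ I, x = κ₀ in ZMod Q₀, x = κ₁ in ZMod q) G x`. These `x` are in one class modulo `Q`, so their number is at most `2 (a + b) (X + 1) + 1 ≤ 5 (a + b) X` and `0 ≤ H ≤ 5 (a + b)`.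
For fixed `z, v, z', v'` and `P` the numbers `c`, `P' < X`, are different (`b ≥ 1`) and in the class `(a z - b z', a v - b v')` (`Q ∣ V`): the mean over `P, P'` of `G c` is at most `H (a z - b z') (a v - b v')`. TVL (`C = 5 (a + b)`; no `p ∣ q` divides `a b` since `2 a b ∣ Q₀` and `q` is prime to `Q₀`): the mean over `v, v'` of `H κ₀ (a v - b v')` is at most
`mean_κ₁ H κ₀ κ₁ + 10 (a + b)/y`. By CRA `0 ≤ om ≤ 2` and by OMA the mean over `z, z'` of `om (mean_κ₁ H (a z - b z') κ₁)` is at most `(1/(dn Q₀)) ∑_κ₀ mean_κ₁ H = (1/(dn Q₀ q X)) ∑_(x ∈ I) G x` (every `x` has exactly one `(κ₀, κ₁)`). -/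
def LAW_stmt : Prop := ∀ (a b Q₀ q y X : ℕ) [NeZero Q₀] [NeZero q] (ρ : (ZMod Q₀)ˣ → (ZMod q)ˣ → ℤ) (G : ℤ → ℝ) (V : ℤ), 1 ≤ a → 1 ≤ b → Nat.Coprime a b → 2 * a * b ∣ Q₀ → Nat.Coprime Q₀ q → 2 ≤ y →
  (∀ p : ℕ, p.Prime → p ∣ q → y < p) → 1 ≤ X → (∀ z v, (ρ z v : ZMod Q₀) = z ∧ (ρ z v : ZMod q) = v ∧ 0 ≤ ρ z v ∧ ρ z v < (Q₀ * q : ℕ)) → (∀ x, 0 ≤ G x ∧ G x ≤ 1) → ((Q₀ * q : ℕ) : ℤ) ∣ V →
  (mean fun p : ((ZMod Q₀)ˣ × (ZMod q)ˣ × Fin X) × ((ZMod Q₀)ˣ × (ZMod q)ˣ × Fin X) => om a b Q₀ p.1.1 p.2.1 *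
    G (V + (a : ℤ) * ρ p.1.1 p.1.2.1 - (b : ℤ) * ρ p.2.1 p.2.2.1 + (Q₀ * q : ℕ) * ((a : ℤ) * ((p.1.2.2 : ℕ) : ℤ) - (b : ℤ) * ((p.2.2.2 : ℕ) : ℤ)))) ≤
  (∑ x ∈ Icc (V - ((a + b) * (Q₀ * q) * (X + 1) : ℕ)) (V + ((a + b) * (Q₀ * q) * (X + 1) : ℕ)), G x) / (dn a b * (Q₀ * q : ℕ) * X) + 20 * (a + b) / y

open Classical in
/-- **ADC** (short-medium; pure). `Ad a b x` implies `Lo a b x`, and `Lo a b x`, `x ≠ 0` imply `Ad a b x`. Every `2 a b` consecutive integers contain exactly `φ(2 a b)` with `Lo a b`: if `a b` is even then `Lo` is: prime to `2 a b`; if `a b` is odd then `x ↦ x + a b` exchanges (modulo `2 a b`) the even numbers prime to `a b` and the odd ones, which are the numbers prime to `2 a b`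
(`Nat.filter_coprime_Ico_eq_totient`, `Nat.count_modEq_card`, or a sum over a period). There are `⌊L/(2 a b)⌋` full periods. -/
def ADC_stmt : Prop := ∀ (a b : ℕ), 1 ≤ a → 1 ≤ b → Nat.Coprime a b → (∀ x : ℤ, Ad a b x → Lo a b x) ∧ ∀ (L : ℕ) (y : ℤ),
  dn a b * L - 2 * a * b - 1 ≤ (#{k ∈ range L | Ad a b (y + (k : ℕ))} : ℝ)

/-! ## Part 3: minimax and the index set (pure) -/

open Classical in
/-- **MMX** (medium; pure). (1) For large `N'` and every probability vector `ρ` on `Z` there is a surjective list `λ : Fin N' → Z` with `∑_z |#{i : λ i = z}/N' - ρ z| ≤ δ/2`: take `n_z = ⌊ρ_z (N' - #Z)⌋₊ + 1` and add the rest `N' - ∑ n_z ∈ [0, #Z]` to one `z`; the total error is `≤ 3 #Z/N'`; a function with prescribed fibres: `(Σ z, Fin (n z)) ≃ Fin N'`.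
So if `Surjective λ → v ≤ mean_i φ λ (λ i)` then for every `ρ` some surjective `λ` has `∑ ρ_z φ λ z ≥ v - δ/2` (`0 ≤ φ ≤ 1`). (2) Blackwell's argument: `s_0 = 0`, `s_(t+1) = s_t + (v - δ/2 - φ λ_(t+1))` where `λ_(t+1)` is chosen for `ρ = s_t^+/∑ s_t^+` (any surjective `λ` if `s_t^+ = 0`). `∑_z s_t^+ (z) (v - δ/2 - φ λ_(t+1) z) ≤ 0` and `((s + d)^+)^2 ≤ (s^+)^2 + 2 s^+ d + d^2`
(`|d| ≤ 1` if `0 ≤ v - δ/2 ≤ 1`; in general `v ≤ 1`, and for `v ≤ δ` the claim is trivial), so `∑_z (s_T^+ z)^2 ≤ T #Z` and `s_T z ≤ (T #Z)^(1/2) ≤ T δ/2` for large `T`: the mean of `φ λ_t z` over `t ≤ T` is `≥ v - δ`. -/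
def MMX_stmt : Prop := ∀ (Z : Type) [Fintype Z] [Nonempty Z] (δ : ℝ), 0 < δ → ∃ N' : ℕ, 1 ≤ N' ∧ ∀ (v : ℝ) (φ : (Fin N' → Z) → Z → ℝ), (∀ lam z, 0 ≤ φ lam z ∧ φ lam z ≤ 1) →
  (∀ lam : Fin N' → Z, Function.Surjective lam → v ≤ mean fun i : Fin N' => φ lam (lam i)) →
  ∃ (T : ℕ) (Λ : Fin T → Fin N' → Z), 1 ≤ T ∧ (∀ τ, Function.Surjective (Λ τ)) ∧ ∀ z, v - δ ≤ mean fun τ => φ (Λ τ) z

open Classical in
/-- **IDX** (medium-long; pure). `𝒫` = the primes dividing an `r.1 r.2`, `r ∈ R`; `E`, `B` large. `W = 𝒫 → Fin E` (or `ZMod E`), `w_e = ∏ p^(e p)`. `Γ' = W × (R × W → Fin B)` (`ZMod B`), `g_r (e, κ) = (e + v(b) - v(a), κ + 1_(r,e))`, `r = (a, b)`, `v(n)` = the vector of the `p`-adic valuations (addition modulo `E`, modulo `B`): a bijection (`(e, κ)` is determined by the image: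
first `e`, then `κ`). `Γ = Fin G` by `Fintype.equivFin`. `P = ∏_(s ∈ R) ∏_(e : W) s.2 w_e`. Given `V` with `Q P ∣ V r`: `o_(e,κ) = ∑_(s,v) κ(s, v) w_e (V s/(s.2 w_v))` (exact divisions, `κ(s, v) ∈ {0, ..., B - 1}`), a multiple of `Q`. Let `γ = (e, κ)` be such that `e p + v_p(b) - v_p(a) ∈ [0, E)` for all `p ∈ 𝒫` and `κ(r, e) ≠ B - 1`
(no wrap). Then with `(e', κ') = g_r γ`: `a w_e' = b w_e`, and `a o_(e',κ') - b o_(e,κ) = a w_e' ∑ (κ' - κ)(s, v) V s/(s.2 w_v) = a w_e' V r/(b w_e) = V r`; `γ ≠ g_r γ` (`κ` changes, `B ≥ 2`). The proportion of the other `γ` is at most `∑_p |v_p(b) - v_p(a)|/E + 1/B ≤ η`. -/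
def IDX_stmt : Prop := ∀ (R : Finset (ℕ × ℕ)) (η : ℝ), 0 < η → (∀ r ∈ R, 1 ≤ r.1 ∧ 1 ≤ r.2 ∧ Nat.Coprime r.1 r.2) →
  ∃ (G : ℕ) (w : Fin G → ℕ) (g : ℕ × ℕ → Equiv.Perm (Fin G)) (P : ℕ), 1 ≤ G ∧ 1 ≤ P ∧ (∀ γ, 1 ≤ w γ) ∧ (∀ γ, ∀ p : ℕ, p.Prime → p ∣ w γ → ∃ r ∈ R, p ∣ r.1 * r.2) ∧
    ∀ (V : ℕ × ℕ → ℤ) (Q : ℤ), (∀ r ∈ R, Q * P ∣ V r) → ∃ o : Fin G → ℤ, (∀ γ, Q ∣ o γ) ∧ ∀ r ∈ R,
      (#{γ | ¬ (g r γ ≠ γ ∧ r.1 * w (g r γ) = r.2 * w γ ∧ (r.1 : ℤ) * o (g r γ) - r.2 * o γ = V r)} : ℝ) ≤ η * G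

/-! ## Part 4: the counting argument (pure) -/

/-- **HSI** (short-medium; pure; Cauchy-Schwarz). `M p = mean_φ u φ p.1 v φ p.2`; the left side is `|mean_p M p B p| ≤ (mean M^2)^(1/2)` and `mean_p (M p)^2 = mean_(φ,φ') (mean_x u φ x u φ' x) (mean_y v φ y v φ' y) ≤ s t` by Cauchy-Schwarz. -/
def HSI_stmt : Prop := ∀ (Φ Ξ : Type) [Fintype Φ] [Fintype Ξ] [Nonempty Φ] [Nonempty Ξ] (u v : Φ → Ξ → ℝ) (B : Ξ × Ξ → ℝ) (s t : ℝ), 0 ≤ s → 0 ≤ t → (∀ p, |B p| ≤ 1) →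
  (mean fun z : Φ × Φ => (mean fun x => u z.1 x * u z.2 x) ^ 2) ≤ s ^ 2 → (mean fun z : Φ × Φ => (mean fun x => v z.1 x * v z.2 x) ^ 2) ≤ t ^ 2 →
  |mean fun φ => mean fun p : Ξ × Ξ => u φ p.1 * v φ p.2 * B p| ≤ √(s * t)

/-- **CORE** (medium; from HSI and the rows SPE, BES of Pool/Agent/helper19/FR/Spec.lean, both proved). `κ = (c/4)^4`. SPE (carried over to `Ξ` by `Fintype.equivFin Ξ`) for `K(x, y) = mean_φ A φ x A φ y ∈ [0, 1]`: orthonormal `e_i`, `i < n`, `n ≤ 1/κ^2`, `⟨h, K h⟩ ≤ κ |h|^2` for `h` orthogonal to them. `c_i φ = mean (A φ e_i)`, `p_φ = ∑ c_i(φ) e_i`, `q_φ = A φ - p_φ`,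
`|p_φ|, |q_φ| ≤ |A φ| ≤ 1`. `mean_φ' ⟨q_φ, q_φ'⟩^2 = mean_φ' ⟨q_φ, A φ'⟩^2 = ⟨q_φ, K q_φ⟩ ≤ κ`, so `mean_(φ,φ') ⟨q_φ, q_φ'⟩^2 ≤ κ = ((c/4)^2)^2`, also with `g φ`, `g φ'` for `φ`, `φ'` (`g` is a permutation); the same mean for `A` and for `p` is `≤ 1`. `A (gφ) ⊗ A φ = q_(gφ) ⊗ A φ + p_(gφ) ⊗ q_φ + p_(gφ) ⊗ p_φ`. By HSI (`s = (c/4)^2`, `t = 1`, and conversely)
the first two terms contribute at most `c/4` each, so `c/2 ≤ |∑_ij m_ij β_ij|`, `m_ij = mean_φ c_i(gφ) c_j(φ)`, `∑ m_ij^2 ≤ 1`, `β^r_ij = mean_p e_i(p.1) e_j(p.2) B r p`: `∑_ij (β^r_ij)^2 ≥ c^2/4`. BES for `u = e_i ⊗ e_j`: `∑_r (β^r_ij)^2 ≤ 2`. So `#R c^2/4 ≤ 2 n^2 ≤ 2 (4/c)^16`. -/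
def CORE_stmt : Prop := ∀ (Φ Ξ ρ : Type) [Fintype Φ] [Fintype Ξ] [Nonempty Φ] [Nonempty Ξ] (R : Finset ρ) (A : Φ → Ξ → ℝ) (g : ρ → Equiv.Perm Φ) (B : ρ → Ξ × Ξ → ℝ) (c δ : ℝ), 0 < c → c ≤ 1 →
  (∀ φ x, 0 ≤ A φ x ∧ A φ x ≤ 1) → (∀ r ∈ R, ∀ p, |B r p| ≤ 1) → 0 ≤ δ → δ * #R ≤ 1 → (∀ r ∈ R, ∀ r' ∈ R, r ≠ r' → |mean fun p => B r p * B r' p| ≤ δ) →
  (∀ r ∈ R, c ≤ |mean fun φ => mean fun p : Ξ × Ξ => A (g r φ) p.1 * A φ p.2 * B r p|) → (#R : ℝ) ≤ 2 ^ 35 / c ^ 18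

/-- **LOWC** (short-medium; pure). `m φ z = mean_w A φ (z, w) ≤ 1/2`. `A A' ω (β - Y) ≥ A A' ω d - ω |β - d| - 2 A A' Y` (`0 ≤ A, A' ≤ 1`, `0 ≤ ω ≤ 2`). The mean over `φ, p` of `A A' ω d` is `mean_(z,z') ω d mean_φ m (gφ) z m φ z'`, and `m m' ≥ (m + m')/2 - 1/4` as `(1/2 - m) (1/2 - m') ≥ 0`; the mean over `φ` of `m (gφ) z` is the mean of `m φ z ≥ 1/4 + θ`
(`g` is a permutation). So it is at least `θ mean ω d`. -/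
def LOWC_stmt : Prop := ∀ (Φ Z W : Type) [Fintype Φ] [Fintype Z] [Fintype W] [Nonempty Φ] [Nonempty Z] [Nonempty W] (A : Φ → Z × W → ℝ) (g : Equiv.Perm Φ) (Y β : (Z × W) × (Z × W) → ℝ) (ω d : Z × Z → ℝ) (θ e : ℝ), 0 ≤ θ →
  (∀ φ x, 0 ≤ A φ x ∧ A φ x ≤ 1) → (∀ φ z, (mean fun w => A φ (z, w)) ≤ 1 / 2) → (∀ z, 1 / 4 + θ ≤ mean fun φ => mean fun w => A φ (z, w)) →
  (∀ p, 0 ≤ Y p ∧ Y p ≤ 1) → (∀ p, 0 ≤ β p ∧ β p ≤ 1) → (∀ z, 0 ≤ ω z ∧ ω z ≤ 2) → (∀ z, 0 ≤ d z ∧ d z ≤ 1) →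
  (mean fun φ => mean fun p : (Z × W) × (Z × W) => A (g φ) p.1 * A φ p.2 * Y p) ≤ e → (mean fun p : (Z × W) × (Z × W) => ω (p.1.1, p.2.1) * |β p - d (p.1.1, p.2.1)|) ≤ e →
  θ * (mean fun z => ω z * d z) - 3 * e ≤ mean fun φ => mean fun p : (Z × W) × (Z × W) => A (g φ) p.1 * A φ p.2 * (ω (p.1.1, p.2.1) * (β p - Y p))

/-- the data of the counting argument, with error `e` -/
def Data {ρ : Type} (R : Finset ρ) (ε e : ℝ) : Prop := ∃ (Φ Z W : Type) (_ : Fintype Φ) (_ : Fintype Z) (_ : Fintype W) (_ : Nonempty Φ) (_ : Nonempty Z) (_ : Nonempty W)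
  (A : Φ → Z × W → ℝ) (g : ρ → Equiv.Perm Φ) (Y β : ρ → (Z × W) × (Z × W) → ℝ) (ω d : ρ → Z × Z → ℝ),
  (∀ φ x, 0 ≤ A φ x ∧ A φ x ≤ 1) ∧ (∀ φ z, (mean fun w => A φ (z, w)) ≤ 1 / 2) ∧ (∀ z, 1 / 4 + 3 / 2000000 ≤ mean fun φ => mean fun w => A φ (z, w)) ∧
  ∀ r ∈ R, (∀ p, 0 ≤ Y r p ∧ Y r p ≤ 1) ∧ (∀ p, 0 ≤ β r p ∧ β r p ≤ 1) ∧ (∀ z, 0 ≤ ω r z ∧ ω r z ≤ 2) ∧ (∀ z, 0 ≤ d r z ∧ d r z ≤ 1) ∧
    (mean fun φ => mean fun p : (Z × W) × (Z × W) => A (g r φ) p.1 * A φ p.2 * Y r p) ≤ e ∧ (mean fun p : (Z × W) × (Z × W) => ω r (p.1.1, p.2.1) * |β r p - d r (p.1.1, p.2.1)|) ≤ e ∧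
    ε / 2 ≤ (mean fun z => ω r z * d r z) ∧
    ∀ r' ∈ R, r ≠ r' → |mean fun p : (Z × W) × (Z × W) => (ω r (p.1.1, p.2.1) * (β r p - Y r p)) * (ω r' (p.1.1, p.2.1) * (β r' p - Y r' p))| ≤ e

/-- **ENG** (short-medium; from CORE, LOWC). `e = min (5 ε/10^8) (1/(#R + 1))`, `B r p = ω (β - Y)/2`, `|B| ≤ 1`. LOWC (`θ = 3/2000000`): the mean over `φ, p` of `A A' B r` is at least `(θ ε/2 - 3 e)/2 ≥ 3 ε/10^7 =: c`. CORE with `δ = e` (the products have the mean `≤ e/4`): `#R ≤ 2^35/c^18 = 2^35 (10^7/3)^18/ε^18 ≤ 10^128/ε^18`. -/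
def ENG_stmt : Prop := ∀ (ρ : Type) (R : Finset ρ) (ε : ℝ), 0 < ε → ε ≤ 1 → (∀ e : ℝ, 0 < e → Data R ε e) → (#R : ℝ) ≤ 10 ^ 128 / ε ^ 18

/-! ## Part 5: the forms -/

/-- the forms are equal, or a true case of Q1 -/
def PrE (f g : ℕ × ℤ) : Prop := f = g ∨ Pair f g

/-- the constant of the form of type `β` at the place `p = u K^2 + i K + j` -/
def fmX {c : ℕ} (P : Fin c → ℕ → ℤ) (x y : ℕ → ℤ) (K : ℕ) (β : Fin (c * 2)) (p : ℕ) : ℤ := P β.divNat (p / (K * K)) + (if (β.modNat : ℕ) = 0 then x (p / K % K) else y (p % K))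

open Classical in
/-- **CLX** (medium; model Pool/Agent/helper76/HF/CLY.lean and Pool/Agent/helper76/DK/CLF.lean: the same with `c` coordinates instead of two; `CLZ_J`, `CLZ_adm`, `CLZ_same` of Pool/Agent/helper63/HF/CLZ.lean). `k = n (c 2)`, `K ≥ 1` with `C K^(-δ') ≤ η` (`C, δ'` from `Qk k`). For fixed `τ : Fin n → Fin c → Fin U` consider the samples `ω` with `(ω h χ)/(K K) = τ h χ`;
they correspond to the choices of `i_(h,χ), j_(h,χ) < K`, and the forms `(sl χ, P χ (τ h χ) + x i)`, `(sl χ, P χ (τ h χ) + y j)` run independently through sets of `K` forms: the `F` of `Qk k` (indices `Fin n × Fin (c * 2) ≃ Fin (n * (c * 2))`). All tuples are admissible (`CLZ_adm` with `D`: all constants are prime to `D`; primes not dividing `D` are `> k` and divide no slope). So for each `τ` at most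
`C K^k K^(-δ') ≤ η K^k` samples have not `Many`, altogether at most `η U^(n c) K^(2 n c)`. `Many` gives `J` (`CLZ_J`); different forms of `J` satisfy `Pair` (PRT); two forms of `J` of different type at the same place are different (`x i ≠ y j`), so `CLZ_same` would give `TC 1 1 (x i - y j)` or (exchange the two forms) the same: contradiction. -/
def CLX_stmt : Prop := (∀ k : ℕ, 1 ≤ k → Qk k) → ∀ (c n : ℕ) (sl : Fin c → ℕ) (η : ℝ), 1 ≤ c → 1 ≤ n → 0 < η → (∀ χ, 1 ≤ sl χ) → ∃ K : ℕ, 1 ≤ K ∧ ∀ D : ℕ, 1 ≤ D → (∀ p : ℕ, p.Prime → p ≤ n * (c * 2) → p ∣ D) →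
  (∀ χ, ∀ p : ℕ, p.Prime → p ∣ sl χ → p ∣ D) → ∀ (U : ℕ) (P : Fin c → ℕ → ℤ) (x y : ℕ → ℤ), 1 ≤ U → (∀ χ, ∀ u < U, IsCoprime (P χ u) (D : ℤ)) → (∀ i < K, (D : ℤ) ∣ x i ∧ (D : ℤ) ∣ y i) →
  (∀ i < K, ∀ j < K, i ≠ j → x i ≠ x j ∧ y i ≠ y j) → (∀ i < K, ∀ j < K, x i ≠ y j ∧ ¬ TC 1 1 (x i - y j)) →
  (#{ω : Om n c (U * (K * K)) | ¬ ∃ J : Finset (Fin n × Fin (c * 2)), (1 / 4 + 1 / 500000) * ((n : ℝ) * (c * 2 : ℕ)) ≤ #J ∧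
    (∀ z ∈ J, ∀ z' ∈ J, z.2.divNat ≠ z'.2.divNat → PrE (sl z.2.divNat, fmX P x y K z.2 (ω z.1 z.2.divNat)) (sl z'.2.divNat, fmX P x y K z'.2 (ω z'.1 z'.2.divNat))) ∧
    (∀ z ∈ J, ∀ z' ∈ J, z.1 = z'.1 → z.2.divNat = z'.2.divNat → z.2 = z'.2)} : ℝ) ≤ η * ((U * (K * K) : ℕ) : ℝ) ^ (n * c)

open Classical in
/-- **FCR** (medium-long; helper76; from CLX, FCP of Pool/Agent/helper76/DK, `NoTC`). Coordinates `χ = (γ, i)`, `c = G N'`, types `Fin (c * 2)`, `n, η` from FCP for `ε = δ/8` (and `≤ δ/(..)`), `K` from CLX, `k = n (c 2)`; for `D = Q` clusters `x_i = Q x'_i`, `y_j = Q y'_j` from `NoTC`, `S = 2 max |x'|, |y'|`. Places `(v, P, i, j)`, `v ∈ W`, `P < X`, `i, j < K`, with the base constants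
`h γ i v + Q (P + S/2)`. FCP gives `a`; `f γ i (v, P') = mean over i₁, j₁ of a_0(v, P' - S/2 - x'_(i₁), i₁, j₁) + a_1(v, P' - S/2 - y'_(j₁), i₁, j₁)` (terms with `P' - ... ∉ [0, X)` are `0`). -/
def FCR_stmt : Prop := ∀ (G N' : ℕ) (w : Fin G → ℕ) (δ : ℝ), 1 ≤ G → 1 ≤ N' → 0 < δ → (∀ γ, 1 ≤ w γ) → ∃ k : ℕ, ∀ Q : ℕ, 1 ≤ Q → (∀ p : ℕ, p.Prime → p ≤ k → p ∣ Q) → (∀ γ, ∀ p : ℕ, p.Prime → p ∣ w γ → p ∣ Q) →
  ∃ S : ℕ, ∀ (W : Type) [Fintype W] [Nonempty W] (X : ℕ), 1 ≤ X → ∀ h : Fin G → Fin N' → W → ℤ, (∀ γ i v, IsCoprime (h γ i v) (Q : ℤ)) → ∃ f : Fin G → Fin N' → W × Fin (X + S) → ℝ,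
    (∀ γ i ξ, 0 ≤ f γ i ξ ∧ f γ i ξ ≤ 2) ∧ (∀ γ i, ∑ ξ, f γ i ξ ≤ (Fintype.card W : ℝ) * X) ∧
    (2 * (1 / 4 + 1 / 500000) - δ) * ((G : ℝ) * N' * Fintype.card W * X) ≤ ∑ γ, ∑ i, ∑ ξ, f γ i ξ ∧
    ∀ γ i γ' i', (γ, i) ≠ (γ', i') → ∑ ξ, ∑ ξ', (if PrE (w γ, h γ i ξ.1 + (Q : ℤ) * ((ξ.2 : ℕ) : ℤ)) (w γ', h γ' i' ξ'.1 + (Q : ℤ) * ((ξ'.2 : ℕ) : ℤ)) then 0 else f γ i ξ * f γ' i' ξ') ≤
      δ * ((Fintype.card W : ℝ) * (X + S : ℕ)) ^ 2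

/-! ## Part 6: assembly -/

open Classical in
/-- `1` if `c` satisfies the conditions of Q1 but is not true for `r = (a, b)` -/
noncomputable def bd (r : ℕ × ℕ) (c : ℤ) : ℝ := if Ad r.1 r.2 c ∧ ¬ TC r.1 r.2 c then 1 else 0

open Classical in
/-- all but the proportion `ε` of the admissible `c` of every long interval are true -/
def GoodD (ε : ℝ) (a b : ℕ) : Prop := ∃ L₀ : ℕ, ∀ L : ℕ, L₀ ≤ L → ∀ y : ℤ,
  (#{k ∈ range L | Ad a b (y + (k : ℕ)) ∧ ¬ TC a b (y + (k : ℕ))} : ℝ) ≤ ε * #{k ∈ range L | Ad a b (y + (k : ℕ))}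

/-- **MOD** (long; helper76; from REG, LAW, OMD, CRA, ADC, MMX, IDX, FCR, ORT). -/
def MOD_stmt : Prop := ∀ (R : Finset (ℕ × ℕ)) (ε : ℝ), 0 < ε → ε ≤ 1 → (∀ r ∈ R, 1 ≤ r.1 ∧ 1 ≤ r.2 ∧ Nat.Coprime r.1 r.2 ∧ r ≠ (1, 1) ∧ ¬ GoodD ε r.1 r.2) → ∀ e : ℝ, 0 < e → Data R ε e

/-- **FINB** (short; from MOD, ENG). The exceptional pairs different from `(1, 1)` are at most `10^128/ε^18`; add `(1, 1)`. -/
def FINB_stmt : Prop := ∀ ε : ℝ, 0 < ε → ∃ E : Finset (ℕ × ℕ), (#E : ℝ) ≤ 10 ^ 129 / ε ^ 18 ∧ ∀ a b : ℕ, 1 ≤ a → 1 ≤ b → Nat.Coprime a b → (a, b) ∉ E → GoodD ε a b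

end Pool.Agent.DP
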